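import Pool.Agent.H93.AA.Defs

/-!
# Project AB: the group

`M` is a Coxeter matrix, `F` a set of generators all whose labels are two or infinity, `Γ v` a group for every generator
`v`. `AG M F Γ` is the Artin group of `M` in which the generator `v` is replaced by the group `Γ v` for `v ∈ F`.
-/

set_option autoImplicit false

open Finset

namespace Pool.Agent.H65.AB

open H42.NU Pool.Agent.H4.FC Pool.Agent.H93.AA

/-- the commutator -/
def cmt {G : Type} [Group G] (x y : G) : G := x * y * x⁻¹ * y⁻¹

section

variable {S : Type} (M : CoxeterMatrix S) (F : Finset S) (Γ : S → Type) [∀ v, Group (Γ v)]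

/-- the free product of the Artin group of `M` and of the groups `Γ v` -/
def FPr : Type := Monoid.Coprod (BG M) (Monoid.CoprodI Γ)

/-- the group structure of the free product -/
instance groupFPr : Group (FPr M Γ) := Monoid.Coprod.instGroup

/-- the inclusion of the Artin group in the free product -/
def eB : BG M →* FPr M Γ := Monoid.Coprod.inl

/-- the inclusion of the group `Γ v` in the free product -/
def eG (v : S) : Γ v →* FPr M Γ := Monoid.Coprod.inr.comp Monoid.CoprodI.of

/-- The relations: the generators `v ∈ F` of the Artin group and the groups `Γ v`, `v ∉ F`, are trivial; a generator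
`s` commutes with `Γ v` if `M s v = 2`, the groups `Γ u` and `Γ v` commute if `M u v = 2`. -/
def rels : Set (FPr M Γ) :=
  {r | (∃ v ∈ F, r = eB M Γ (bgen M v)) ∨
    (∃ v, v ∉ F ∧ ∃ a : Γ v, r = eG M Γ v a) ∨
    (∃ s v, M s v = 2 ∧ ∃ a : Γ v, r = cmt (eB M Γ (bgen M s)) (eG M Γ v a)) ∨
    ∃ u v, M u v = 2 ∧ ∃ (a : Γ u) (b : Γ v), r = cmt (eG M Γ u a) (eG M Γ v b)}

/-- the normal subgroup of the relations -/
def nrel : Subgroup (FPr M Γ) := Subgroup.normalClosure (rels M F Γ)

instance nrel_normal : (nrel M F Γ).Normal := Subgroup.normalClosure_normal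

/-- The Artin group of `M` in which the generators `v ∈ F` are replaced by the groups `Γ v`. -/
def AG : Type := FPr M Γ ⧸ nrel M F Γ

/-- the group structure of the quotient -/
instance groupAG : Group (AG M F Γ) := QuotientGroup.Quotient.group (nrel M F Γ)

end

variable {S : Type} {M : CoxeterMatrix S} {F : Finset S} {Γ : S → Type} [∀ v, Group (Γ v)]

/-- the homomorphism of the Artin group -/
def th (M : CoxeterMatrix S) (F : Finset S) (Γ : S → Type) [∀ v, Group (Γ v)] : BG M →* AG M F Γ :=
  (QuotientGroup.mk' (nrel M F Γ)).comp (eB M Γ)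

/-- the homomorphisms of the vertex groups -/
def io (M : CoxeterMatrix S) (F : Finset S) {Γ : S → Type} [∀ v, Group (Γ v)] (v : S) :
    Γ v →* AG M F Γ :=
  (QuotientGroup.mk' (nrel M F Γ)).comp (eG M Γ v)

end Pool.Agent.H65.AB
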