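import Pool.Agent.H65.BU.Faces
import Pool.Agent.H65.BU.Coh

/-!
# Project AB: definitions for the chain level

`FF` is the set of the letters `v` with vertex groups (as in BU); every other letter `z` has elements `p (z, b)`. The
cubes `(w, s, a)`, `w` in the subgroup `wf cs FF` of the letters in `FF`; in the directions `v ∈ FF` a cube has two
faces, in the other directions one face (a sum over all powers of `p (z, b)`).
-/

set_option autoImplicit false

open Finset

namespace Pool.Agent.H65.AB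

open Pool.Agent.H65.RA Pool.Agent.H65.BU

variable {V W A : Type} [Fintype V] [DecidableEq V] [Group W] [Group A] {M : CoxeterMatrix V}

/-- the subgroup of the letters in `FF` -/
def wf (cs : CoxeterSystem M W) (FF : Finset V) : Subgroup W :=
  Subgroup.closure {x | ∃ v ∈ FF, x = cs.simple v}

/-- the coboundary of a function on pairs of cubes -/
noncomputable def dlF (cs : CoxeterSystem M W) (FF : Finset V) (φ : Cub V W → Cub V W → ZMod 2)
    (c c' : Cub V W) : ZMod 2 :=
  ∑ v ∈ c.2.1, (φ (fa cs c v) c' + if v ∈ FF then φ (fb cs c v) c' else 0) +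
    ∑ v ∈ c'.2.1, (φ c (fa cs c' v) + if v ∈ FF then φ c (fb cs c' v) else 0)

/-- the pairs of cubes which occur -/
def OkF (G : SimpleGraph V) (cs : CoxeterSystem M W) (FF : Finset V) (pr : W → V → ZMod 2)
    (c c' : Cub V W) : Prop :=
  Ok G cs pr c c' ∧ c.1 ∈ wf cs FF ∧ c'.1 ∈ wf cs FF

open Classical in
/-- the sum over the pairs of cubes of the types `s`, `t` -/
noncomputable def KKF (G : SimpleGraph V) (cs : CoxeterSystem M W) (FF : Finset V)
    (pr : W → V → ZMod 2) (e : V → ℕ) (x : Finset V → ZMod 2) (k : ℕ)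
    (φ : Cub V W → Cub V W → ZMod 2) (s t : Finset V) : ZMod 2 :=
  ∑ᶠ q : W × W, if (q.1 ∈ wf cs FF ∧ q.2 ∈ wf cs FF) ∧
      (∀ v ∈ s, pr q.1 v = 0) ∧ (∀ v ∈ t, pr q.2 v = 0) then
    Ps G e x k (fun a b => φ (q.1, s, a) (q.2, t, b)) (FH cs q.1 s) (FH cs q.2 t) else 0

/-- exponents: supported on pairwise adjacent letters outside `FF` -/
def Pos (G : SimpleGraph V) (FF : Finset V) (m : V → ℕ) : Prop :=
  (∀ z, m z ≠ 0 → z ∉ FF) ∧ ∀ y z, m y ≠ 0 → m z ≠ 0 → y ≠ z → G.Adj y z

/-- the product of the powers -/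
noncomputable def zp (p : V × Bool → A) (a : V → Bool) (m : V → ℕ) : A :=
  ((univ : Finset V).toList.map fun z => p (z, a z) ^ m z).prod

/-- the conditions on the signs of two positions `(w, m)`, `(w', m')` -/
structure Opp (cs : CoxeterSystem M W) (w w' : W) (m m' : V → ℕ) (a b : V → Bool) : Prop where
  fst : ∀ v ∈ fst cs w, v ∈ fst cs w' → a v ≠ b v
  free : ∀ z, m z ≠ 0 → m' z ≠ 0 → cs.simple z * w = w * cs.simple z →
    cs.simple z * w' = w' * cs.simple z → a z ≠ b z
  left : ∀ z, m z ≠ 0 → ¬ (cs.simple z * w = w * cs.simple z) → a z = true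
  right : ∀ z, m' z ≠ 0 → ¬ (cs.simple z * w' = w' * cs.simple z) → b z = true

/-- Separation: pairs of positions `(w, m)`, `(w', m')` with different signs are far from each other, with finitely
many exceptions. -/
def SepZ (G : SimpleGraph V) (cs : CoxeterSystem M W) (FF : Finset V) (p : V × Bool → A)
    (g : (V → Bool) → W → A) : Prop :=
  ∀ E : Finset A, {q : (W × (V → ℕ)) × (W × (V → ℕ)) | q.1.1 ∈ wf cs FF ∧ q.2.1 ∈ wf cs FF ∧
    Pos G FF q.1.2 ∧ Pos G FF q.2.2 ∧ ∃ a b : V → Bool, Opp cs q.1.1 q.2.1 q.1.2 q.2.2 a b ∧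
    (g a q.1.1 * zp p a q.1.2)⁻¹ * (g b q.2.1 * zp p b q.2.2) ∈ E}.Finite

end Pool.Agent.H65.AB
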