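import Pool.Agent.H65.AB.FacesZ
import Pool.Agent.H65.BU.Eval

/-!
# Project AB: the value of the alternating function
-/

set_option autoImplicit false
set_option linter.unusedSectionVars false

open Finset

namespace Pool.Agent.H65.AB

open Pool.Agent.H65.RA Pool.Agent.H65.BU Pool.Agent.H85.VK

variable {V W A : Type} [Fintype V] [DecidableEq V] [Group W] [Group A] {M : CoxeterMatrix V}
  {G : SimpleGraph V} {cs : CoxeterSystem M W} {p : V × Bool → A} {pr : W → V → ZMod 2}
  {g : (V → Bool) → W → A} {e : V → ℕ} {x : Finset V → ZMod 2} {k : ℕ} {FF : Finset V}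

theorem KKF_AA (hg : Apts cs pr p g) (ν : V × Bool → ℕ) (s t : Finset V) :
    KKF G cs FF pr e x k (AA ν) s t = Ps G e x k (eP ν) s t := by
  classical
  unfold KKF
  rw [finsum_eq_single _ ((1, 1) : W × W)]
  · beta_reduce
    rw [if_pos ⟨⟨(wf cs FF).one_mem, (wf cs FF).one_mem⟩, fun v _ => hg.pr_one v,
      fun v _ => hg.pr_one v⟩, FH_one, FH_one]
    unfold Ps
    refine sum_congr rfl fun S _ => sum_congr rfl fun A _ => ?_
    congr 1
    unfold AA
    exact if_pos ⟨rfl, rfl⟩
  · rintro ⟨w, w'⟩ hne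
    have h1 : ¬ (w = 1 ∧ w' = 1) := fun h => hne (by rw [h.1, h.2])
    split_ifs with h2
    · unfold Ps
      refine sum_eq_zero fun S _ => sum_eq_zero fun A _ => ?_
      have h3 : ∀ a b, AA ν ((w, w').1, s, a) ((w, w').2, t, b) = 0 := fun a b => if_neg h1
      beta_reduce
      rw [h3, mul_zero]
    · rfl

end Pool.Agent.H65.AB
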