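import Pool.Agent.H65.AB.Nb
import Pool.Agent.H93.AA.Defs
import Pool.Agent.H4.FC.SphIff
import Pool.Agent.H93.AA.Sd
import Pool.Agent.H73.LK.Ind
import Pool.Agent.H78.RA.Two

/-!
# Project AB: exactness for full subcomplexes of the nerve

Written by helper10 (part of LerN).
-/

set_option autoImplicit false
set_option linter.unusedSectionVars false

open Finset

namespace Pool.Agent.H65.AB

open H42.NU Pool.Agent.H4.FC Pool.Agent.H93.AA Pool.Agent.H78.RA
open Pool.Agent.H73.LK (sub)

variable {S : Type} [Fintype S] [DecidableEq S] {M : CoxeterMatrix S} {F : Finset S}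

/-! ### Full subcomplexes -/

private theorem lrn_sph {U : Finset S} {σ : Finset {v // v ∈ U}} :
    Sph (sub M U) σ ↔ Sph M (σ.map (Function.Embedding.subtype _)) := by
  have h1 : (par (sub M U) σ).map (Pool.Agent.H73.LK.ind_hom M U) =
      par M (σ.map (Function.Embedding.subtype _)) := by
    unfold par
    rw [MonoidHom.map_closure]
    congr 1
    ext w
    constructor
    · rintro ⟨u, ⟨v, hv, rfl⟩, rfl⟩
      exact ⟨v.1, mem_map.2 ⟨v, hv, rfl⟩, Pool.Agent.H73.LK.ind_hom_simple M U v⟩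
    · rintro ⟨v, hv, rfl⟩
      obtain ⟨u, hu, rfl⟩ := mem_map.1 hv
      exact ⟨(sub M U).simple u, ⟨u, hu, rfl⟩, Pool.Agent.H73.LK.ind_hom_simple M U u⟩
  unfold Sph
  rw [← h1]
  exact ((par (sub M U) σ).equivMapOfInjective _
    (Pool.Agent.H73.LK.ind_hom_injective M U)).toEquiv.finite_iff

private theorem lrn_tw_sg (ν : S → ℕ) (τ : Finset S) (v : S) (a : ZMod 2) :
    sg ν τ v • a = a := by
  unfold sg
  rcases neg_one_pow_eq_or ℤ (τ.filter fun u => ν u < ν v).card with h | h
  · rw [h, one_smul]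
  · rw [h, neg_smul, one_smul, ZMod.neg_eq_self_mod_two]

private theorem lrn_tw_bd (ν : S → ℕ) (f : Finset S → ZMod 2)
    (τ : Finset S) : bd ν f τ = ∑ v ∈ τᶜ, f (insert v τ) := by
  unfold bd
  exact Finset.sum_congr rfl fun v _ => lrn_tw_sg ν τ v _

private theorem lrn_tw_sub {U : Finset S} (s : Finset {v // v ∈ U}) :
    (s.map (Function.Embedding.subtype _) : Finset S) ⊆ U := by
  intro a ha
  obtain ⟨a', -, rfl⟩ := mem_map.1 ha
  exact a'.2

private theorem lrn_tw_map {U τ : Finset S} (h : τ ⊆ U) :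
    ∃ s : Finset {v // v ∈ U}, s.map (Function.Embedding.subtype _) = τ := by
  classical
  refine ⟨τ.subtype _, ?_⟩
  ext a
  rw [mem_map]
  constructor
  · rintro ⟨a', ha', rfl⟩
    exact mem_subtype.1 ha'
  · intro ha
    exact ⟨⟨a, h ha⟩, mem_subtype.2 ha, rfl⟩

private theorem lrn_tw_sum {U : Finset S} [Fintype {v // v ∈ U}] [DecidableEq {v // v ∈ U}]
    (f : Finset S → ZMod 2) (s : Finset {v // v ∈ U})
    (hF : ∀ u, u ∉ U → f (insert u (s.map (Function.Embedding.subtype _))) = 0) :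
    ∑ u ∈ (s.map (Function.Embedding.subtype _))ᶜ,
      f (insert u (s.map (Function.Embedding.subtype _))) =
    ∑ u ∈ sᶜ, f ((insert u s).map (Function.Embedding.subtype _)) := by
  have h1 : ∑ u ∈ sᶜ, f ((insert u s).map (Function.Embedding.subtype _)) =
      ∑ u ∈ sᶜ.map (Function.Embedding.subtype _),
        f (insert u (s.map (Function.Embedding.subtype _))) := by
    rw [sum_map]
    apply sum_congr rfl
    intro w _
    rw [map_insert]
  rw [h1]
  symm
  apply sum_subset
  · intro u hu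
    obtain ⟨w, hw, rfl⟩ := mem_map.1 hu
    rw [mem_compl] at hw ⊢
    intro h
    obtain ⟨w', hw', h'⟩ := mem_map.1 h
    exact hw (Function.Embedding.injective _ h' ▸ hw')
  · intro u hu hu'
    rw [mem_compl] at hu
    by_cases hA : u ∈ U
    · exfalso
      apply hu'
      refine mem_map.2 ⟨⟨u, hA⟩, ?_, rfl⟩
      rw [mem_compl]
      intro h
      exact hu (mem_map.2 ⟨_, h, rfl⟩)
    · exact hF u hA

private theorem lrn_tw_ex {U : Finset S} {i : ℕ} (h : HL (sub M U) i) (ν : S → ℕ) :
    Ex (ZMod 2) ν (fun σ => Sph M σ ∧ σ.card = i ∧ σ ⊆ U)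
      (fun σ => Sph M σ ∧ σ.card = i + 1 ∧ σ ⊆ U) := by
  intro z hz1 hz2
  have hzero : ∀ ρ : Finset S, ∑ u ∈ ρᶜ, z (insert u ρ) = 0 := by
    intro ρ
    rw [← lrn_tw_bd ν, hz2]
    rfl
  have hF : ∀ (s : Finset {v // v ∈ U}) (u : S), u ∉ U →
      z (insert u (s.map (Function.Embedding.subtype _))) = 0 := by
    intro s u hu
    by_contra hne
    exact hu ((hz1 _ hne).2.2 (mem_insert_self _ _))
  obtain ⟨y', hy1, hy2⟩ := h (fun s => z (s.map (Function.Embedding.subtype _))) (by
    intro s hs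
    obtain ⟨h1, h2, -⟩ := hz1 _ hs
    rw [card_map] at h2
    exact ⟨lrn_sph.2 h1, h2⟩) (by
    intro s
    rw [← lrn_tw_sum z s (hF s)]
    exact hzero _)
  have hinj : Function.Injective fun s : Finset {v // v ∈ U} =>
      s.map (Function.Embedding.subtype _) := Finset.map_injective _
  set y : Finset S → ZMod 2 := Function.extend (fun s : Finset {v // v ∈ U} =>
    s.map (Function.Embedding.subtype _)) y' 0 with hy
  have hye : ∀ s, y (s.map (Function.Embedding.subtype _)) = y' s := by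
    intro s
    exact hinj.extend_apply y' 0 s
  have hyn : ∀ τ, y τ ≠ 0 → ∃ s : Finset {v // v ∈ U},
      s.map (Function.Embedding.subtype _) = τ := by
    intro τ hτ
    by_contra hc
    apply hτ
    rw [hy, Function.extend_apply' _ _ _ hc]
    rfl
  refine ⟨y, ?_, ?_⟩
  · intro τ hτ
    obtain ⟨s, rfl⟩ := hyn τ hτ
    rw [hye] at hτ
    obtain ⟨h1, h2⟩ := hy1 s hτ
    exact ⟨lrn_sph.1 h1, by rw [card_map, h2], lrn_tw_sub s⟩
  · funext τ
    rw [lrn_tw_bd]
    by_cases hτ : τ ⊆ U
    · obtain ⟨s, rfl⟩ := lrn_tw_map hτ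
      rw [lrn_tw_sum y s]
      · simp_rw [hye]
        exact hy2 s
      · intro u hu
        by_contra hne
        obtain ⟨s', hs'⟩ := hyn _ hne
        have h1 := lrn_tw_sub s'
        rw [hs'] at h1
        exact hu (h1 (mem_insert_self _ _))
    · have h1 : z τ = 0 := by
        by_contra hne
        exact hτ (hz1 τ hne).2.2
      rw [h1]
      apply sum_eq_zero
      intro u _
      by_contra hne
      obtain ⟨s', hs'⟩ := hyn _ hne
      apply hτ
      have h2 := lrn_tw_sub s'
      rw [hs'] at h2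
      exact (subset_insert _ _).trans h2

/-- exactness for a full subcomplex, from the homology modulo two of the nerve of the parabolic subgroup -/
theorem ex_sub (U : Finset S) {i : ℕ} (h : HL (sub M U) i) (ν : S → ℕ) (hν : Function.Injective ν) :
    Ex ℂ ν (fun σ => Sph M σ ∧ σ.card = i ∧ σ ⊆ U) (fun σ => Sph M σ ∧ σ.card = i + 1 ∧ σ ⊆ U) := by
  refine ex_two ν hν ?_ (lrn_tw_ex h ν)
  rintro τ v hv ⟨h1, h2, h3⟩
  refine ⟨h1.mono (subset_insert _ _), ?_, (subset_insert _ _).trans h3⟩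
  rw [Finset.card_insert_of_notMem hv] at h2
  omega

end Pool.Agent.H65.AB
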