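import Pool.Agent.H65.AB.Defs
import Pool.Agent.H73.HVN.Parab

/-!
# Project AB: the cubes over the subgroup of the letters in `FF`

PROOF of `fst_wf`: let `R : W →* W` be the homomorphism which kills the letters outside `FF` (it exists by `RA`, as in
`exists_kill`); `R w = w` for `w` in `wf`. If `w = s_z w'` with `ℓ w' < ℓ w`, `z ∉ FF`, then `w = R w = R w'`, of length
`≤ ℓ w'`. `pr_wf`: induction over the closure by multiplication on the right. The rest: `ok_fa`, `ok_fb` of BU/Faces.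
-/

set_option autoImplicit false
set_option linter.unusedSectionVars false

open Finset

namespace Pool.Agent.H65.AB

open Pool.Agent.H65.RA Pool.Agent.H65.BU

variable {V W A : Type} [Fintype V] [DecidableEq V] [Group W] [Group A] {M : CoxeterMatrix V}
  {G : SimpleGraph V} {cs : CoxeterSystem M W} {p : V × Bool → A} {pr : W → V → ZMod 2}
  {g : (V → Bool) → W → A} {FF : Finset V}

theorem simple_wf {v : V} (hv : v ∈ FF) : cs.simple v ∈ wf cs FF :=
  Subgroup.subset_closure ⟨v, hv, rfl⟩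

theorem mul_wf {v : V} (hv : v ∈ FF) {w : W} : w * cs.simple v ∈ wf cs FF ↔ w ∈ wf cs FF :=
  ⟨fun h => by
    have h1 := (wf cs FF).mul_mem h (simple_wf (cs := cs) hv)
    rwa [cs.simple_mul_simple_cancel_right] at h1,
  fun h => (wf cs FF).mul_mem h (simple_wf hv)⟩

/-- induction by multiplication on the right -/
theorem wf_ind {C : W → Prop} (h1 : C 1)
    (hm : ∀ w v, w ∈ wf cs FF → v ∈ FF → C w → C (w * cs.simple v)) {w : W} (hw : w ∈ wf cs FF) :
    C w := by
  have h2 : w ∈ wf cs FF ∧ C w := by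
    refine Subgroup.closure_induction_right (p := fun x _ => x ∈ wf cs FF ∧ C x)
      ⟨(wf cs FF).one_mem, h1⟩ ?_ ?_ hw
    · rintro x _ y ⟨v, hv, rfl⟩ ⟨hx, hx'⟩
      exact ⟨(wf cs FF).mul_mem hx (simple_wf hv), hm x v hx hv hx'⟩
    · rintro x _ y ⟨v, hv, rfl⟩ ⟨hx, hx'⟩
      rw [cs.inv_simple]
      exact ⟨(wf cs FF).mul_mem hx (simple_wf hv), hm x v hx hv hx'⟩
  exact h2.2

private theorem wf_WP {w : W} (hw : w ∈ wf cs FF) :
    w ∈ Pool.Agent.H73.HVN.WP cs (FF : Set V) := by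
  refine (Subgroup.closure_le _).2 ?_ hw
  rintro x ⟨v, hv, rfl⟩
  exact Subgroup.subset_closure ⟨v, mem_coe.2 hv, rfl⟩

/-- the first letters -/
theorem fst_wf (hM : RA G M) {w : W} (hw : w ∈ wf cs FF) : fst cs w ⊆ FF := by
  intro v hv
  rw [mem_fst] at hv
  obtain ⟨ω, hω, hω'⟩ := cs.exists_isReduced (cs.simple v * w)
  have h1 : w = cs.wordProd (v :: ω) := by
    rw [cs.wordProd_cons, ← hω', cs.simple_mul_simple_cancel_left]
  have h2 : cs.IsReduced (v :: ω) := by
    unfold CoxeterSystem.IsReduced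
    rw [← h1, List.length_cons, ← hω.eq, ← hω']
    have h3 := cs.isLeftDescent_iff.1 hv
    omega
  have h3 := wf_WP hw
  rw [h1] at h3
  exact mem_coe.1 (Pool.Agent.H73.HVN.mem_of_isReduced cs h2 h3 v List.mem_cons_self)

/-- the last letters -/
theorem last_wf (hM : RA G M) {w : W} (hw : w ∈ wf cs FF) {u : V} (hu : cs.IsRightDescent w u) :
    u ∈ FF := by
  refine fst_wf hM ((wf cs FF).inv_mem hw) (mem_fst.2 ?_)
  rw [← cs.isRightDescent_inv_iff, inv_inv]
  exact hu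

theorem pr_wf (hg : Apts cs pr p g) {w : W} (hw : w ∈ wf cs FF) {z : V} (hz : z ∉ FF) :
    pr w z = 0 := by
  refine wf_ind (C := fun w => pr w z = 0) (hg.pr_one z) (fun w v _ hv ih => ?_) hw
  have h1 : z ≠ v := fun h => hz (h ▸ hv)
  rw [hg.pr_mul, ih, if_neg h1, add_zero]

theorem okF_symm {c c' : Cub V W} (h : OkF G cs FF pr c c') : OkF G cs FF pr c' c :=
  ⟨ok_symm h.1, h.2.2, h.2.1⟩

theorem okF_fa {c c' : Cub V W} (h : OkF G cs FF pr c c') {v : V} (hv : v ∈ c.2.1) :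
    OkF G cs FF pr (fa cs c v) c' :=
  ⟨ok_fa h.1 hv, h.2.1, h.2.2⟩

theorem okF_fb (hF : Facts G cs) (hg : Apts cs pr p g) {c c' : Cub V W} (h : OkF G cs FF pr c c')
    {v : V} (hv : v ∈ c.2.1) (hv' : v ∈ FF) : OkF G cs FF pr (fb cs c v) c' :=
  ⟨ok_fb hF hg h.1 hv, (mul_wf hv').2 h.2.1, h.2.2⟩

theorem okF_self {c : Cub V W} (h : OkF G cs FF pr c c) : c = b0 V W := ok_self h.1

theorem okF_b0 (hg : Apts cs pr p g) : OkF G cs FF pr (b0 V W) (b0 V W) :=
  ⟨ok_b0 hg, (wf cs FF).one_mem, (wf cs FF).one_mem⟩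

end Pool.Agent.H65.AB
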