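import Pool.Agent.H65.AB.Defs

/-!
# Project AB: products of powers
-/

set_option autoImplicit false
set_option linter.unusedSectionVars false

open Finset

namespace Pool.Agent.H65.AB

open Pool.Agent.H65.RA Pool.Agent.H65.BU

variable {V A B : Type} [Fintype V] [DecidableEq V] [Group A] [Group B]

theorem zp_zero (p : V × Bool → A) (a : V → Bool) : zp p a 0 = 1 := by
  simp [zp]

/-- the products depend only on the signs of the letters which occur -/
theorem zp_congr (p : V × Bool → A) {a b : V → Bool} {m : V → ℕ} (h : ∀ z, m z ≠ 0 → a z = b z) :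
    zp p a m = zp p b m := by
  unfold zp
  refine congrArg List.prod (List.map_congr_left fun z _ => ?_)
  by_cases hz : m z = 0
  · rw [hz, pow_zero, pow_zero]
  · rw [h z hz]

/-- homomorphisms -/
theorem zp_map (f : A →* B) (p : V × Bool → A) (a : V → Bool) (m : V → ℕ) :
    f (zp p a m) = zp (fun x => f (p x)) a m := by
  unfold zp
  rw [map_list_prod, List.map_map]
  refine congrArg List.prod (List.map_congr_left fun z _ => ?_)
  simp only [Function.comp_apply, map_pow]

/-- only the values of `p` at the letters which occur are needed -/
theorem zp_congr' {p p' : V × Bool → A} {a : V → Bool} {m : V → ℕ}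
    (h : ∀ z, m z ≠ 0 → p (z, a z) = p' (z, a z)) : zp p a m = zp p' a m := by
  unfold zp
  refine congrArg List.prod (List.map_congr_left fun z _ => ?_)
  by_cases hz : m z = 0
  · rw [hz, pow_zero, pow_zero]
  · rw [h z hz]

/-- an element which commutes with all letters which occur -/
theorem zp_comm {p : V × Bool → A} {a : V → Bool} {m : V → ℕ} {x : A}
    (h : ∀ z, m z ≠ 0 → x * p (z, a z) = p (z, a z) * x) : x * zp p a m = zp p a m * x := by
  unfold zp
  have key : ∀ l : List V, Commute x (l.map fun z => p (z, a z) ^ m z).prod := by
    intro l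
    induction l with
    | nil => simp
    | cons z l ih =>
      rw [List.map_cons, List.prod_cons]
      refine Commute.mul_right ?_ ih
      by_cases hz : m z = 0
      · rw [hz, pow_zero]
        exact Commute.one_right x
      · exact Commute.pow_right (h z hz) _
  exact key _

/-- one more factor -/
theorem zp_add {p : V × Bool → A} {a : V → Bool} {m : V → ℕ} {z : V}
    (h : ∀ y, m y ≠ 0 → y ≠ z → p (y, a y) * p (z, a z) = p (z, a z) * p (y, a y)) :
    zp p a (m + Pi.single z 1) = zp p a m * p (z, a z) := by
  unfold zp
  have hne : ∀ l : List V, z ∉ l →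
      (l.map fun y => p (y, a y) ^ (m + Pi.single z 1 : V → ℕ) y).prod =
        (l.map fun y => p (y, a y) ^ m y).prod := by
    intro l hl
    refine congrArg List.prod (List.map_congr_left fun y hy => ?_)
    have : y ≠ z := fun hyz => hl (hyz ▸ hy)
    rw [Pi.add_apply, Pi.single_eq_of_ne this, add_zero]
  have hcm : ∀ l : List V, z ∉ l →
      Commute (p (z, a z)) (l.map fun y => p (y, a y) ^ m y).prod := by
    intro l
    induction l with
    | nil => intro _; simp
    | cons y l ih =>
      intro hl
      rw [List.map_cons, List.prod_cons]
      refine Commute.mul_right ?_ (ih fun hz => hl (List.mem_cons_of_mem _ hz))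
      have hyz : y ≠ z := fun hyz => hl (hyz ▸ List.mem_cons_self)
      by_cases hm : m y = 0
      · rw [hm, pow_zero]
        exact Commute.one_right _
      · exact Commute.pow_right (h y hm hyz).symm _
  have key : ∀ l : List V, l.Nodup → z ∈ l →
      (l.map fun y => p (y, a y) ^ (m + Pi.single z 1 : V → ℕ) y).prod =
        (l.map fun y => p (y, a y) ^ m y).prod * p (z, a z) := by
    intro l
    induction l with
    | nil => intro _ hz; simp at hz
    | cons y l ih =>
      intro hnd hz
      rw [List.map_cons, List.prod_cons, List.map_cons, List.prod_cons]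
      rw [List.nodup_cons] at hnd
      by_cases hyz : y = z
      · subst hyz
        rw [hne l hnd.1, Pi.add_apply, Pi.single_eq_same, pow_succ, mul_assoc, mul_assoc,
          (hcm l hnd.1).eq]
      · have hzl : z ∈ l := by
          rcases List.mem_cons.1 hz with h1 | h1
          · exact absurd h1.symm hyz
          · exact h1
        rw [ih hnd.2 hzl, Pi.add_apply, Pi.single_eq_of_ne hyz, add_zero, mul_assoc]
  exact key _ (Finset.nodup_toList _) (Finset.mem_toList.2 (Finset.mem_univ z))

/-- powers of the letters -/
theorem zp_smul {p : V × Bool → A} {a : V → Bool} (N : ℕ) (m : V → ℕ) :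
    zp p a (N • m) = zp (fun x => p x ^ N) a m := by
  unfold zp
  refine congrArg List.prod (List.map_congr_left fun z _ => ?_)
  rw [Pi.smul_apply, smul_eq_mul, pow_mul]

/-- a function of the letters with values in an additive commutative group -/
theorem zp_sum {R : Type} [AddCommGroup R] (L : A → R) (hL : ∀ x y, L (x * y) = L x + L y)
    (p : V × Bool → A) (a : V → Bool) (m : V → ℕ) : L (zp p a m) = ∑ z, m z • L (p (z, a z)) := by
  have h1 : L 1 = 0 := by
    have := hL 1 1
    rw [mul_one] at this
    exact left_eq_add.1 this
  have hpow : ∀ (x : A) (n : ℕ), L (x ^ n) = n • L x := by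
    intro x n
    induction n with
    | zero => rw [pow_zero, zero_smul, h1]
    | succ n ih => rw [pow_succ, hL, ih, succ_nsmul]
  have key : ∀ l : List V, L (l.map fun z => p (z, a z) ^ m z).prod =
      (l.map fun z => m z • L (p (z, a z))).sum := by
    intro l
    induction l with
    | nil => simp [h1]
    | cons z l ih => rw [List.map_cons, List.prod_cons, List.map_cons, List.sum_cons, hL, ih, hpow]
  unfold zp
  rw [key, Finset.sum_map_toList]

/-- the products are in every subgroup which contains the letters which occur -/
theorem zp_mem {p : V × Bool → A} {a : V → Bool} {m : V → ℕ} {K : Subgroup A}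
    (h : ∀ z, m z ≠ 0 → p (z, a z) ∈ K) : zp p a m ∈ K := by
  unfold zp
  refine K.list_prod_mem fun x hx => ?_
  obtain ⟨z, _, rfl⟩ := List.mem_map.1 hx
  by_cases hz : m z = 0
  · rw [hz, pow_zero]
    exact K.one_mem
  · exact K.pow_mem (h z hz) _

end Pool.Agent.H65.AB
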