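import Pool.Agent.H65.AB.KapDefs
import Pool.Agent.H65.AB.Zp
import Pool.Agent.H65.AB.FacesZ
import Pool.Agent.H93.AA.Ex

/-!
# Project AB: the exponents of close positions

PROOF. Let `r` be the retraction (`exists_ret`). `r (g a w) = 1` for `w ∈ wf` (`wf_ind`), `r (th (xg X)) = xg X` for
`X ∉ lF` (`xg_mem_gp`, `disj`). So for `h⁻¹ h' = x ∈ E` the element `r x = r (zp a m)⁻¹ r (zp b m')`, where
`r (zp (pA) a m) = zp (xg X ^ ±1) a m` (`zp_map`, `zp_congr'`), is in the subgroup `Γ` of `exists_ex`, and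
`ex X (r x) = 2 (± m' X) - 2 (± m X)` (`zp_sum` in the group `Γ`). `N` = the maximum of the `|ex X (r x)|`.
-/

set_option autoImplicit false
set_option linter.unusedSectionVars false

open Finset

namespace Pool.Agent.H65.AB

open H42.NU Pool.Agent.H4.FC Pool.Agent.H78.RC Pool.Agent.H93.AA Pool.Agent.H65.RA
open Pool.Agent.H65.BU (RA Apts)

/-- signs -/
def sz (b : Bool) : ℤ := if b then 1 else -1

variable {S : Type} [Fintype S] [DecidableEq S] {M : CoxeterMatrix S} {F : Finset S}
  {Γ : S → Type} [∀ v, Group (Γ v)] {W : Type} [Group W] [Fintype (Irr M)]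
  {M' : CoxeterMatrix (Irr M)} {cs : CoxeterSystem M' W}
  {q : ∀ v, Bool → Γ v} {pr : W → Irr M → ZMod 2} {g : (Irr M → Bool) → W → AG M F Γ}

/-- the retraction is the identity on the letters outside `F` -/
private theorem ret_th (hM : Mix M F) {r : AG M F Γ →* BG M}
    (hr : ∀ s, s ∉ F → r (th M F Γ (bgen M s)) = bgen M s) {X : Irr M} (hX : X ∉ lF M F) :
    r (th M F Γ (xg M X)) = xg M X := by
  have h1 := xg_mem_gp M X
  have h2 := disj hM hX
  refine Subgroup.closure_induction (p := fun x _ => r (th M F Γ x) = x) ?_ ?_ ?_ ?_ h1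
  · rintro x ⟨s, hs, rfl⟩
    exact hr s fun h => (disjoint_left.1 h2) hs h
  · rw [map_one, map_one]
  · intro x y _ _ hx hy
    rw [map_mul, map_mul, hx, hy]
  · intro x _ hx
    rw [map_inv, map_inv, hx]

/-- the retraction kills the apartments -/
private theorem ret_g (hg : Apts cs pr (pA M F q) g) {r : AG M F Γ →* BG M}
    (hi : ∀ v (a : Γ v), r (io M F v a) = 1) (a : Irr M → Bool) {w : W}
    (hw : w ∈ wf cs (lF M F)) : r (g a w) = 1 := by
  refine wf_ind (C := fun w => r (g a w) = 1) ?_ ?_ hw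
  · rw [hg.one, map_one]
  · intro w X _ hX hw
    obtain ⟨v, hv, rfl⟩ := mem_lF.1 hX
    have h1 : r (pA M F q (sing M v, a (sing M v))) = 1 := by
      rw [pA_sing q hv, hi]
    rw [hg.mul]
    split_ifs
    · rw [map_mul, hw, h1, one_mul]
    · rw [map_mul, map_inv, hw, h1, one_mul, inv_one]

/-- **The exponents of close positions.** -/
theorem exps (hM : Mix M F) (hg : Apts cs pr (pA M F q) g) (E : Finset (AG M F Γ)) :
    ∃ N : ℤ, ∀ (w w' : W) (m m' : Irr M → ℕ) (a b : Irr M → Bool), w ∈ wf cs (lF M F) →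
      w' ∈ wf cs (lF M F) → Pos (nG M) (lF M F) m → Pos (nG M) (lF M F) m' →
      (g a w * zp (pA M F q) a m)⁻¹ * (g b w' * zp (pA M F q) b m') ∈ E →
      ∀ X : Irr M, |sz (b X) * m' X - sz (a X) * m X| ≤ N := by
  classical
  obtain ⟨r, hr, hi⟩ := exists_ret hM Γ
  obtain ⟨Γ₀, ex, hex, hexY⟩ := exists_ex M
  choose hY hval using hexY
  -- the elements of `Γ₀`
  let P : Irr M × Bool → Γ₀ := fun x => if x.2 then ⟨xg M x.1, hY x.1⟩ else ⟨xg M x.1, hY x.1⟩⁻¹
  have hone : ∀ X, ex X 1 = 0 := by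
    intro X
    have h1 := hex X 1 1
    rw [mul_one] at h1
    omega
  have hinv : ∀ X (x : Γ₀), ex X x⁻¹ = -ex X x := by
    intro X x
    have h1 := hex X x⁻¹ x
    rw [inv_mul_cancel, hone] at h1
    omega
  have hP : ∀ X Y b, ex X (P (Y, b)) = if X = Y then 2 * sz b else 0 := by
    intro X Y b
    cases b
    · show ex X (if false = true then _ else _) = _
      rw [if_neg Bool.false_ne_true, hinv, hval]
      split_ifs
      · rfl
      · rfl
    · show ex X (if true = true then _ else _) = _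
      rw [if_pos rfl, hval]
      rfl
  -- the retraction of the products
  have hz : ∀ (a : Irr M → Bool) (m : Irr M → ℕ), Pos (nG M) (lF M F) m →
      r (zp (pA M F q) a m) = (zp P a m : Γ₀) := by
    intro a m hm
    have h1 : ((zp P a m : Γ₀) : BG M) = zp (fun x => (P x : BG M)) a m := zp_map Γ₀.subtype P a m
    rw [zp_map, h1]
    refine zp_congr' fun X hX => ?_
    have hX' : X ∉ lF M F := hm.1 X hX
    show r (pA M F q (X, a X)) = (P (X, a X) : BG M)
    cases h2 : a X
    · rw [pA_false q hX', map_inv, ret_th hM hr hX']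
      show _ = (((if false = true then _ else _ : Γ₀)) : BG M)
      rw [if_neg Bool.false_ne_true]
      rfl
    · rw [pA_true q hX', ret_th hM hr hX']
      show _ = (((if true = true then _ else _ : Γ₀)) : BG M)
      rw [if_pos rfl]
  have hsum : ∀ X (a : Irr M → Bool) (m : Irr M → ℕ), ex X (zp P a m) = 2 * (sz (a X) * m X) := by
    intro X a m
    rw [zp_sum (ex X) (hex X) P a m, Finset.sum_eq_single X]
    · rw [hP, if_pos rfl, nsmul_eq_mul]
      ring
    · intro Y _ hYX
      rw [hP, if_neg fun h => hYX h.symm, smul_zero]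
    · intro h
      exact absurd (mem_univ X) h
  -- the bound
  let f : AG M F Γ → Irr M → ℤ := fun x X => if h : r x ∈ Γ₀ then |ex X ⟨r x, h⟩| else 0
  have hf : ∀ x X, 0 ≤ f x X := by
    intro x X
    show 0 ≤ (if h : r x ∈ Γ₀ then |ex X ⟨r x, h⟩| else 0)
    split_ifs
    · exact abs_nonneg _
    · exact le_rfl
  refine ⟨∑ x ∈ E, ∑ X, f x X, fun w w' m m' a b hw hw' hm hm' hE X => ?_⟩
  have h1 : r ((g a w * zp (pA M F q) a m)⁻¹ * (g b w' * zp (pA M F q) b m')) =
      (((zp P a m)⁻¹ * zp P b m' : Γ₀) : BG M) := by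
    rw [map_mul, map_inv, map_mul, map_mul, ret_g hg hi a hw, ret_g hg hi b hw', hz a m hm,
      hz b m' hm', one_mul, one_mul]
    rfl
  have h2 : r ((g a w * zp (pA M F q) a m)⁻¹ * (g b w' * zp (pA M F q) b m')) ∈ Γ₀ := by
    rw [h1]
    exact SetLike.coe_mem _
  have h3 : f ((g a w * zp (pA M F q) a m)⁻¹ * (g b w' * zp (pA M F q) b m')) X =
      |2 * (sz (b X) * m' X) - 2 * (sz (a X) * m X)| := by
    show (if h : r _ ∈ Γ₀ then |ex X ⟨r _, h⟩| else 0) = _
    rw [dif_pos h2]
    have h4 : (⟨r ((g a w * zp (pA M F q) a m)⁻¹ * (g b w' * zp (pA M F q) b m')), h2⟩ : Γ₀) =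
        (zp P a m)⁻¹ * zp P b m' := Subtype.ext h1
    rw [h4, hex, hinv, hsum, hsum]
    congr 1
    ring
  have h5 : f ((g a w * zp (pA M F q) a m)⁻¹ * (g b w' * zp (pA M F q) b m')) X ≤
      ∑ x ∈ E, ∑ X, f x X := by
    refine le_trans (single_le_sum (f := fun X => f _ X) (fun X _ => hf _ X) (mem_univ X)) ?_
    exact single_le_sum (f := fun x => ∑ X, f x X)
      (fun x _ => sum_nonneg fun X _ => hf x X) hE
  rw [h3, ← mul_sub, abs_mul, abs_two] at h5
  have h6 := abs_nonneg (sz (b X) * (m' X : ℤ) - sz (a X) * m X)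
  linarith

end Pool.Agent.H65.AB
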