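import Pool.Agent.H65.AB.AgDefs
import Pool.Agent.H93.AA.Lift
import Pool.Agent.H73.LK.Ind

/-!
# Project AB: the group

`M` is a Coxeter matrix, `F` a set of vertices, `Γ v` a group for every vertex `v`. `AG M F Γ` is the Artin group of
`M` in which the generator `v` is replaced by the group `Γ v` for `v ∈ F`.
-/

set_option autoImplicit false
set_option linter.unusedSectionVars false

open Finset

namespace Pool.Agent.H65.AB

open H42.NU Pool.Agent.H4.FC Pool.Agent.H93.AA

/-- The hypothesis on `F`: the labels of the elements of `F` are two or infinity (written `0`). -/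
structure Mix {S : Type} (M : CoxeterMatrix S) (F : Finset S) : Prop where
  two : ∀ v ∈ F, ∀ s, s ≠ v → M v s = 2 ∨ M v s = 0

variable {S : Type} {M : CoxeterMatrix S} {F : Finset S} {Γ : S → Type} [∀ v, Group (Γ v)]

private theorem rel_one {r : FPr M Γ} (h : r ∈ rels M F Γ) :
    (QuotientGroup.mk' (nrel M F Γ)) r = 1 :=
  (QuotientGroup.eq_one_iff _).2 (Subgroup.subset_normalClosure h)

theorem th_F {v : S} (hv : v ∈ F) : th M F Γ (bgen M v) = 1 :=
  rel_one (Or.inl ⟨v, hv, rfl⟩)

theorem io_nF {v : S} (hv : v ∉ F) (a : Γ v) : io M F v a = 1 :=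
  rel_one (Or.inr (Or.inl ⟨v, hv, a, rfl⟩))

theorem th_io {s v : S} (h : M s v = 2) (a : Γ v) :
    th M F Γ (bgen M s) * io M F v a = io M F v a * th M F Γ (bgen M s) := by
  have h2 : th M F Γ (bgen M s) * io M F v a * (th M F Γ (bgen M s))⁻¹ * (io M F v a)⁻¹ = 1 :=
    rel_one (F := F) (Or.inr (Or.inr (Or.inl ⟨s, v, h, a, rfl⟩)))
  rwa [mul_inv_eq_one, mul_inv_eq_iff_eq_mul] at h2

theorem io_io {u v : S} (h : M u v = 2) (a : Γ u) (b : Γ v) :
    io M F u a * io M F v b = io M F v b * io M F u a := by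
  have h2 : io M F u a * io M F v b * (io M F u a)⁻¹ * (io M F v b)⁻¹ = 1 :=
    rel_one (F := F) (Or.inr (Or.inr (Or.inr ⟨u, v, h, a, b, rfl⟩)))
  rwa [mul_inv_eq_one, mul_inv_eq_iff_eq_mul] at h2

/-- the homomorphism of the free product -/
private def liF {H : Type} [Group H] (f : BG M →* H) (k : ∀ v, Γ v →* H) : FPr M Γ →* H :=
  (Monoid.Coprod.lift f (Monoid.CoprodI.lift k) :
    Monoid.Coprod (BG M) (Monoid.CoprodI Γ) →* H)

private theorem liF_eB {H : Type} [Group H] (f : BG M →* H) (k : ∀ v, Γ v →* H) (x : BG M) :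
    liF f k (eB M Γ x) = f x :=
  Monoid.Coprod.lift_apply_inl _ _ _

private theorem liF_eG {H : Type} [Group H] (f : BG M →* H) (k : ∀ v, Γ v →* H) (v : S)
    (a : Γ v) : liF f k (eG M Γ v a) = k v a := by
  have h : liF f k (eG M Γ v a) = Monoid.CoprodI.lift k (Monoid.CoprodI.of a) :=
    Monoid.Coprod.lift_apply_inr _ _ _
  rw [h, Monoid.CoprodI.lift_of]

private theorem liF_comm {H : Type} [Group H] (f : BG M →* H) (k : ∀ v, Γ v →* H)
    {x y : FPr M Γ} (h : liF f k x * liF f k y = liF f k y * liF f k x) :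
    liF f k (cmt x y) = 1 := by
  unfold cmt
  rw [map_mul, map_mul, map_mul, map_inv, map_inv, h,
    mul_inv_cancel_right, mul_inv_cancel]

/-- **The universal property.** -/
def liftAG {H : Type} [Group H] (f : BG M →* H) (k : ∀ v, Γ v →* H)
    (h1 : ∀ v ∈ F, f (bgen M v) = 1) (h2 : ∀ v, v ∉ F → ∀ a, k v a = 1)
    (h3 : ∀ s v, s ∉ F → v ∈ F → M s v = 2 → ∀ a, f (bgen M s) * k v a = k v a * f (bgen M s))
    (h4 : ∀ u v, u ∈ F → v ∈ F → M u v = 2 → ∀ (a : Γ u) (b : Γ v), k u a * k v b = k v b * k u a) :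
    AG M F Γ →* H :=
  QuotientGroup.lift (nrel M F Γ) (liF f k) (by
    have hle : nrel M F Γ ≤ (liF (Γ := Γ) f k).ker := by
      refine Subgroup.normalClosure_le_normal ?_
      rintro r (⟨v, hv, rfl⟩ | ⟨v, hv, a, rfl⟩ | ⟨s, v, h, a, rfl⟩ | ⟨u, v, h, a, b, rfl⟩)
      · show liF f k _ = 1
        rw [liF_eB]
        exact h1 v hv
      · show liF f k _ = 1
        rw [liF_eG]
        exact h2 v hv a
      · refine liF_comm f k ?_
        rw [liF_eB, liF_eG]
        by_cases hs : s ∈ F
        · rw [h1 s hs, one_mul, mul_one]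
        · by_cases hv : v ∈ F
          · exact h3 s v hs hv h a
          · rw [h2 v hv, one_mul, mul_one]
      · refine liF_comm f k ?_
        rw [liF_eG, liF_eG]
        by_cases hu : u ∈ F
        · by_cases hv : v ∈ F
          · exact h4 u v hu hv h a b
          · rw [h2 v hv, one_mul, mul_one]
        · rw [h2 u hu, one_mul, mul_one]
    exact fun x hx => hle hx)

section

variable {H : Type} [Group H] (f : BG M →* H) (k : ∀ v, Γ v →* H)
    (h1 : ∀ v ∈ F, f (bgen M v) = 1) (h2 : ∀ v, v ∉ F → ∀ a, k v a = 1)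
    (h3 : ∀ s v, s ∉ F → v ∈ F → M s v = 2 → ∀ a, f (bgen M s) * k v a = k v a * f (bgen M s))
    (h4 : ∀ u v, u ∈ F → v ∈ F → M u v = 2 → ∀ (a : Γ u) (b : Γ v), k u a * k v b = k v b * k u a)

theorem liftAG_th (x : BG M) : liftAG f k h1 h2 h3 h4 (th M F Γ x) = f x := by
  exact liF_eB f k x

theorem liftAG_io (v : S) (a : Γ v) : liftAG f k h1 h2 h3 h4 (io M F v a) = k v a := by
  exact liF_eG f k v a

end

/-- induction in the Artin group by multiplication on the right -/
theorem bg_ind {C : BG M → Prop} (h1 : C 1) (hm : ∀ g s, C g → C (g * bgen M s))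
    (hi : ∀ g s, C g → C (g * (bgen M s)⁻¹)) (g : BG M) : C g := by
  have h2 : g ∈ Subgroup.closure (Set.range (bgen M)) := by
    have h3 := PresentedGroup.closure_range_of (brel M)
    have h4 : Set.range (bgen M) = Set.range (PresentedGroup.of : S → BG M) := rfl
    rw [h4, h3]
    exact Subgroup.mem_top g
  refine Subgroup.closure_induction_right (p := fun x _ => C x) h1 ?_ ?_ h2
  · rintro x _ y ⟨s, rfl⟩ hx
    exact hm x s hx
  · rintro x _ y ⟨s, rfl⟩ hx
    exact hi x s hx

private theorem fpr_ind {C : FPr M Γ → Prop} (h1 : C 1) (hB : ∀ x, C (eB M Γ x))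
    (hG : ∀ v a, C (eG M Γ v a)) (hm : ∀ x y, C x → C y → C (x * y)) (x : FPr M Γ) : C x := by
  refine Monoid.Coprod.induction_on (motive := C) (x : Monoid.Coprod (BG M) (Monoid.CoprodI Γ))
    hB (fun y => ?_) hm
  refine Monoid.CoprodI.induction_on (motive := fun y => C
    (Monoid.Coprod.inr y : Monoid.Coprod (BG M) (Monoid.CoprodI Γ))) y ?_ hG ?_
  · have h2 : (Monoid.Coprod.inr 1 : Monoid.Coprod (BG M) (Monoid.CoprodI Γ)) = 1 := map_one _
    exact h2 ▸ h1
  · intro a b ha hb
    have h2 : (Monoid.Coprod.inr (a * b) : Monoid.Coprod (BG M) (Monoid.CoprodI Γ)) =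
      Monoid.Coprod.inr a * Monoid.Coprod.inr b := map_mul _ _ _
    exact h2 ▸ hm _ _ ha hb

/-- induction by multiplication on the right -/
theorem AG.ind {C : AG M F Γ → Prop} (h1 : C 1)
    (hm : ∀ g s, s ∉ F → C g → C (g * th M F Γ (bgen M s)))
    (hi : ∀ g s, s ∉ F → C g → C (g * (th M F Γ (bgen M s))⁻¹))
    (ha : ∀ g v, v ∈ F → ∀ a : Γ v, C g → C (g * io M F v a)) (g : AG M F Γ) : C g := by
  let π : FPr M Γ →* AG M F Γ := QuotientGroup.mk' (nrel M F Γ)
  have h2 : ∀ x : FPr M Γ, ∀ g, C g → C (g * π x) := by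
    intro x
    refine fpr_ind (C := fun x => ∀ g, C g → C (g * π x)) ?_ ?_ ?_ ?_ x
    · intro g hg
      rw [map_one, mul_one]
      exact hg
    · intro y
      refine bg_ind (C := fun y => ∀ g, C g → C (g * π (eB M Γ y))) ?_ ?_ ?_ y
      · intro g hg
        rw [map_one, map_one, mul_one]
        exact hg
      · intro y s hy g hg
        rw [map_mul, map_mul, ← mul_assoc]
        by_cases hs : s ∈ F
        · have h3 : π (eB M Γ (bgen M s)) = 1 := th_F hs
          rw [h3, mul_one]
          exact hy g hg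
        · exact hm _ s hs (hy g hg)
      · intro y s hy g hg
        rw [map_mul, map_mul, ← mul_assoc, map_inv, map_inv]
        by_cases hs : s ∈ F
        · have h3 : π (eB M Γ (bgen M s)) = 1 := th_F hs
          rw [h3, inv_one, mul_one]
          exact hy g hg
        · exact hi _ s hs (hy g hg)
    · intro v a g hg
      by_cases hv : v ∈ F
      · exact ha g v hv a hg
      · have h3 : π (eG M Γ v a) = 1 := io_nF hv a
        rw [h3, mul_one]
        exact hg
    · intro x y hx hy g hg
      rw [map_mul, ← mul_assoc]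
      exact hy _ (hx _ hg)
  obtain ⟨x, hx⟩ : ∃ x, π x = g := QuotientGroup.mk'_surjective (nrel M F Γ) g
  have h3 := h2 x 1 h1
  rwa [one_mul, hx] at h3

theorem AG.hom_ext {H : Type} [Group H] {f g : AG M F Γ →* H}
    (h1 : ∀ s, s ∉ F → f (th M F Γ (bgen M s)) = g (th M F Γ (bgen M s)))
    (h2 : ∀ v ∈ F, ∀ a : Γ v, f (io M F v a) = g (io M F v a)) : f = g := by
  refine MonoidHom.ext fun x => ?_
  refine AG.ind (C := fun x => f x = g x) (by rw [map_one, map_one]) (fun x s hs hx => ?_)
    (fun x s hs hx => ?_) (fun x v hv a hx => ?_) x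
  · rw [map_mul, map_mul, hx, h1 s hs]
  · rw [map_mul, map_mul, map_inv, map_inv, hx, h1 s hs]
  · rw [map_mul, map_mul, hx, h2 v hv a]

/-! ### Homomorphisms of the Artin group -/

/-- the universal property of the Artin group -/
def liftBG {H : Type} [Group H] (f : S → H) (hf : Artin M f) : BG M →* H :=
  PresentedGroup.toGroup (f := f) (rels := brel M) (by
    rintro r ⟨s, s', rfl⟩
    have hpr : ∀ n, FreeGroup.lift f (pr FreeGroup.of s s' n) = pr f s s' n ∧
        FreeGroup.lift f (pr FreeGroup.of s' s n) = pr f s' s n := by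
      intro n
      induction n with
      | zero => exact ⟨map_one _, map_one _⟩
      | succ n ih =>
        constructor
        · show FreeGroup.lift f (pr FreeGroup.of s s' n * FreeGroup.of (lt s s' n)) = _
          rw [map_mul, ih.1, FreeGroup.lift_apply_of]
          rfl
        · show FreeGroup.lift f (pr FreeGroup.of s' s n * FreeGroup.of (lt s' s n)) = _
          rw [map_mul, ih.2, FreeGroup.lift_apply_of]
          rfl
    rw [map_mul, map_inv, (hpr _).1, (hpr _).2, mul_inv_eq_one]
    by_cases h : s = s'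
    · rw [h]
    · exact hf s s' h)

theorem liftBG_gen {H : Type} [Group H] (f : S → H) (hf : Artin M f) (s : S) :
    liftBG f hf (bgen M s) = f s :=
  PresentedGroup.toGroup.of _

theorem bg_hom_ext {H : Type} [Group H] {f g : BG M →* H} (h : ∀ s, f (bgen M s) = g (bgen M s)) :
    f = g := by
  refine MonoidHom.ext fun x => ?_
  refine bg_ind (C := fun x => f x = g x) (by rw [map_one, map_one]) (fun x s hx => ?_)
    (fun x s hx => ?_) x
  · rw [map_mul, map_mul, hx, h s]
  · rw [map_mul, map_mul, map_inv, map_inv, hx, h s]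

/-- a family of elements in which two elements commute, or are equal if the label is not two or infinity,
satisfies the braid relations -/
theorem artin_of {H : Type} [Group H] (f : S → H)
    (h1 : ∀ s t, s ≠ t → M s t = 2 → f s * f t = f t * f s)
    (h2 : ∀ s t, s ≠ t → M s t ≠ 0 → M s t ≠ 2 → f s = f t) : Artin M f := by
  intro s s' hne
  by_cases h0 : M s s' = 0
  · rw [h0]
    rfl
  · by_cases h3 : M s s' = 2
    · rw [h3]
      show 1 * f s * f s' = 1 * f s' * f s
      rw [one_mul, one_mul]
      exact h1 s s' hne h3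
    · have h4 := h2 s s' hne h0 h3
      have h5 : ∀ n, pr f s s' n = f s ^ n ∧ pr f s' s n = f s ^ n := by
        intro n
        induction n with
        | zero => exact ⟨(pow_zero _).symm, (pow_zero _).symm⟩
        | succ n ih =>
          constructor
          · show pr f s s' n * f (lt s s' n) = _
            rw [ih.1, pow_succ]
            unfold lt
            split_ifs
            · rfl
            · rw [← h4]
          · show pr f s' s n * f (lt s' s n) = _
            rw [ih.2, pow_succ]
            unfold lt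
            split_ifs
            · rw [← h4]
            · rfl
      rw [(h5 _).1, (h5 _).2]

/-! ### The retraction, the projections, the numbers of letters -/

section

variable [DecidableEq S]

private theorem pr_congr' {G : Type} [Monoid G] {f g : S → G} {s s' : S} (h : f s = g s)
    (h' : f s' = g s') (n : ℕ) : pr f s s' n = pr g s s' n := by
  have h1 : ∀ n, f (lt s s' n) = g (lt s s' n) := by
    intro n
    unfold lt
    split_ifs
    · exact h
    · exact h'
  induction n with
  | zero => rfl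
  | succ n ih =>
    show pr f s s' n * _ = pr g s s' n * _
    rw [ih, h1]

private theorem pr_two' {G : Type} [Monoid G] (f : S → G) {s s' : S}
    (hM : M s s' = 2 ∨ M s s' = 0) (h : f s * f s' = f s' * f s) :
    pr f s s' (M s s') = pr f s' s (M s s') := by
  rcases hM with h1 | h1
  · rw [h1]
    show 1 * f s * f s' = 1 * f s' * f s
    rw [one_mul, one_mul]
    exact h
  · rw [h1]
    rfl

/-- the endomorphism of the Artin group which kills the generators in `F` -/
theorem exists_killBG (hX : Mix M F) : ∃ ρ : BG M →* BG M, ∀ s, ρ (bgen M s) =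
    if s ∈ F then 1 else bgen M s := by
  have hA : Artin M (fun s => if s ∈ F then 1 else bgen M s) := by
    intro s s' hne
    by_cases hs : s ∈ F
    · refine pr_two' _ (hX.two s hs s' hne.symm) ?_
      beta_reduce
      rw [if_pos hs, one_mul, mul_one]
    · by_cases hs' : s' ∈ F
      · refine pr_two' _ ?_ ?_
        · rw [M.symmetric s s']
          exact hX.two s' hs' s hne
        · beta_reduce
          rw [if_pos hs', one_mul, mul_one]
      · rw [pr_congr' (g := bgen M) (s := s) (s' := s') (if_neg hs) (if_neg hs'),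
          pr_congr' (g := bgen M) (s := s') (s' := s) (if_neg hs') (if_neg hs)]
        exact artin_bgen s s' hne
  exact ⟨liftBG _ hA, fun s => liftBG_gen _ hA s⟩

/-- **The retraction.** -/
theorem exists_ret (hX : Mix M F) (Γ : S → Type) [∀ v, Group (Γ v)] :
    ∃ r : AG M F Γ →* BG M, (∀ s, s ∉ F → r (th M F Γ (bgen M s)) = bgen M s) ∧
      ∀ v (a : Γ v), r (io M F v a) = 1 := by
  obtain ⟨ρ, hρ⟩ := exists_killBG (M := M) hX
  refine ⟨liftAG ρ (fun _ => 1) (fun v hv => by rw [hρ, if_pos hv])
    (fun _ _ _ => rfl) (fun s v _ _ _ a => by rw [MonoidHom.one_apply, one_mul, mul_one])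
    (fun u v _ _ _ a b => by rw [MonoidHom.one_apply, MonoidHom.one_apply]), fun s hs => ?_,
    fun v a => ?_⟩
  · rw [liftAG_th, hρ, if_neg hs]
  · rw [liftAG_io, MonoidHom.one_apply]

open Classical in
/-- the projection to the vertex group `Γ v` -/
noncomputable def pj (M : CoxeterMatrix S) (F : Finset S) {Γ : S → Type} [∀ v, Group (Γ v)] (v : S) :
    AG M F Γ →* Γ v :=
  liftAG 1 (fun u => if h : u = v ∧ v ∈ F then h.1 ▸ MonoidHom.id (Γ u) else 1)
    (fun _ _ => rfl) (by
      intro u hu a
      have h2 : ¬ (u = v ∧ v ∈ F) := fun h => hu (h.1.symm ▸ h.2)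
      rw [dif_neg h2, MonoidHom.one_apply]) (by
      intro s u _ _ _ a
      rw [MonoidHom.one_apply, one_mul, mul_one]) (by
      intro u w _ _ h a b
      by_cases h1 : u = v ∧ v ∈ F
      · have h2 : ¬ (w = v ∧ v ∈ F) := fun h2 => by
          rw [h1.1, h2.1, M.diagonal] at h
          exact absurd h (by norm_num)
        rw [dif_neg h2, MonoidHom.one_apply, mul_one, one_mul]
      · rw [dif_neg h1, MonoidHom.one_apply, mul_one, one_mul])

theorem pj_same {v : S} (hv : v ∈ F) (a : Γ v) : pj M F v (io M F v a) = a := by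
  unfold pj
  rw [liftAG_io, dif_pos ⟨rfl, hv⟩]
  rfl

theorem pj_ne {u v : S} (h : u ≠ v) (a : Γ u) : pj M F v (io M F u a) = 1 := by
  unfold pj
  rw [liftAG_io, dif_neg (fun h' => h h'.1), MonoidHom.one_apply]

theorem pj_th (v : S) (x : BG M) : pj M F v (th M F Γ x) = 1 := by
  unfold pj
  rw [liftAG_th, MonoidHom.one_apply]

end

/-- `L` counts the generators in `C` -/
structure IsLam (M : CoxeterMatrix S) (F : Finset S) (Γ : S → Type) [∀ v, Group (Γ v)] (C : Finset S)
    (L : AG M F Γ → ℤ) : Prop where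
  mul : ∀ g h, L (g * h) = L g + L h
  io : ∀ v (a : Γ v), L (io M F v a) = 0
  mem : ∀ s ∈ C, L (th M F Γ (bgen M s)) = 1
  nmem : ∀ s, s ∉ C → L (th M F Γ (bgen M s)) = 0

theorem exists_lam [DecidableEq S] (hX : Mix M F) (Γ : S → Type) [∀ v, Group (Γ v)] {C : Finset S}
    (hC : ∀ s ∈ C, s ∉ F) (hC2 : ∀ s ∈ C, ∀ t, t ∉ F → M s t ≠ 0 → M s t ≠ 2 → t ∈ C) :
    ∃ L : AG M F Γ → ℤ, IsLam M F Γ C L := by
  have hA : Artin M (fun s => if s ∈ C then Multiplicative.ofAdd (1 : ℤ) else 1) := by
    intro s s' hne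
    by_cases h0 : M s s' = 2 ∨ M s s' = 0
    · exact pr_two' _ h0 (mul_comm _ _)
    · push Not at h0
      have hs : s ∉ F := fun hs => (hX.two s hs s' hne.symm).elim h0.1 h0.2
      have hs' : s' ∉ F := fun hs' => by
        have h1 := hX.two s' hs' s hne
        rw [M.symmetric s' s] at h1
        exact h1.elim h0.1 h0.2
      have hiff : s ∈ C ↔ s' ∈ C := by
        constructor
        · intro h
          exact hC2 s h s' hs' h0.2 h0.1
        · intro h
          refine hC2 s' h s hs ?_ ?_
          · rw [M.symmetric s' s]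
            exact h0.2
          · rw [M.symmetric s' s]
            exact h0.1
      have h1 : (if s ∈ C then Multiplicative.ofAdd (1 : ℤ) else 1) =
          if s' ∈ C then Multiplicative.ofAdd (1 : ℤ) else 1 := by
        by_cases h : s ∈ C
        · rw [if_pos h, if_pos (hiff.1 h)]
        · rw [if_neg h, if_neg (fun h' => h (hiff.2 h'))]
      rw [pr_congr' (g := fun _ => if s ∈ C then Multiplicative.ofAdd (1 : ℤ) else 1) (s := s)
          (s' := s') rfl h1.symm,
        pr_congr' (g := fun _ => if s ∈ C then Multiplicative.ofAdd (1 : ℤ) else 1) (s := s')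
          (s' := s) h1.symm rfl]
      have h2 : ∀ (c : Multiplicative ℤ) (n : ℕ), pr (fun _ : S => c) s s' n =
          pr (fun _ : S => c) s' s n := by
        intro c n
        induction n with
        | zero => rfl
        | succ n ih =>
          show pr _ s s' n * c = pr _ s' s n * c
          rw [ih]
      exact h2 _ _
  refine ⟨fun g => Multiplicative.toAdd (liftAG (F := F) (Γ := Γ) (liftBG _ hA) (fun _ => 1)
    (fun v hv => ?_) (fun _ _ _ => rfl)
    (fun s v _ _ _ a => by rw [MonoidHom.one_apply, one_mul, mul_one])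
    (fun u v _ _ _ a b => by rw [MonoidHom.one_apply, MonoidHom.one_apply]) g), ?_, ?_, ?_, ?_⟩
  · rw [liftBG_gen, if_neg (fun h => hC v h hv)]
  · intro g h
    rw [map_mul]
    rfl
  · intro v a
    rw [liftAG_io, MonoidHom.one_apply]
    rfl
  · intro s hs
    rw [liftAG_th, liftBG_gen, if_pos hs]
    rfl
  · intro s hs
    rw [liftAG_th, liftBG_gen, if_neg hs]
    rfl

theorem IsLam.zero : IsLam M F Γ ∅ (fun _ => 0) :=
  ⟨fun _ _ => (add_zero _).symm, fun _ _ => rfl, fun s hs => absurd hs (notMem_empty s),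
    fun _ _ => rfl⟩

theorem IsLam.one {C : Finset S} {L : AG M F Γ → ℤ} (h : IsLam M F Γ C L) : L 1 = 0 := by
  have h1 := h.mul 1 1
  rw [mul_one] at h1
  omega

theorem IsLam.inv {C : Finset S} {L : AG M F Γ → ℤ} (h : IsLam M F Γ C L) (g : AG M F Γ) :
    L g⁻¹ = -L g := by
  have h1 := h.mul g⁻¹ g
  rw [inv_mul_cancel, h.one] at h1
  omega

/-! ### Full subgroups -/

section

variable [DecidableEq S]

/-- the elements of `F` in `U` -/
def rF (F U : Finset S) : Finset {v // v ∈ U} := univ.filter fun v => v.1 ∈ F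

theorem mem_rF {U : Finset S} {v : {v // v ∈ U}} : v ∈ rF F U ↔ v.1 ∈ F := by
  unfold rF
  rw [mem_filter]
  exact ⟨fun h => h.2, fun h => ⟨mem_univ v, h⟩⟩

theorem mix_sub (hX : Mix M F) (U : Finset S) : Mix (Pool.Agent.H73.LK.sub M U) (rF F U) := by
  exact ⟨fun v hv s hs => hX.two v.1 (mem_rF.1 hv) s.1 fun h => hs (Subtype.ext h)⟩

/-- the full subgroup of `U` -/
theorem exists_sub (hX : Mix M F) (Γ : S → Type) [∀ v, Group (Γ v)] (U : Finset S)
    (hU : ∀ s ∈ U, ∀ t, t ∉ U → M s t = 0 ∨ M s t = 2) :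
    ∃ j : AG (Pool.Agent.H73.LK.sub M U) (rF F U) (fun v => Γ v.1) →* AG M F Γ,
      Function.Injective j ∧
      (∀ s : {v // v ∈ U}, j (th _ _ _ (bgen _ s)) = th M F Γ (bgen M s.1)) ∧
      ∀ (v : {v // v ∈ U}) (a : Γ v.1), j (io _ _ (Γ := fun v : {v // v ∈ U} => Γ v.1) v a) =
        io M F v.1 a := by
  classical
  set N := Pool.Agent.H73.LK.sub M U with hN
  -- the inclusion
  have hA : Artin N (fun s => th M F Γ (bgen M s.1)) := by
    intro s s' hne
    have h1 : s.1 ≠ s'.1 := fun h => hne (Subtype.ext h)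
    have h2 : ∀ n, pr (fun s : {v // v ∈ U} => th M F Γ (bgen M s.1)) s s' n =
        th M F Γ (pr (bgen M) s.1 s'.1 n) ∧
        pr (fun s : {v // v ∈ U} => th M F Γ (bgen M s.1)) s' s n =
        th M F Γ (pr (bgen M) s'.1 s.1 n) := by
      intro n
      induction n with
      | zero => exact ⟨(map_one _).symm, (map_one _).symm⟩
      | succ n ih =>
        constructor
        · show pr _ s s' n * _ = th M F Γ (pr (bgen M) s.1 s'.1 n * _)
          rw [ih.1, map_mul]
          congr 1
          unfold lt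
          split_ifs <;> rfl
        · show pr _ s' s n * _ = th M F Γ (pr (bgen M) s'.1 s.1 n * _)
          rw [ih.2, map_mul]
          congr 1
          unfold lt
          split_ifs <;> rfl
    rw [(h2 _).1, (h2 _).2]
    exact congrArg _ (artin_bgen s.1 s'.1 h1)
  let j : AG N (rF F U) (fun v => Γ v.1) →* AG M F Γ :=
    liftAG (liftBG _ hA) (fun v => io M F v.1)
      (fun v hv => by
        rw [liftBG_gen]
        exact th_F (mem_rF.1 hv))
      (fun v hv a => io_nF (fun h => hv (mem_rF.2 h)) a)
      (fun s v _ _ h a => by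
        rw [liftBG_gen]
        exact th_io (s := s.1) (v := v.1) h a)
      (fun u v _ _ h a b => io_io (u := u.1) (v := v.1) h a b)
  have hj1 : ∀ s : {v // v ∈ U}, j (th _ _ _ (bgen _ s)) = th M F Γ (bgen M s.1) := by
    intro s
    show liftAG _ _ _ _ _ _ _ = _
    rw [liftAG_th, liftBG_gen]
  have hj2 : ∀ (v : {v // v ∈ U}) (a : Γ v.1),
      j (io _ _ (Γ := fun v : {v // v ∈ U} => Γ v.1) v a) = io M F v.1 a := by
    intro v a
    show liftAG _ _ _ _ _ _ _ = _
    rw [liftAG_io]
  refine ⟨j, ?_, hj1, hj2⟩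
  -- the retraction
  let T := AG N (rF F U) (fun v : {v // v ∈ U} => Γ v.1)
  let f : S → T := fun s => if h : s ∈ U then th N (rF F U) (fun v => Γ v.1) (bgen N ⟨s, h⟩) else 1
  have hf1 : ∀ s (h : s ∈ U), f s = th N (rF F U) (fun v => Γ v.1) (bgen N ⟨s, h⟩) :=
    fun s h => dif_pos h
  have hf2 : ∀ s, s ∉ U → f s = 1 := fun s h => dif_neg h
  have hB : Artin M f := by
    intro s s' hne
    by_cases hs : s ∈ U
    · by_cases hs' : s' ∈ U
      · have h2 : ∀ n, pr f s s' n = th N (rF F U) (fun v => Γ v.1)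
            (pr (bgen N) ⟨s, hs⟩ ⟨s', hs'⟩ n) ∧ pr f s' s n = th N (rF F U) (fun v => Γ v.1)
            (pr (bgen N) ⟨s', hs'⟩ ⟨s, hs⟩ n) := by
          intro n
          induction n with
          | zero => exact ⟨(map_one _).symm, (map_one _).symm⟩
          | succ n ih =>
            constructor
            · show pr f s s' n * _ = th N (rF F U) (fun v => Γ v.1) (pr (bgen N) _ _ n * _)
              rw [ih.1, map_mul]
              congr 1
              unfold lt
              split_ifs
              · exact hf1 s hs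
              · exact hf1 s' hs'
            · show pr f s' s n * _ = th N (rF F U) (fun v => Γ v.1) (pr (bgen N) _ _ n * _)
              rw [ih.2, map_mul]
              congr 1
              unfold lt
              split_ifs
              · exact hf1 s' hs'
              · exact hf1 s hs
        rw [(h2 _).1, (h2 _).2]
        exact congrArg _ (artin_bgen (M := N) ⟨s, hs⟩ ⟨s', hs'⟩ fun h => hne (congrArg Subtype.val h))
      · exact pr_two' f (hU s hs s' hs').symm (by rw [hf2 s' hs', mul_one, one_mul])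
    · by_cases hs' : s' ∈ U
      · refine pr_two' f ?_ (by rw [hf2 s hs, mul_one, one_mul])
        rw [M.symmetric s s']
        exact (hU s' hs' s hs).symm
      · rw [pr_congr' (g := fun _ => 1) (hf2 s hs) (hf2 s' hs'),
          pr_congr' (g := fun _ => 1) (s := s') (s' := s) (hf2 s' hs') (hf2 s hs)]
        have h2 : ∀ n : ℕ, pr (fun _ : S => (1 : T)) s s' n = pr (fun _ : S => (1 : T)) s' s n := by
          intro n
          induction n with
          | zero => rfl
          | succ n ih =>
            show pr _ s s' n * 1 = pr _ s' s n * 1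
            rw [ih]
        exact h2 _
  let k : ∀ v, Γ v →* T := fun v => if h : v ∈ U then
    io N (rF F U) (Γ := fun v : {v // v ∈ U} => Γ v.1) ⟨v, h⟩ else 1
  have hk1 : ∀ v (h : v ∈ U) (a : Γ v), k v a =
      io N (rF F U) (Γ := fun v : {v // v ∈ U} => Γ v.1) ⟨v, h⟩ a := by
    intro v h a
    show (dite _ _ _ : Γ v →* T) a = _
    rw [dif_pos h]
  have hk2 : ∀ v, v ∉ U → ∀ a : Γ v, k v a = 1 := by
    intro v h a
    show (dite _ _ _ : Γ v →* T) a = _
    rw [dif_neg h, MonoidHom.one_apply]
  let r : AG M F Γ →* T := liftAG (liftBG f hB) k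
    (fun v hv => by
      rw [liftBG_gen]
      by_cases h : v ∈ U
      · rw [hf1 v h]
        exact th_F (mem_rF.2 hv)
      · exact hf2 v h)
    (fun v hv a => by
      by_cases h : v ∈ U
      · rw [hk1 v h]
        exact io_nF (Γ := fun v : {v // v ∈ U} => Γ v.1) (v := ⟨v, h⟩)
          (fun h' => hv (mem_rF.1 h')) a
      · exact hk2 v h a)
    (fun s v _ _ h a => by
      rw [liftBG_gen]
      by_cases hs : s ∈ U
      · by_cases hv : v ∈ U
        · rw [hf1 s hs, hk1 v hv]
          exact th_io (M := N) (Γ := fun v : {v // v ∈ U} => Γ v.1) (s := ⟨s, hs⟩)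
            (v := ⟨v, hv⟩) h a
        · rw [hk2 v hv, mul_one, one_mul]
      · rw [hf2 s hs, mul_one, one_mul])
    (fun u v _ _ h a b => by
      by_cases hu : u ∈ U
      · by_cases hv : v ∈ U
        · rw [hk1 u hu, hk1 v hv]
          exact io_io (M := N) (Γ := fun v : {v // v ∈ U} => Γ v.1) (u := ⟨u, hu⟩)
            (v := ⟨v, hv⟩) h a b
        · rw [hk2 v hv, mul_one, one_mul]
      · rw [hk2 u hu, mul_one, one_mul])
  have hr : r.comp j = MonoidHom.id _ := by
    refine AG.hom_ext (fun s _ => ?_) (fun v _ a => ?_)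
    · refine (congrArg r (hj1 s)).trans ?_
      refine (liftAG_th _ _ _ _ _ _ _).trans ?_
      rw [liftBG_gen, hf1 s.1 s.2]
      rfl
    · refine (congrArg r (hj2 v a)).trans ?_
      refine (liftAG_io _ _ _ _ _ _ _ _).trans ?_
      rw [hk1 v.1 v.2]
      rfl
  intro x y hxy
  have h1 := congrArg r hxy
  have h2 : ∀ x, r (j x) = x := fun x => congrArg (fun f => f x) hr
  rwa [h2, h2] at h1

end

end Pool.Agent.H65.AB
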