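import Pool.Agent.H65.AB.FacesZ
import Pool.Agent.H65.AB.Zp
import Pool.Agent.H65.BU.HH

/-!
# Project AB: the intersection numbers summed over all powers

PROOF of `exists_hhZ` (see BU/HH for the signs `sg a`): `φ c c' := if OkF c c' then
∑ᶠ q : (V → ℕ) × (V → ℕ), if supp q.1 ⊆ s \ FF ∧ supp q.2 ⊆ t \ FF then
H (g (sg a) w * zp p (sg a) q.1) (sgn s (sg a)) (g (sg b) w' * zp p (sg b) q.2) (sgn t (sg b)) else 0`. The sums are
finite by `Inter.fin` and `hsep` (the signs satisfy `Opp`: the letters of `FH` have opposite signs as `a`, `b` are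
disjoint; a letter `z ∈ s` which does not commute with `w` is not in `FH w s`, so its sign is `true`).
Relation: sum `Inter.rel` over all `q`. Faces: `v ∈ FF`: as in BU (`fa_eq`, `fb_eq`; `p (v, b)` commutes with
`zp p (sg a) m` as `s` is a clique). `z ∉ FF`: the sum over `q` of `H (h, s - z) + H (h e_z, s - z)` is the sum over the `q`
with `q.1 z = 0` (telescope; `q ↦ q + single z 1` is a bijection to the `q` with `q.1 z ≠ 0`), i.e. the term of
`fa cs c z` (for `FH_a`, second case, the sign of `z` is forgotten: it does not occur any more, `apt_indep`, `zp_congr`).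
-/

set_option autoImplicit false
set_option linter.unusedSectionVars false

open Finset

namespace Pool.Agent.H65.AB

open Pool.Agent.H65.RA Pool.Agent.H65.RM Pool.Agent.H85.VK Pool.Agent.H65.BU

variable {V W A : Type} [Fintype V] [DecidableEq V] [Group W] [Group A] {M : CoxeterMatrix V}
  {G : SimpleGraph V} {cs : CoxeterSystem M W} {p : V × Bool → A} {pr : W → V → ZMod 2}
  {g : (V → Bool) → W → A} {FF : Finset V}

/-- the signs of a set of signed letters -/
private noncomputable def sg (a : Finset (V × Bool)) (v : V) : Bool := decide ((v, false) ∉ a)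

private theorem sg_sgn {X : Finset V} {α : V → Bool} {v : V} (hv : v ∈ X) :
    sg (sgn X α) v = α v := by
  unfold sg
  by_cases h : α v = false
  · rw [h, decide_eq_false_iff_not, not_not, mem_sgn]
    exact ⟨hv, h.symm⟩
  · rw [Bool.not_eq_false] at h
    rw [h, decide_eq_true_eq, mem_sgn]
    rintro ⟨-, h'⟩
    simp only at h'
    rw [h] at h'
    exact absurd h' (by simp)

private theorem valid_sg {c : Cub V W} (h : Valid G cs pr c) :
    c.2.2 = sgn (FH cs c.1 c.2.1) (sg c.2.2) := by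
  obtain ⟨-, -, α, hα⟩ := h
  conv_lhs => rw [hα]
  apply sgn_congr
  intro v hv
  rw [hα, sg_sgn hv]

private theorem fst_mem {c : Cub V W} (h : Valid G cs pr c) {q : V × Bool} (hq : q ∈ c.2.2) :
    q.1 ∈ FH cs c.1 c.2.1 := by
  rw [valid_sg h, mem_sgn] at hq
  exact hq.1

private theorem mem_of_FH {c : Cub V W} (h : Valid G cs pr c) {v : V}
    (hv : v ∈ FH cs c.1 c.2.1) : (v, sg c.2.2 v) ∈ c.2.2 := by
  have h1 := valid_sg h
  rw [h1, mem_sgn]
  refine ⟨hv, ?_⟩
  rw [← h1]

private theorem fa_sg {c : Cub V W} (h : Valid G cs pr c) {v : V} (hv : v ∈ c.2.1) {u : V}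
    (hu : u ≠ v) : sg (fa cs c v).2.2 u = sg c.2.2 u := by
  rcases FH_a (cs := cs) c.1 hv with h1 | ⟨h1, -, h2, h3⟩
  · have h4 : (fa cs c v).2.2 = c.2.2 := by
      show res (FH cs c.1 (c.2.1.erase v)) c.2.2 = c.2.2
      rw [h1]
      unfold res
      exact filter_true_of_mem fun q hq => fst_mem h hq
    rw [h4]
  · unfold sg
    congr 1
    rw [eq_iff_iff, not_iff_not]
    show (u, false) ∈ res (FH cs c.1 (c.2.1.erase v)) c.2.2 ↔ _
    rw [h1]
    unfold res
    rw [mem_filter]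
    constructor
    · exact fun h' => h'.1
    · exact fun h' => ⟨h', mem_erase.2 ⟨hu, fst_mem h h'⟩⟩

private theorem fa_eq (hF : Facts G cs) (hg : Apts cs pr p g) {c : Cub V W}
    (h : Valid G cs pr c) {v : V} (hv : v ∈ c.2.1) :
    g (sg (fa cs c v).2.2) (fa cs c v).1 = g (sg c.2.2) c.1 ∧
      sgn (fa cs c v).2.1 (sg (fa cs c v).2.2) = (sgn c.2.1 (sg c.2.2)).erase (v, sg c.2.2 v) := by
  rw [erase_sgn]
  refine ⟨?_, sgn_congr fun u hu => fa_sg h hv (mem_erase.1 hu).1⟩
  rcases FH_a (cs := cs) c.1 hv with h1 | ⟨h1, -, h2, h3⟩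
  · have h4 : (fa cs c v).2.2 = c.2.2 := by
      show res (FH cs c.1 (c.2.1.erase v)) c.2.2 = c.2.2
      rw [h1]
      unfold res
      exact filter_true_of_mem fun q hq => fst_mem h hq
    rw [h4]
    rfl
  · exact apt_indep hF hg (fun u hu => fa_sg h hv hu) h3 h2

private theorem fb_eq (hF : Facts G cs) (hg : Apts cs pr p g) {c : Cub V W}
    (h : Valid G cs pr c) {v : V} (hv : v ∈ c.2.1) :
    g (sg (fb cs c v).2.2) (fb cs c v).1 = g (sg c.2.2) c.1 * p (v, sg c.2.2 v) ∧
      sgn (fb cs c v).2.1 (sg (fb cs c v).2.2) = (sgn c.2.1 (sg c.2.2)).erase (v, sg c.2.2 v) := by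
  rw [erase_sgn, res_fb hF hg h hv]
  refine ⟨?_, rfl⟩
  show g (sg c.2.2) (c.1 * cs.simple v) = _
  rw [hg.mul, if_pos (h.2.1 v hv)]

/-! ### The telescope -/

private theorem telescope {X : Type} (v : V) (f : (V → ℕ) × X → ZMod 2)
    (hf : (Function.support f).Finite) :
    ∑ᶠ z, f z + ∑ᶠ z : (V → ℕ) × X, f (z.1 + Pi.single v 1, z.2) =
      ∑ᶠ z : (V → ℕ) × X, if z.1 v = 0 then f z else 0 := by
  classical
  let τ : (V → ℕ) × X → (V → ℕ) × X := fun z => (z.1 + Pi.single v 1, z.2)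
  have hτ : Function.Injective τ := by
    intro z z' h
    have h1 : z.1 + Pi.single v 1 = z'.1 + Pi.single v 1 := congrArg Prod.fst h
    have h2 : z.2 = z'.2 := congrArg (fun x => x.2) h
    exact Prod.ext (add_right_cancel h1) h2
  have hr : ∀ z, z ∈ Set.range τ ↔ z.1 v ≠ 0 := by
    intro z
    constructor
    · rintro ⟨z', rfl⟩
      show z'.1 v + (Pi.single v 1 : V → ℕ) v ≠ 0
      rw [Pi.single_eq_same]
      exact Nat.succ_ne_zero _
    · intro h
      refine ⟨(fun y => if y = v then z.1 v - 1 else z.1 y, z.2), Prod.ext (funext fun y => ?_) rfl⟩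
      show (if y = v then z.1 v - 1 else z.1 y) + (Pi.single v 1 : V → ℕ) y = z.1 y
      by_cases hy : y = v
      · subst hy
        rw [if_pos rfl, Pi.single_eq_same]
        omega
      · rw [if_neg hy, Pi.single_eq_of_ne hy, add_zero]
  have h1 : ∑ᶠ z : (V → ℕ) × X, f (z.1 + Pi.single v 1, z.2) =
      ∑ᶠ z : (V → ℕ) × X, if z.1 v ≠ 0 then f z else 0 := by
    have h2 := finsum_mem_range (f := f) hτ
    rw [show (∑ᶠ z : (V → ℕ) × X, f (z.1 + Pi.single v 1, z.2)) = ∑ᶠ z, f (τ z) from rfl, ← h2]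
    rw [finsum_mem_def]
    refine finsum_congr fun z => ?_
    by_cases hz : z.1 v ≠ 0
    · rw [if_pos hz, Set.indicator_of_mem ((hr z).2 hz)]
    · rw [if_neg hz, Set.indicator_of_notMem fun h => hz ((hr z).1 h)]
  have h2 : ∑ᶠ z, f z = (∑ᶠ z : (V → ℕ) × X, if z.1 v = 0 then f z else 0) +
      ∑ᶠ z : (V → ℕ) × X, if z.1 v ≠ 0 then f z else 0 := by
    rw [← finsum_add_distrib]
    · refine finsum_congr fun z => ?_
      by_cases hz : z.1 v = 0
      · rw [if_pos hz, if_neg (not_not.2 hz), add_zero]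
      · rw [if_neg hz, if_pos hz, zero_add]
    · refine hf.subset fun z hz => ?_
      rw [Function.mem_support] at hz ⊢
      intro h
      apply hz
      rw [h, ite_self]
    · refine hf.subset fun z hz => ?_
      rw [Function.mem_support] at hz ⊢
      intro h
      apply hz
      rw [h, ite_self]
  rw [h1, h2, add_assoc, CharTwo.add_self_eq_zero, add_zero]

/-! ### One slot -/

/-- the exponents of a cube -/
private def PP (FF s : Finset V) (m : V → ℕ) : Prop := ∀ y, m y ≠ 0 → y ∈ s \ FF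

private instance (FF s : Finset V) (m : V → ℕ) : Decidable (PP FF s m) := by
  unfold PP
  infer_instance

/-- the elements of a cube -/
private noncomputable def el (p : V × Bool → A) (g : (V → Bool) → W → A) (c : Cub V W) (m : V → ℕ) :
    A := g (sg c.2.2) c.1 * zp p (sg c.2.2) m

/-- the signed directions of a cube -/
private noncomputable def sd (c : Cub V W) : Finset (V × Bool) := sgn c.2.1 (sg c.2.2)

private noncomputable def s1 {X : Type} (p : V × Bool → A) (g : (V → Bool) → W → A) (FF : Finset V)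
    (K : A → Finset (V × Bool) → X → ZMod 2) (c : Cub V W) : ZMod 2 :=
  ∑ᶠ z : (V → ℕ) × X, if PP FF c.2.1 z.1 then K (el p g c z.1) (sd c) z.2 else 0

private theorem el_fa (hF : Facts G cs) (hg : Apts cs pr p g) {c : Cub V W}
    (h : Valid G cs pr c) {v : V} (hv : v ∈ c.2.1) {m : V → ℕ} (hm : m v = 0) :
    el p g (fa cs c v) m = el p g c m := by
  unfold el
  rw [(fa_eq hF hg h hv).1]
  congr 1
  refine zp_congr p fun z hz => fa_sg h hv ?_
  rintro rfl
  exact hz hm

private theorem sd_fa (hF : Facts G cs) (hg : Apts cs pr p g) {c : Cub V W}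
    (h : Valid G cs pr c) {v : V} (hv : v ∈ c.2.1) :
    sd (fa cs c v) = (sd c).erase (v, sg c.2.2 v) := (fa_eq hF hg h hv).2

private theorem el_add (hp : ∀ x y, (oct G).Adj x y → p x * p y = p y * p x) {c : Cub V W}
    (h : Valid G cs pr c) {v : V} (hv : v ∈ c.2.1) {m : V → ℕ} (hm : PP FF c.2.1 m) :
    el p g c (m + Pi.single v 1) = el p g c m * p (v, sg c.2.2 v) := by
  unfold el
  rw [zp_add, mul_assoc]
  intro y hy hyv
  apply hp
  exact h.1 (mem_sdiff.1 (hm y hy)).1 hv hyv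

private theorem el_fb (hF : Facts G cs) (hg : Apts cs pr p g)
    (hp : ∀ x y, (oct G).Adj x y → p x * p y = p y * p x) {c : Cub V W}
    (h : Valid G cs pr c) {v : V} (hv : v ∈ c.2.1) (hvF : v ∈ FF) {m : V → ℕ}
    (hm : PP FF c.2.1 m) : el p g (fb cs c v) m = el p g c m * p (v, sg c.2.2 v) := by
  unfold el
  rw [(fb_eq hF hg h hv).1, res_fb hF hg h hv, mul_assoc, mul_assoc]
  congr 1
  apply zp_comm
  intro z hz
  apply hp
  have h1 := mem_sdiff.1 (hm z hz)
  refine h.1 hv h1.1 fun h2 => h1.2 ?_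
  have h3 : v = z := h2
  rw [← h3]
  exact hvF

private theorem s1_face (hF : Facts G cs) (hg : Apts cs pr p g)
    (hp : ∀ x y, (oct G).Adj x y → p x * p y = p y * p x) {X : Type}
    (K : A → Finset (V × Bool) → X → ZMod 2) {c : Cub V W} (h : Valid G cs pr c) {v : V}
    (hv : v ∈ c.2.1) (hfin : (Function.support fun z : (V → ℕ) × X => if PP FF c.2.1 z.1 then
      K (el p g c z.1) ((sd c).erase (v, sg c.2.2 v)) z.2 else 0).Finite) :
    (∑ᶠ z : (V → ℕ) × X, if PP FF c.2.1 z.1 then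
      K (el p g c z.1) ((sd c).erase (v, sg c.2.2 v)) z.2 else 0) +
      (∑ᶠ z : (V → ℕ) × X, if PP FF c.2.1 z.1 then
      K (el p g c z.1 * p (v, sg c.2.2 v)) ((sd c).erase (v, sg c.2.2 v)) z.2 else 0) =
      s1 p g FF K (fa cs c v) + if v ∈ FF then s1 p g FF K (fb cs c v) else 0 := by
  by_cases hvF : v ∈ FF
  · rw [if_pos hvF]
    have hPP : ∀ m, PP FF (c.2.1.erase v) m ↔ PP FF c.2.1 m := by
      intro m
      refine forall_congr' fun y => imp_congr_right fun _ => ?_
      rw [mem_sdiff, mem_sdiff, mem_erase]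
      constructor
      · exact fun h1 => ⟨h1.1.2, h1.2⟩
      · exact fun h1 => ⟨⟨fun h2 => h1.2 (h2 ▸ hvF), h1.1⟩, h1.2⟩
    have h0 : ∀ m, PP FF c.2.1 m → m v = 0 := by
      intro m hm
      by_contra h1
      exact (mem_sdiff.1 (hm v h1)).2 hvF
    congr 1
    · unfold s1
      refine finsum_congr fun z => ?_
      by_cases hz : PP FF c.2.1 z.1
      · rw [if_pos hz, if_pos (show PP FF (fa cs c v).2.1 z.1 from (hPP _).2 hz),
          el_fa hF hg h hv (h0 _ hz), sd_fa hF hg h hv]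
      · rw [if_neg hz, if_neg (show ¬ PP FF (fa cs c v).2.1 z.1 from fun h1 => hz ((hPP _).1 h1))]
    · unfold s1
      refine finsum_congr fun z => ?_
      by_cases hz : PP FF c.2.1 z.1
      · rw [if_pos hz, if_pos (show PP FF (fb cs c v).2.1 z.1 from (hPP _).2 hz),
          el_fb hF hg hp h hv hvF hz]
        rw [show sd (fb cs c v) = (sd c).erase (v, sg c.2.2 v) from (fb_eq hF hg h hv).2]
      · rw [if_neg hz, if_neg (show ¬ PP FF (fb cs c v).2.1 z.1 from fun h1 => hz ((hPP _).1 h1))]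
  · rw [if_neg hvF, add_zero]
    have hvs : v ∈ c.2.1 \ FF := mem_sdiff.2 ⟨hv, hvF⟩
    have h1 := telescope v _ hfin
    have hPP : ∀ m : V → ℕ, PP FF c.2.1 (m + Pi.single v 1) ↔ PP FF c.2.1 m := by
      intro m
      refine forall_congr' fun y => ?_
      by_cases hy : y = v
      · subst hy
        exact ⟨fun _ _ => hvs, fun _ _ => hvs⟩
      · rw [Pi.add_apply, Pi.single_eq_of_ne hy, add_zero]
    have h2 : (∑ᶠ z : (V → ℕ) × X, if PP FF c.2.1 z.1 then
        K (el p g c z.1 * p (v, sg c.2.2 v)) ((sd c).erase (v, sg c.2.2 v)) z.2 else 0) =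
        ∑ᶠ z : (V → ℕ) × X, if PP FF c.2.1 (z.1 + Pi.single v 1) then
          K (el p g c (z.1 + Pi.single v 1)) ((sd c).erase (v, sg c.2.2 v)) z.2 else 0 := by
      refine finsum_congr fun z => ?_
      by_cases hz : PP FF c.2.1 z.1
      · rw [if_pos hz, if_pos ((hPP _).2 hz), el_add hp h hv hz]
      · rw [if_neg hz, if_neg fun h3 => hz ((hPP _).1 h3)]
    rw [h2]
    refine h1.trans ?_
    unfold s1
    refine finsum_congr fun z => ?_
    have hPP' : PP FF (fa cs c v).2.1 z.1 ↔ PP FF c.2.1 z.1 ∧ z.1 v = 0 := by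
      show PP FF (c.2.1.erase v) z.1 ↔ _
      constructor
      · intro h3
        refine ⟨fun y hy => ?_, ?_⟩
        · have h4 := mem_sdiff.1 (h3 y hy)
          exact mem_sdiff.2 ⟨(mem_erase.1 h4.1).2, h4.2⟩
        · by_contra h4
          exact (mem_erase.1 (mem_sdiff.1 (h3 v h4)).1).1 rfl
      · rintro ⟨h3, h4⟩ y hy
        have h5 := mem_sdiff.1 (h3 y hy)
        refine mem_sdiff.2 ⟨mem_erase.2 ⟨?_, h5.1⟩, h5.2⟩
        rintro rfl
        exact hy h4
    by_cases h3 : z.1 v = 0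
    · rw [if_pos h3]
      by_cases h4 : PP FF c.2.1 z.1
      · rw [if_pos h4, if_pos (hPP'.2 ⟨h4, h3⟩), el_fa hF hg h hv h3, sd_fa hF hg h hv]
      · rw [if_neg h4, if_neg fun h5 => h4 (hPP'.1 h5).1]
    · rw [if_neg h3, if_neg fun h5 => h3 (hPP'.1 h5).2]

/-! ### Two slots -/

/-- the second slot fixed -/
private noncomputable def KR (p : V × Bool → A) (g : (V → Bool) → W → A) (FF : Finset V)
    (H : A → Finset (V × Bool) → A → Finset (V × Bool) → ZMod 2) (c' : Cub V W) (h : A)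
    (S : Finset (V × Bool)) (m : V → ℕ) : ZMod 2 :=
  if PP FF c'.2.1 m then H h S (el p g c' m) (sd c') else 0

open Classical in
/-- the intersection numbers on cubes -/
private noncomputable def hz (G : SimpleGraph V) (cs : CoxeterSystem M W) (FF : Finset V)
    (pr : W → V → ZMod 2) (p : V × Bool → A) (g : (V → Bool) → W → A)
    (H : A → Finset (V × Bool) → A → Finset (V × Bool) → ZMod 2) (c c' : Cub V W) : ZMod 2 :=
  if OkF G cs FF pr c c' then s1 p g FF (KR p g FF H c') c else 0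

/-- the other order -/
private theorem s1_swap (H : A → Finset (V × Bool) → A → Finset (V × Bool) → ZMod 2)
    (c c' : Cub V W) :
    s1 p g FF (KR p g FF H c') c = s1 p g FF (KR p g FF (fun h S h' T => H h' T h S) c) c' := by
  unfold s1
  rw [← finsum_comp_equiv (Equiv.prodComm (V → ℕ) (V → ℕ))]
  refine finsum_congr fun z => ?_
  unfold KR
  show (if PP FF c.2.1 z.2 then (if PP FF c'.2.1 z.1 then _ else 0) else 0) =
    (if PP FF c'.2.1 z.1 then (if PP FF c.2.1 z.2 then _ else 0) else 0)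
  by_cases h1 : PP FF c.2.1 z.2
  · by_cases h2 : PP FF c'.2.1 z.1
    · rw [if_pos h1, if_pos h2, if_pos h2, if_pos h1]
      rfl
    · rw [if_pos h1, if_neg h2, if_neg h2]
  · rw [if_neg h1]
    by_cases h2 : PP FF c'.2.1 z.1
    · rw [if_pos h2, if_neg h1]
    · rw [if_neg h2]

/-- the positions of two cubes satisfy `Opp` -/
private theorem opp (hM : RA G M) {c c' : Cub V W} (h : OkF G cs FF pr c c') {m m' : V → ℕ}
    (hm : PP FF c.2.1 m) (hm' : PP FF c'.2.1 m') :
    Opp cs c.1 c'.1 m m' (sg c.2.2) (sg c'.2.2) := by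
  have hdis : ∀ z, z ∈ FH cs c.1 c.2.1 → z ∈ FH cs c'.1 c'.2.1 → sg c.2.2 z ≠ sg c'.2.2 z := by
    intro z hz hz' heq
    have h1 := mem_of_FH h.1.1 hz
    have h2 := mem_of_FH h.1.2.1 hz'
    rw [heq] at h1
    exact disjoint_left.1 h.1.2.2 h1 h2
  have hsign : ∀ {c : Cub V W} {m : V → ℕ}, Valid G cs pr c → c.1 ∈ wf cs FF → PP FF c.2.1 m →
      ∀ z, m z ≠ 0 → ¬ (cs.simple z * c.1 = c.1 * cs.simple z) → sg c.2.2 z = true := by
    intro c m hv hw hm z hz hc
    unfold sg
    rw [decide_eq_true_eq]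
    intro h1
    have h2 := fst_mem hv h1
    rw [mem_FH] at h2
    rcases h2 with h2 | h2
    · exact (mem_sdiff.1 (hm z hz)).2 (fst_wf hM hw h2)
    · exact hc h2.2
  refine ⟨fun v hv hv' => hdis v ?_ ?_, fun z hz hz' hc hc' => hdis z ?_ ?_,
    hsign h.1.1 h.2.1 hm, hsign h.1.2.1 h.2.2 hm'⟩
  · exact mem_FH.2 (Or.inl hv)
  · exact mem_FH.2 (Or.inl hv')
  · exact mem_FH.2 (Or.inr ⟨(mem_sdiff.1 (hm z hz)).1, hc⟩)
  · exact mem_FH.2 (Or.inr ⟨(mem_sdiff.1 (hm' z hz')).1, hc'⟩)

private theorem pos_of_PP {c : Cub V W} (h : Valid G cs pr c) {m : V → ℕ} (hm : PP FF c.2.1 m) :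
    Pos G FF m :=
  ⟨fun z hz => (mem_sdiff.1 (hm z hz)).2, fun y z hy hz hyz =>
    h.1 (mem_sdiff.1 (hm y hy)).1 (mem_sdiff.1 (hm z hz)).1 hyz⟩

private theorem fin_pos (hM : RA G M) (hsep : SepZ G cs FF p g) {c c' : Cub V W}
    (h : OkF G cs FF pr c c') (E : Finset A) :
    {z : (V → ℕ) × (V → ℕ) | PP FF c.2.1 z.1 ∧ PP FF c'.2.1 z.2 ∧
      (el p g c z.1)⁻¹ * el p g c' z.2 ∈ E}.Finite := by
  refine ((hsep E).preimage (f := fun z : (V → ℕ) × (V → ℕ) => ((c.1, z.1), (c'.1, z.2)))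
    ?_).subset ?_
  · intro z _ z' _ h1
    have h2 : z.1 = z'.1 := congrArg (fun x => x.1.2) h1
    have h3 : z.2 = z'.2 := congrArg (fun x => x.2.2) h1
    exact Prod.ext h2 h3
  · rintro z ⟨h1, h2, h3⟩
    exact ⟨h.2.1, h.2.2, pos_of_PP h.1.1 h1, pos_of_PP h.1.2.1 h2, sg c.2.2, sg c'.2.2,
      opp hM h h1 h2, h3⟩

/-- the terms -/
private noncomputable def fk (p : V × Bool → A) (g : (V → Bool) → W → A) (FF : Finset V)
    (H : A → Finset (V × Bool) → A → Finset (V × Bool) → ZMod 2) (c c' : Cub V W)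
    (S T : Finset (V × Bool)) (u u' : A) (z : (V → ℕ) × (V → ℕ)) : ZMod 2 :=
  if PP FF c.2.1 z.1 ∧ PP FF c'.2.1 z.2 then H (el p g c z.1 * u) S (el p g c' z.2 * u') T else 0

private theorem fk_fin (hM : RA G M) (hsep : SepZ G cs FF p g) {c c' : Cub V W}
    (h : OkF G cs FF pr c c') {H : A → Finset (V × Bool) → A → Finset (V × Bool) → ZMod 2}
    {E : Finset A} {S T : Finset (V × Bool)} (hE : ∀ x y : A, H x S y T ≠ 0 → x⁻¹ * y ∈ E)
    (u u' : A) : (Function.support (fk p g FF H c c' S T u u')).Finite := by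
  classical
  refine (fin_pos hM hsep h (E.image fun y => u * y * u'⁻¹)).subset fun z hz => ?_
  rw [Function.mem_support] at hz
  unfold fk at hz
  by_cases h1 : PP FF c.2.1 z.1 ∧ PP FF c'.2.1 z.2
  · rw [if_pos h1] at hz
    refine ⟨h1.1, h1.2, mem_image.2 ⟨_, hE _ _ hz, ?_⟩⟩
    group
  · rw [if_neg h1] at hz
    exact absurd rfl hz

private theorem ite_and' {x y : Prop} [Decidable x] [Decidable y] (k : ZMod 2) :
    (if x then (if y then k else 0) else 0) = if x ∧ y then k else 0 := by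
  by_cases h1 : x
  · by_cases h2 : y
    · rw [if_pos h1, if_pos h2, if_pos ⟨h1, h2⟩]
    · rw [if_pos h1, if_neg h2, if_neg fun h => h2 h.2]
  · rw [if_neg h1, if_neg fun h => h1 h.1]

/-- the faces of the first cube -/
private theorem face1 (hM : RA G M) (hF : Facts G cs) (hg : Apts cs pr p g)
    (hp : ∀ x y, (oct G).Adj x y → p x * p y = p y * p x) (hsep : SepZ G cs FF p g)
    {H : A → Finset (V × Bool) → A → Finset (V × Bool) → ZMod 2} {E : Finset A}
    (hE : ∀ (x : A) (S : Finset (V × Bool)) (y : A) (T : Finset (V × Bool)),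
      (oct G).IsClique (S : Set (V × Bool)) → (oct G).IsClique (T : Set (V × Bool)) →
        H x S y T ≠ 0 → x⁻¹ * y ∈ E) {c c' : Cub V W} (h : OkF G cs FF pr c c') {v : V}
    (hv : v ∈ c.2.1) :
    (∑ᶠ z, fk p g FF H c c' ((sd c).erase (v, sg c.2.2 v)) (sd c') 1 1 z) +
      (∑ᶠ z, fk p g FF H c c' ((sd c).erase (v, sg c.2.2 v)) (sd c') (p (v, sg c.2.2 v)) 1 z) =
      s1 p g FF (KR p g FF H c') (fa cs c v) +
        if v ∈ FF then s1 p g FF (KR p g FF H c') (fb cs c v) else 0 := by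
  have hcl : (oct G).IsClique ((sd c).erase (v, sg c.2.2 v) : Set (V × Bool)) := by
    intro x hx y hy hxy
    rw [mem_coe, mem_erase] at hx hy
    exact clique_sgn (sg c.2.2) h.1.1.1 hx.2 hy.2 hxy
  have hcl' : (oct G).IsClique (sd c' : Set (V × Bool)) := clique_sgn (sg c'.2.2) h.1.2.1.1
  have e1 : ∀ z : (V → ℕ) × (V → ℕ), (if PP FF c.2.1 z.1 then
      KR p g FF H c' (el p g c z.1) ((sd c).erase (v, sg c.2.2 v)) z.2 else 0) =
      fk p g FF H c c' ((sd c).erase (v, sg c.2.2 v)) (sd c') 1 1 z := by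
    intro z
    unfold KR fk
    rw [ite_and', mul_one, mul_one]
  have e2 : ∀ z : (V → ℕ) × (V → ℕ), (if PP FF c.2.1 z.1 then
      KR p g FF H c' (el p g c z.1 * p (v, sg c.2.2 v)) ((sd c).erase (v, sg c.2.2 v)) z.2
        else 0) =
      fk p g FF H c c' ((sd c).erase (v, sg c.2.2 v)) (sd c') (p (v, sg c.2.2 v)) 1 z := by
    intro z
    unfold KR fk
    rw [ite_and', mul_one]
  have h1 := s1_face (FF := FF) hF hg hp (KR p g FF H c') h.1.1 hv (by
    simp only [e1]
    exact fk_fin hM hsep h (fun x y => hE x _ y _ hcl hcl') 1 1)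
  rw [← h1]
  simp only [e1, e2]

/-- the intersection numbers of the cubes, summed over the powers -/
theorem exists_hhZ (hM : RA G M) (hF : Facts G cs) (hg : Apts cs pr p g)
    (hp : ∀ x y, (oct G).Adj x y → p x * p y = p y * p x) (hsep : SepZ G cs FF p g) {n : ℕ}
    {H : A → Finset (V × Bool) → A → Finset (V × Bool) → ZMod 2} (hH : Inter (oct G) p n H) :
    ∃ φ : Cub V W → Cub V W → ZMod 2,
      (∀ c c', OkF G cs FF pr c c' → dlF cs FF φ c c' = φ c c' + φ c' c) ∧
      φ (b0 V W) (b0 V W) = 1 ∧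
      (∀ c c', n < c.2.1.card + c'.2.1.card → φ c c' = 0) ∧ FinSupp φ := by
  classical
  obtain ⟨E, hE⟩ := hH.fin
  let H' : A → Finset (V × Bool) → A → Finset (V × Bool) → ZMod 2 := fun h S h' T => H h' T h S
  have hE' : ∀ (x : A) (S : Finset (V × Bool)) (y : A) (T : Finset (V × Bool)),
      (oct G).IsClique (S : Set (V × Bool)) → (oct G).IsClique (T : Set (V × Bool)) →
        H' x S y T ≠ 0 → x⁻¹ * y ∈ E.image fun y => y⁻¹ := by
    intro x S y T hS hT h
    refine mem_image.2 ⟨_, hE y T x S hT hS h, ?_⟩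
    group
  -- the terms in the other order
  have hsw : ∀ (c c' : Cub V W) (S T : Finset (V × Bool)) (u u' : A),
      ∑ᶠ z, fk p g FF H' c' c T S u' u z = ∑ᶠ z, fk p g FF H c c' S T u u' z := by
    intro c c' S T u u'
    rw [← finsum_comp_equiv (Equiv.prodComm (V → ℕ) (V → ℕ))]
    refine finsum_congr fun z => ?_
    unfold fk
    show (if PP FF c'.2.1 z.2 ∧ PP FF c.2.1 z.1 then _ else 0) = _
    by_cases h1 : PP FF c.2.1 z.1 ∧ PP FF c'.2.1 z.2
    · rw [if_pos h1, if_pos h1.symm]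
      rfl
    · rw [if_neg h1, if_neg fun h2 => h1 h2.symm]
  have hs1 : ∀ c c' : Cub V W, s1 p g FF (KR p g FF H c') c =
      ∑ᶠ z, fk p g FF H c c' (sd c) (sd c') 1 1 z := by
    intro c c'
    unfold s1
    refine finsum_congr fun z => ?_
    unfold KR fk
    rw [ite_and', mul_one, mul_one]
  refine ⟨hz G cs FF pr p g H, fun c c' h => ?_, ?_, fun c c' h => ?_, ?_⟩
  · have hh := okF_symm h
    have hcl : (oct G).IsClique (sd c : Set (V × Bool)) := clique_sgn (sg c.2.2) h.1.1.1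
    have hcl' : (oct G).IsClique (sd c' : Set (V × Bool)) := clique_sgn (sg c'.2.2) h.1.2.1.1
    have hce : ∀ x, (oct G).IsClique ((sd c).erase x : Set (V × Bool)) := by
      intro x y hy z hz hyz
      rw [mem_coe, mem_erase] at hy hz
      exact hcl hy.2 hz.2 hyz
    have hce' : ∀ x, (oct G).IsClique ((sd c').erase x : Set (V × Bool)) := by
      intro x y hy z hz hyz
      rw [mem_coe, mem_erase] at hy hz
      exact hcl' hy.2 hz.2 hyz
    have e0 : hz G cs FF pr p g H c c' = ∑ᶠ z, fk p g FF H c c' (sd c) (sd c') 1 1 z := by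
      rw [← hs1]
      exact if_pos h
    have e0' : hz G cs FF pr p g H c' c = ∑ᶠ z, fk p g FF H' c c' (sd c) (sd c') 1 1 z := by
      have h1 : hz G cs FF pr p g H c' c = s1 p g FF (KR p g FF H c) c' := if_pos hh
      rw [h1, hs1, ← hsw]
    have eA : ∀ v ∈ c.2.1, hz G cs FF pr p g H (fa cs c v) c' +
        (if v ∈ FF then hz G cs FF pr p g H (fb cs c v) c' else 0) =
        (∑ᶠ z, fk p g FF H c c' ((sd c).erase (v, sg c.2.2 v)) (sd c') 1 1 z) +
        ∑ᶠ z, fk p g FF H c c' ((sd c).erase (v, sg c.2.2 v)) (sd c') (p (v, sg c.2.2 v)) 1 z := by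
      intro v hv
      rw [face1 hM hF hg hp hsep hE h hv]
      congr 1
      · exact if_pos (okF_fa h hv)
      · split_ifs with hvF
        · exact if_pos (okF_fb hF hg h hv hvF)
        · rfl
    have eB : ∀ v ∈ c'.2.1, hz G cs FF pr p g H c (fa cs c' v) +
        (if v ∈ FF then hz G cs FF pr p g H c (fb cs c' v) else 0) =
        (∑ᶠ z, fk p g FF H c c' (sd c) ((sd c').erase (v, sg c'.2.2 v)) 1 1 z) +
        ∑ᶠ z, fk p g FF H c c' (sd c) ((sd c').erase (v, sg c'.2.2 v)) 1
          (p (v, sg c'.2.2 v)) z := by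
      intro v hv
      rw [← hsw, ← hsw, face1 hM hF hg hp hsep hE' hh hv]
      congr 1
      · rw [← s1_swap]
        exact if_pos (okF_symm (okF_fa hh hv))
      · split_ifs with hvF
        · rw [← s1_swap]
          exact if_pos (okF_symm (okF_fb hF hg hh hv hvF))
        · rfl
    have fin : ∀ (S T : Finset (V × Bool)) (u u' : A), (oct G).IsClique (S : Set (V × Bool)) →
        (oct G).IsClique (T : Set (V × Bool)) →
        (Function.support (fk p g FF H c c' S T u u')).Finite := fun S T u u' hS hT =>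
      fk_fin hM hsep h (fun x y => hE x _ y _ hS hT) u u'
    have fin' : (Function.support (fk p g FF H' c c' (sd c) (sd c') 1 1)).Finite :=
      fk_fin hM hsep h (fun x y => hE' x _ y _ hcl hcl') 1 1
    rw [e0, e0', ← finsum_add_distrib (fin _ _ _ _ hcl hcl') fin']
    unfold dlF
    rw [sum_congr rfl eA, sum_congr rfl eB]
    have sA : ∀ v ∈ c.2.1, (∑ᶠ z, fk p g FF H c c' ((sd c).erase (v, sg c.2.2 v)) (sd c') 1 1 z) +
        (∑ᶠ z, fk p g FF H c c' ((sd c).erase (v, sg c.2.2 v)) (sd c') (p (v, sg c.2.2 v)) 1 z) =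
        ∑ᶠ z, (fk p g FF H c c' ((sd c).erase (v, sg c.2.2 v)) (sd c') 1 1 z +
          fk p g FF H c c' ((sd c).erase (v, sg c.2.2 v)) (sd c') (p (v, sg c.2.2 v)) 1 z) :=
      fun v _ => (finsum_add_distrib (fin _ _ _ _ (hce _) hcl') (fin _ _ _ _ (hce _) hcl')).symm
    have sB : ∀ v ∈ c'.2.1, (∑ᶠ z, fk p g FF H c c' (sd c) ((sd c').erase (v, sg c'.2.2 v)) 1 1 z) +
        (∑ᶠ z, fk p g FF H c c' (sd c) ((sd c').erase (v, sg c'.2.2 v)) 1 (p (v, sg c'.2.2 v)) z) =
        ∑ᶠ z, (fk p g FF H c c' (sd c) ((sd c').erase (v, sg c'.2.2 v)) 1 1 z +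
          fk p g FF H c c' (sd c) ((sd c').erase (v, sg c'.2.2 v)) 1 (p (v, sg c'.2.2 v)) z) :=
      fun v _ => (finsum_add_distrib (fin _ _ _ _ hcl (hce' _)) (fin _ _ _ _ hcl (hce' _))).symm
    have fA : ∀ v ∈ c.2.1, (Function.support fun z =>
        (fk p g FF H c c' ((sd c).erase (v, sg c.2.2 v)) (sd c') 1 1 z +
          fk p g FF H c c' ((sd c).erase (v, sg c.2.2 v)) (sd c') (p (v, sg c.2.2 v)) 1 z)).Finite :=
      fun v _ => ((fin _ _ _ _ (hce _) hcl').union (fin _ _ _ _ (hce _) hcl')).subset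
        (Function.support_add _ _)
    have fB : ∀ v ∈ c'.2.1, (Function.support fun z =>
        (fk p g FF H c c' (sd c) ((sd c').erase (v, sg c'.2.2 v)) 1 1 z +
          fk p g FF H c c' (sd c) ((sd c').erase (v, sg c'.2.2 v)) 1
            (p (v, sg c'.2.2 v)) z)).Finite :=
      fun v _ => ((fin _ _ _ _ hcl (hce' _)).union (fin _ _ _ _ hcl (hce' _))).subset
        (Function.support_add _ _)
    rw [sum_congr rfl sA, sum_congr rfl sB, ← finsum_sum_comm _ _ fA, ← finsum_sum_comm _ _ fB,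
      ← finsum_add_distrib]
    · refine finsum_congr fun z => ?_
      by_cases h1 : PP FF c.2.1 z.1 ∧ PP FF c'.2.1 z.2
      · have hrel := hH.rel (el p g c z.1) (sd c) (el p g c' z.2) (sd c') hcl hcl'
        have t1 : ∀ (S T : Finset (V × Bool)) (u u' : A), fk p g FF H c c' S T u u' z =
            H (el p g c z.1 * u) S (el p g c' z.2 * u') T := fun S T u u' => if_pos h1
        have t2 : fk p g FF H' c c' (sd c) (sd c') 1 1 z =
            H (el p g c' z.2 * 1) (sd c') (el p g c z.1 * 1) (sd c) := if_pos h1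
        simp only [t1, t2, mul_one]
        rw [← hrel]
        unfold sd
        rw [sum_sgn, sum_sgn]
      · have t1 : ∀ (S T : Finset (V × Bool)) (u u' : A), fk p g FF H c c' S T u u' z = 0 :=
          fun S T u u' => if_neg h1
        have t2 : fk p g FF H' c c' (sd c) (sd c') 1 1 z = 0 := if_neg h1
        simp only [t1, t2, add_zero, sum_const_zero]
    · refine (Set.Finite.biUnion c.2.1.finite_toSet fA).subset ?_
      intro z hz
      rw [Function.mem_support] at hz
      obtain ⟨v, hv, hne⟩ := exists_ne_zero_of_sum_ne_zero hz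
      exact Set.mem_biUnion hv hne
    · refine (Set.Finite.biUnion c'.2.1.finite_toSet fB).subset ?_
      intro z hz
      rw [Function.mem_support] at hz
      obtain ⟨v, hv, hne⟩ := exists_ne_zero_of_sum_ne_zero hz
      exact Set.mem_biUnion hv hne
  · have h1 : hz G cs FF pr p g H (b0 V W) (b0 V W) =
        ∑ᶠ z, fk p g FF H (b0 V W) (b0 V W) (sd (b0 V W)) (sd (b0 V W)) 1 1 z := by
      rw [← hs1]
      exact if_pos (okF_b0 hg)
    have h0 : ∀ m : V → ℕ, PP FF (b0 V W).2.1 m → m = 0 := by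
      intro m hm
      funext y
      by_contra h2
      exact notMem_empty y (mem_sdiff.1 (hm y h2)).1
    rw [h1, finsum_eq_single _ (0, 0)]
    · have h2 : fk p g FF H (b0 V W) (b0 V W) (sd (b0 V W)) (sd (b0 V W)) 1 1 (0, 0) =
          H (el p g (b0 V W) 0 * 1) (sd (b0 V W)) (el p g (b0 V W) 0 * 1) (sd (b0 V W)) :=
        if_pos ⟨fun y hy => absurd rfl hy, fun y hy => absurd rfl hy⟩
      have h3 : el p g (b0 V W) 0 = 1 := by
        unfold el
        rw [zp_zero, mul_one]
        exact hg.one _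
      have h4 : sd (b0 V W) = (∅ : Finset (V × Bool)) := rfl
      rw [h2, h3, h4, mul_one]
      exact hH.one
    · intro z hz
      refine if_neg fun h2 => hz ?_
      exact Prod.ext (h0 _ h2.1) (h0 _ h2.2)
  · by_cases hok : OkF G cs FF pr c c'
    · have h1 : hz G cs FF pr p g H c c' = ∑ᶠ z, fk p g FF H c c' (sd c) (sd c') 1 1 z := by
        rw [← hs1]
        exact if_pos hok
      rw [h1]
      refine finsum_eq_zero_of_forall_eq_zero fun z => ?_
      unfold fk
      split_ifs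
      · refine hH.top _ _ _ _ (clique_sgn _ hok.1.1.1) (clique_sgn _ hok.1.2.1.1) ?_
        rw [sd, sd, card_sgn, card_sgn]
        exact h
      · rfl
    · exact if_neg hok
  · refine (((hsep E).image fun q => (q.1.1, q.2.1))).subset ?_
    rintro ⟨w, w'⟩ ⟨s, a, t, b, hne⟩
    have hok : OkF G cs FF pr (w, s, a) (w', t, b) := by
      by_contra hc
      exact hne (if_neg hc)
    have h1 : hz G cs FF pr p g H (w, s, a) (w', t, b) =
        ∑ᶠ z, fk p g FF H (w, s, a) (w', t, b) (sd (w, s, a)) (sd (w', t, b)) 1 1 z := by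
      rw [← hs1]
      exact if_pos hok
    rw [h1] at hne
    obtain ⟨z, hz⟩ : ∃ z, fk p g FF H (w, s, a) (w', t, b) (sd (w, s, a)) (sd (w', t, b)) 1 1 z ≠
        0 := by
      by_contra hc
      push Not at hc
      exact hne (finsum_eq_zero_of_forall_eq_zero hc)
    unfold fk at hz
    by_cases h2 : PP FF s z.1 ∧ PP FF t z.2
    · rw [if_pos h2, mul_one, mul_one] at hz
      refine ⟨((w, z.1), (w', z.2)), ⟨hok.2.1, hok.2.2, pos_of_PP hok.1.1 h2.1,
        pos_of_PP hok.1.2.1 h2.2, sg a, sg b, opp hM hok h2.1 h2.2, ?_⟩, rfl⟩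
      exact hE _ _ _ _ (clique_sgn _ hok.1.1.1) (clique_sgn _ hok.1.2.1.1) hz
    · rw [if_neg h2] at hz
      exact absurd rfl hz

/-- the alternating function -/
theorem AA_relF (hF : Facts G cs) (hg : Apts cs pr p g) {ν : V × Bool → ℕ}
    (hν : Function.Injective ν) (c c' : Cub V W) (h : OkF G cs FF pr c c') :
    dlF cs FF (AA ν) c c' = AA ν c c' + AA ν c' c := by
  rw [← AA_rel hF hg hν c c' h.1]
  have hb1 : ∀ v ∈ c.2.1, AA ν (fb cs c v) c' = 0 := fun v hv =>
    if_neg fun h' => fb_ne hg h.1.1 hv h'.1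
  have hb2 : ∀ v ∈ c'.2.1, AA ν c (fb cs c' v) = 0 := fun v hv =>
    if_neg fun h' => fb_ne hg h.1.2.1 hv h'.2
  unfold dlF dl
  congr 1
  · refine sum_congr rfl fun v hv => ?_
    rw [hb1 v hv, ite_self]
  · refine sum_congr rfl fun v hv => ?_
    rw [hb2 v hv, ite_self]

end Pool.Agent.H65.AB
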