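import Pool.Agent.H65.AB.Let
import Pool.Agent.H73.LK.Ind
import Pool.Agent.H93.AA.Sd

/-!
# Project AB: the letters of a full subset of the generators

PROOF. `Irr (sub M U)` is the set of the `X : Irr M` with `X.1 ⊆ U` (`X ↦ X.1.map (ind_emb U)`; spherical sets: `ind_sph`
(private in Ind), connected sets: by the definition), the graphs agree; `HZ` is invariant under isomorphisms of
graphs; `hl_of_hz`.
-/

set_option autoImplicit false
set_option linter.unusedSectionVars false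

open Finset

namespace Pool.Agent.H65.AB

open H42.NU Pool.Agent.H4.FC Pool.Agent.H78.RC Pool.Agent.H93.AA Pool.Agent.H65.RA
open Pool.Agent.H73.LK (sub ind_hom ind_emb)

/-! ### Isomorphisms of graphs -/

private theorem hzIso_sum {V V' : Type} [Fintype V] [DecidableEq V] [Fintype V'] [DecidableEq V']
    (e : V ≃ V') (f : Finset V' → ZMod 2) (s : Finset V) :
    ∑ v ∈ sᶜ, f ((insert v s).map e.toEmbedding) =
      ∑ v ∈ (s.map e.toEmbedding)ᶜ, f (insert v (s.map e.toEmbedding)) := by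
  refine Finset.sum_equiv e (fun v => ?_) (fun v _ => ?_)
  · rw [mem_compl, mem_compl, not_iff_not]
    exact (Finset.mem_map' e.toEmbedding).symm
  · rw [Finset.map_insert]
    rfl

private theorem hzIso_hz {V V' : Type} [Fintype V] [DecidableEq V] [Fintype V'] [DecidableEq V']
    {G : SimpleGraph V} {G' : SimpleGraph V'} (e : V ≃ V') (hG : ∀ a b, G'.Adj (e a) (e b) ↔ G.Adj a b)
    {j : ℕ} (h : HZ G j) : HZ G' j := by
  intro z hz hzb
  have hcl : ∀ s : Finset V, G'.IsClique (s.map e.toEmbedding : Set V') ↔ G.IsClique (s : Set V) := by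
    intro s
    constructor
    · intro hs a ha b hb hab
      refine (hG a b).1 (hs (mem_coe.2 (mem_map_of_mem _ (mem_coe.1 ha)))
        (mem_coe.2 (mem_map_of_mem _ (mem_coe.1 hb))) ?_)
      exact fun h1 => hab (e.injective h1)
    · intro hs a ha b hb hab
      obtain ⟨a', ha', rfl⟩ := mem_map.1 (mem_coe.1 ha)
      obtain ⟨b', hb', rfl⟩ := mem_map.1 (mem_coe.1 hb)
      exact (hG a' b').2 (hs (mem_coe.2 ha') (mem_coe.2 hb') fun h1 => hab (by rw [h1]))
  obtain ⟨y, hy, hyb⟩ := h (fun s => z (s.map e.toEmbedding))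
    (fun s hs => by
      have h1 := hz _ hs
      rw [hcl, card_map] at h1
      exact h1)
    (fun s => by
      rw [hzIso_sum e z s]
      exact hzb _)
  have hback : ∀ t : Finset V', (t.map e.symm.toEmbedding).map e.toEmbedding = t := by
    intro t
    ext v
    simp
  refine ⟨fun t => y (t.map e.symm.toEmbedding), fun t ht => ?_, fun t => ?_⟩
  · have h1 := hy _ ht
    rw [← hcl, hback, card_map] at h1
    exact h1
  · have h1 := hyb (t.map e.symm.toEmbedding)
    rw [hback] at h1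
    rw [← h1]
    exact hzIso_sum e.symm y t

/-! ### The letters of `sub M U` -/

variable {S : Type} [Fintype S] [DecidableEq S] {M : CoxeterMatrix S} [Fintype (Irr M)]

private theorem hzIso_par (M : CoxeterMatrix S) (Y : Finset S) (σ : Finset {v // v ∈ Y}) :
    (Pool.Agent.H4.FC.par (sub M Y) σ).map (ind_hom M Y) =
      Pool.Agent.H4.FC.par M (σ.map (ind_emb Y)) := by
  unfold Pool.Agent.H4.FC.par
  rw [MonoidHom.map_closure]
  congr 1
  ext w
  constructor
  · rintro ⟨u, ⟨v, hv, rfl⟩, rfl⟩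
    exact ⟨v.1, mem_map.2 ⟨v, hv, rfl⟩, Pool.Agent.H73.LK.ind_hom_simple M Y v⟩
  · rintro ⟨v, hv, rfl⟩
    obtain ⟨u, hu, rfl⟩ := mem_map.1 hv
    exact ⟨(sub M Y).simple u, ⟨u, hu, rfl⟩, Pool.Agent.H73.LK.ind_hom_simple M Y u⟩

private theorem hzIso_sph {M : CoxeterMatrix S} {Y : Finset S} {σ : Finset {v // v ∈ Y}} :
    Sph (sub M Y) σ ↔ Sph M (σ.map (ind_emb Y)) := by
  unfold Sph
  rw [← hzIso_par]
  exact ((Pool.Agent.H4.FC.par (sub M Y) σ).equivMapOfInjective _
    (Pool.Agent.H73.LK.ind_hom_injective M Y)).toEquiv.finite_iff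

private theorem hzIso_mem {Y : Finset S} {τ : Finset {v // v ∈ Y}} {v : {v // v ∈ Y}} :
    v.1 ∈ τ.map (ind_emb Y) ↔ v ∈ τ := Finset.mem_map' (ind_emb Y)

private theorem hzIso_adj {M : CoxeterMatrix S} {Y : Finset S} (u v : {v // v ∈ Y}) :
    (diag (sub M Y)).Adj u v ↔ (diag M).Adj u.1 v.1 := by
  constructor
  · intro h
    exact ⟨fun h1 => h.1 (Subtype.ext h1), h.2⟩
  · intro h
    exact ⟨fun h1 => h.1 (congrArg Subtype.val h1), h.2⟩

private theorem hzIso_con {M : CoxeterMatrix S} {Y : Finset S} {σ : Finset {v // v ∈ Y}} :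
    Con (diag (sub M Y)) σ ↔ Con (diag M) (σ.map (ind_emb Y)) := by
  constructor
  · rintro ⟨hne, h⟩
    refine ⟨hne.map, fun A hA hAne hsep => ?_⟩
    set A' : Finset {v // v ∈ Y} := σ.filter fun v => v.1 ∈ A with hA'
    have hm : A'.map (ind_emb Y) = A := by
      ext v
      rw [mem_map]
      constructor
      · rintro ⟨u, hu, rfl⟩
        rw [hA', mem_filter] at hu
        exact hu.2
      · intro hv
        obtain ⟨u, hu, rfl⟩ := mem_map.1 (hA hv)
        exact ⟨u, by rw [hA', mem_filter]; exact ⟨hu, hv⟩, rfl⟩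
    have hne' : A'.Nonempty := by
      rw [← hm] at hAne
      exact Finset.map_nonempty.1 hAne
    have h1 := h A' (filter_subset _ _) hne' (fun a ha b hb hab => by
      refine hsep a.1 ?_ b.1 ?_ ((hzIso_adj a b).1 hab)
      · rw [← hm]
        exact hzIso_mem.2 ha
      · rw [mem_sdiff] at hb ⊢
        refine ⟨hzIso_mem.2 hb.1, ?_⟩
        rw [← hm]
        exact fun h2 => hb.2 (hzIso_mem.1 h2))
    rw [← hm, h1]
  · rintro ⟨hne, h⟩
    refine ⟨Finset.map_nonempty.1 hne, fun A hA hAne hsep => ?_⟩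
    have h1 := h (A.map (ind_emb Y)) (Finset.map_subset_map.2 hA) hAne.map (fun a ha b hb hab => by
      obtain ⟨a', ha', rfl⟩ := mem_map.1 ha
      rw [mem_sdiff] at hb
      obtain ⟨b', hb', rfl⟩ := mem_map.1 hb.1
      refine hsep a' ha' b' (mem_sdiff.2 ⟨hb', fun h2 => hb.2 (mem_map_of_mem _ h2)⟩) ?_
      exact (hzIso_adj a' b').2 hab)
    exact Finset.map_injective _ h1

open Classical in
/-- the letters contained in `U` -/
noncomputable def lU (M : CoxeterMatrix S) [Fintype (Irr M)] (U : Finset S) : Finset (Irr M) :=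
  univ.filter fun X => X.1 ⊆ U

theorem mem_lU {U : Finset S} {X : Irr M} : X ∈ lU M U ↔ X.1 ⊆ U := by
  classical
  unfold lU
  rw [mem_filter]
  exact ⟨fun h => h.2, fun h => ⟨mem_univ X, h⟩⟩

private theorem hzIso_sub {U : Finset S} (τ : Finset {v // v ∈ U}) : τ.map (ind_emb U) ⊆ U := by
  intro v hv
  obtain ⟨u, _, rfl⟩ := mem_map.1 hv
  exact u.2

/-- the letter of `M` of a letter of `sub M U` -/
private def hzIso_f (M : CoxeterMatrix S) [Fintype (Irr M)] (U : Finset S) (X : Irr (sub M U)) :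
    {X // X ∈ lU M U} :=
  ⟨⟨X.1.map (ind_emb U), hzIso_sph.1 X.2.1, hzIso_con.1 X.2.2⟩, mem_lU.2 (hzIso_sub X.1)⟩

private theorem hzIso_bij (M : CoxeterMatrix S) [Fintype (Irr M)] (U : Finset S) :
    Function.Bijective (hzIso_f M U) := by
  constructor
  · intro X Y h
    have h1 : X.1.map (ind_emb U) = Y.1.map (ind_emb U) :=
      congrArg (fun Z : {X // X ∈ lU M U} => Z.1.1) h
    exact Subtype.ext (Finset.map_injective _ h1)
  · rintro ⟨Z, hZ⟩
    have hZU : Z.1 ⊆ U := mem_lU.1 hZ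
    have hm : (univ.filter fun w : {v // v ∈ U} => w.1 ∈ Z.1).map (ind_emb U) = Z.1 := by
      ext v
      rw [mem_map]
      constructor
      · rintro ⟨u, hu, rfl⟩
        exact (mem_filter.1 hu).2
      · intro hv
        exact ⟨⟨v, hZU hv⟩, mem_filter.2 ⟨mem_univ _, hv⟩, rfl⟩
    refine ⟨⟨univ.filter fun w : {v // v ∈ U} => w.1 ∈ Z.1, ?_, ?_⟩, ?_⟩
    · rw [hzIso_sph, hm]
      exact Z.2.1
    · rw [hzIso_con, hm]
      exact Z.2.2
    · exact Subtype.ext (Subtype.ext hm)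

private theorem hzIso_nG (M : CoxeterMatrix S) [Fintype (Irr M)] (U : Finset S) (X Y : Irr (sub M U)) :
    (nG M).Adj (hzIso_f M U X).1 (hzIso_f M U Y).1 ↔ (nG (sub M U)).Adj X Y := by
  have h1 : (hzIso_f M U X).1 ≠ (hzIso_f M U Y).1 ↔ X ≠ Y := by
    rw [not_iff_not]
    constructor
    · intro h
      exact (hzIso_bij M U).1 (Subtype.ext h)
    · rintro rfl
      rfl
  have h2 : ∀ X Y : Irr (sub M U), (hzIso_f M U X).1.1 ⊆ (hzIso_f M U Y).1.1 ↔ X.1 ⊆ Y.1 :=
    fun _ _ => Finset.map_subset_map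
  have h3 : Sep M (hzIso_f M U X).1.1 (hzIso_f M U Y).1.1 ↔ Sep (sub M U) X.1 Y.1 := by
    constructor
    · intro h j hj k hk
      exact h j.1 (hzIso_mem.2 hj) k.1 (hzIso_mem.2 hk)
    · intro h j hj k hk
      obtain ⟨j', hj', rfl⟩ := mem_map.1 hj
      obtain ⟨k', hk', rfl⟩ := mem_map.1 hk
      exact h j' hj' k' hk'
  constructor
  · rintro ⟨g1, g2⟩
    refine ⟨h1.1 g1, ?_⟩
    rcases g2 with g2 | g2 | g2
    · exact Or.inl ((h2 _ _).1 g2)
    · exact Or.inr (Or.inl ((h2 _ _).1 g2))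
    · exact Or.inr (Or.inr (h3.1 g2))
  · rintro ⟨g1, g2⟩
    refine ⟨h1.2 g1, ?_⟩
    rcases g2 with g2 | g2 | g2
    · exact Or.inl ((h2 _ _).2 g2)
    · exact Or.inr (Or.inl ((h2 _ _).2 g2))
    · exact Or.inr (Or.inr (h3.2 g2))

theorem hl_of_hz_lU (U : Finset S) {j : ℕ}
    (h : HZ ((nG M).comap (Subtype.val : {X // X ∈ lU M U} → Irr M)) j) : HL (sub M U) j := by
  classical
  set e : Irr (sub M U) ≃ {X // X ∈ lU M U} := Equiv.ofBijective _ (hzIso_bij M U) with he
  have : Fintype (Irr (sub M U)) := Fintype.ofEquiv _ e.symm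
  apply hl_of_hz
  refine hzIso_hz e.symm (fun a b => ?_) h
  have h1 := hzIso_nG M U (e.symm a) (e.symm b)
  have h2 : ∀ c, hzIso_f M U (e.symm c) = c := fun c => e.apply_symm_apply c
  rw [h2, h2] at h1
  exact h1.symm

end Pool.Agent.H65.AB
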