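import Pool.Agent.H65.AB.KapDefs
import Pool.Agent.H65.AB.FacesZ
import Pool.Agent.H65.BU.Kap

/-!
# Project AB: maps which detect a subgroup of the Artin group

`r : AG M F Γ → BG M` is the retraction, `K` a subgroup of `BG M`. The map `κ : AG M F Γ → D`: the elements of `Γ v` multiply
by `e v` if the value of `θ v` changes, the elements `th y` multiply by `τ` if the membership of the image under `r` in `K`
changes.

PROOF of `exists_kapC` (as `exists_kap` in KapX): `AG M F Γ` acts from the right on `D × (∀ v, Γ v) × BG M`: `Γ v` as in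
BU/Kap, `y : BG M` as `(x, c, b) ↦ (x * (if (b ∈ K ↔ b * ρ y ∈ K) then 1 else τ), c, b * ρ y)`, `ρ y = r (th y)` (a
homomorphism, so this is an action of `BG M`: the factors telescope as `τ * τ = 1`). The generators `s ∈ F` act trivially
(`ρ` kills them). `s ∉ F` and `Γ u`, `M s u = 2`: either `bgen s ∈ K` (no factor) or `e u` commutes with `τ` (`hK`).
`κ g` = the first component of `(1, 1, 1) · g`, the second component is `pj v g`, the third `r g`.
-/

set_option autoImplicit false
set_option linter.unusedSectionVars false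

open Finset

namespace Pool.Agent.H65.AB

open H42.NU Pool.Agent.H4.FC Pool.Agent.H78.RC Pool.Agent.H93.AA Pool.Agent.H65.RA
open Pool.Agent.H65.BU (RA Apts)

section

variable {S W B : Type} [DecidableEq S] [Group W] [Group B] {Γ : S → Type} [∀ v, Group (Γ v)]

/-- the factor of the step from `p` to `r` -/
private def kg_stp (e : S → W) (θ : ∀ v, Γ v → Bool) (v : S) (p r : Γ v) : W :=
  if θ v r = θ v p then 1 else e v

/-- the right action of the vertex groups -/
private def kg_ract (e : S → W) (θ : ∀ v, Γ v → Bool) (v : S) (h : Γ v)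
    (x : W × (∀ v, Γ v) × B) : W × (∀ v, Γ v) × B :=
  (x.1 * kg_stp e θ v (x.2.1 v) (x.2.1 v * h), Function.update x.2.1 v (x.2.1 v * h), x.2.2)

private theorem kg_stp_mul (e : S → W) (he : ∀ v, e v * e v = 1) (θ : ∀ v, Γ v → Bool) (v : S)
    (p q r : Γ v) : kg_stp e θ v p q * kg_stp e θ v q r = kg_stp e θ v p r := by
  unfold kg_stp
  by_cases h1 : θ v q = θ v p
  · rw [if_pos h1, one_mul, h1]
  · rw [if_neg h1]
    by_cases h2 : θ v r = θ v q
    · rw [if_pos h2, mul_one, h2, if_neg h1]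
    · have h3 : θ v r = θ v p := by
        revert h1 h2
        cases θ v r <;> cases θ v q <;> cases θ v p <;> simp
      rw [if_neg h2, if_pos h3, he]

private theorem kg_ract_one (e : S → W) (θ : ∀ v, Γ v → Bool) (v : S)
    (x : W × (∀ v, Γ v) × B) : kg_ract e θ v 1 x = x := by
  unfold kg_ract kg_stp
  rw [mul_one, if_pos rfl, mul_one, Function.update_eq_self]

private theorem kg_ract_mul (e : S → W) (he : ∀ v, e v * e v = 1) (θ : ∀ v, Γ v → Bool) (v : S)
    (a b : Γ v) (x : W × (∀ v, Γ v) × B) :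
    kg_ract e θ v (a * b) x = kg_ract e θ v b (kg_ract e θ v a x) := by
  unfold kg_ract
  refine Prod.ext ?_ (Prod.ext ?_ rfl)
  · show x.1 * kg_stp e θ v (x.2.1 v) (x.2.1 v * (a * b)) =
      x.1 * kg_stp e θ v (x.2.1 v) (x.2.1 v * a) *
        kg_stp e θ v (Function.update x.2.1 v (x.2.1 v * a) v)
          (Function.update x.2.1 v (x.2.1 v * a) v * b)
    rw [Function.update_self, mul_assoc x.1, kg_stp_mul e he, mul_assoc (x.2.1 v)]
  · show Function.update x.2.1 v (x.2.1 v * (a * b)) =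
      Function.update (Function.update x.2.1 v (x.2.1 v * a)) v
        (Function.update x.2.1 v (x.2.1 v * a) v * b)
    rw [Function.update_self, Function.update_idem, mul_assoc]

private theorem kg_ract_comm (e : S → W) (θ : ∀ v, Γ v → Bool) {u v : S} (huv : u ≠ v)
    (hc : e u * e v = e v * e u) (a : Γ u) (b : Γ v) (x : W × (∀ v, Γ v) × B) :
    kg_ract e θ u a (kg_ract e θ v b x) = kg_ract e θ v b (kg_ract e θ u a x) := by
  have h1 : ∀ p r p' r', kg_stp e θ u p r * kg_stp e θ v p' r' =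
      kg_stp e θ v p' r' * kg_stp e θ u p r := by
    intro p r p' r'
    unfold kg_stp
    by_cases h1 : θ u r = θ u p
    · rw [if_pos h1, one_mul, mul_one]
    · by_cases h2 : θ v r' = θ v p'
      · rw [if_pos h2, one_mul, mul_one]
      · rw [if_neg h1, if_neg h2, hc]
  unfold kg_ract
  refine Prod.ext ?_ (Prod.ext ?_ rfl)
  · show x.1 * kg_stp e θ v (x.2.1 v) (x.2.1 v * b) *
        kg_stp e θ u (Function.update x.2.1 v (x.2.1 v * b) u)
          (Function.update x.2.1 v (x.2.1 v * b) u * a) =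
      x.1 * kg_stp e θ u (x.2.1 u) (x.2.1 u * a) *
        kg_stp e θ v (Function.update x.2.1 u (x.2.1 u * a) v)
          (Function.update x.2.1 u (x.2.1 u * a) v * b)
    rw [Function.update_of_ne huv, Function.update_of_ne huv.symm, mul_assoc, mul_assoc, h1]
  · show Function.update (Function.update x.2.1 v (x.2.1 v * b)) u
        (Function.update x.2.1 v (x.2.1 v * b) u * a) =
      Function.update (Function.update x.2.1 u (x.2.1 u * a)) v
        (Function.update x.2.1 u (x.2.1 u * a) v * b)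
    rw [Function.update_of_ne huv, Function.update_of_ne huv.symm, Function.update_comm huv]

/-- the left action of a vertex group -/
private def kg_lact (B : Type) [Group B] (e : S → W) (he : ∀ v, e v * e v = 1)
    (θ : ∀ v, Γ v → Bool) (v : S) : Γ v →* Function.End (W × (∀ v, Γ v) × B) where
  toFun h := fun x => kg_ract e θ v h⁻¹ x
  map_one' := by
    funext x
    show kg_ract e θ v (1 : Γ v)⁻¹ x = x
    rw [inv_one, kg_ract_one]
  map_mul' a b := by
    funext x
    show kg_ract e θ v (a * b)⁻¹ x = kg_ract e θ v a⁻¹ (kg_ract e θ v b⁻¹ x)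
    rw [mul_inv_rev, kg_ract_mul e he]

open Classical in
/-- the factor of the step from `b` to `b'` -/
private noncomputable def kg_sz (K : Set B) (c : W) (b b' : B) : W :=
  if (b ∈ K ↔ b' ∈ K) then 1 else c

private theorem kg_sz_mul (K : Set B) (c : W) (hc : c * c = 1) (n m k : B) :
    kg_sz K c n m * kg_sz K c m k = kg_sz K c n k := by
  unfold kg_sz
  by_cases h1 : (n ∈ K ↔ m ∈ K)
  · rw [if_pos h1, one_mul]
    by_cases h2 : (m ∈ K ↔ k ∈ K)
    · rw [if_pos h2, if_pos (h1.trans h2)]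
    · rw [if_neg h2, if_neg]
      exact fun h3 => h2 (h1.symm.trans h3)
  · rw [if_neg h1]
    by_cases h2 : (m ∈ K ↔ k ∈ K)
    · rw [if_pos h2, if_neg, mul_one]
      exact fun h3 => h1 (h3.trans h2.symm)
    · rw [if_neg h2, if_pos, hc]
      tauto

/-- the right action of the group `B` -/
private noncomputable def kg_zact (K : Set B) (c : W) (y : B) (x : W × (∀ v, Γ v) × B) :
    W × (∀ v, Γ v) × B :=
  (x.1 * kg_sz K c x.2.2 (x.2.2 * y), x.2.1, x.2.2 * y)

private theorem kg_zact_one (K : Set B) (c : W) (x : W × (∀ v, Γ v) × B) :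
    kg_zact K c 1 x = x := by
  unfold kg_zact kg_sz
  rw [mul_one, if_pos Iff.rfl, mul_one]

private theorem kg_zact_mul (K : Set B) (c : W) (hc : c * c = 1) (k l : B)
    (x : W × (∀ v, Γ v) × B) : kg_zact K c (k * l) x = kg_zact K c l (kg_zact K c k x) := by
  unfold kg_zact
  refine Prod.ext ?_ (Prod.ext rfl ?_)
  · show x.1 * kg_sz K c x.2.2 (x.2.2 * (k * l)) =
      x.1 * kg_sz K c x.2.2 (x.2.2 * k) * kg_sz K c (x.2.2 * k) (x.2.2 * k * l)
    rw [mul_assoc x.1, kg_sz_mul K c hc, mul_assoc x.2.2]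
  · show x.2.2 * (k * l) = x.2.2 * k * l
    rw [mul_assoc]

private theorem kg_zact_comm (K : Set B) (c : W) (e : S → W) (θ : ∀ v, Γ v → Bool) (v : S) (k : B)
    (hc : (∀ b, b ∈ K ↔ b * k ∈ K) ∨ c * e v = e v * c) (a : Γ v) (x : W × (∀ v, Γ v) × B) :
    kg_zact K c k (kg_ract e θ v a x) = kg_ract e θ v a (kg_zact K c k x) := by
  unfold kg_zact kg_ract
  refine Prod.ext ?_ rfl
  show x.1 * kg_stp e θ v (x.2.1 v) (x.2.1 v * a) * kg_sz K c x.2.2 (x.2.2 * k) =
    x.1 * kg_sz K c x.2.2 (x.2.2 * k) * kg_stp e θ v (x.2.1 v) (x.2.1 v * a)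
  rw [mul_assoc, mul_assoc]
  congr 1
  unfold kg_stp kg_sz
  by_cases h1 : (x.2.2 ∈ K ↔ x.2.2 * k ∈ K)
  · rw [if_pos h1, one_mul, mul_one]
  · rw [if_neg h1]
    rcases hc with hc | hc
    · exact absurd (hc x.2.2) h1
    · split_ifs
      · rw [one_mul, mul_one]
      · exact hc.symm

/-- the left action of the group `B` -/
private noncomputable def kg_zl (Γ : S → Type) [∀ v, Group (Γ v)] (K : Set B) (c : W)
    (hc : c * c = 1) : B →* Function.End (W × (∀ v, Γ v) × B) where
  toFun h := fun x => kg_zact K c h⁻¹ x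
  map_one' := by
    funext x
    show kg_zact K c (1 : B)⁻¹ x = x
    rw [inv_one, kg_zact_one]
  map_mul' a b := by
    funext x
    show kg_zact K c (a * b)⁻¹ x = kg_zact K c a⁻¹ (kg_zact K c b⁻¹ x)
    rw [mul_inv_rev, kg_zact_mul K c hc]

end

variable {S : Type} [Fintype S] [DecidableEq S] {M : CoxeterMatrix S} {F : Finset S}
  {Γ : S → Type} [∀ v, Group (Γ v)] {D : Type} [Group D]

open Classical in
/-- The maps `κ`. -/
structure IsKapC (e : S → D) (τ : D) (K : Subgroup (BG M)) (r : AG M F Γ →* BG M)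
    (θ : ∀ v, Γ v → Bool) (κ : AG M F Γ → D) : Prop where
  one : κ 1 = 1
  io : ∀ g, ∀ v ∈ F, ∀ a : Γ v, κ (g * io M F v a) =
    κ g * if θ v (pj M F v g * a) = θ v (pj M F v g) then 1 else e v
  th : ∀ g (y : BG M), κ (g * th M F Γ y) =
    κ g * if (r g ∈ K ↔ r (g * th M F Γ y) ∈ K) then 1 else τ

open Classical in
/-- general form -/
private theorem kg_exists (hM : Mix M F) (K : Subgroup (BG M)) (e : S → D) (he : ∀ v, e v * e v = 1)
    (hee : ∀ u ∈ F, ∀ v ∈ F, M u v = 2 → e u * e v = e v * e u) (c : D) (hc : c * c = 1)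
    (hce : ∀ s, s ∉ F → ∀ v ∈ F, M s v = 2 → bgen M s ∈ K ∨ c * e v = e v * c)
    (r : AG M F Γ →* BG M) (hr : ∀ s, s ∉ F → r (th M F Γ (bgen M s)) = bgen M s)
    (hr' : ∀ v (a : Γ v), r (io M F v a) = 1) (θ : ∀ v, Γ v → Bool) :
    ∃ κ : AG M F Γ → D, κ 1 = 1 ∧
      (∀ g, ∀ v ∈ F, ∀ a : Γ v, κ (g * io M F v a) =
        κ g * if θ v (pj M F v g * a) = θ v (pj M F v g) then 1 else e v) ∧
      ∀ g (y : BG M), κ (g * th M F Γ y) =
        κ g * if (r g ∈ K ↔ r (g * th M F Γ y) ∈ K) then 1 else c := by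
  obtain ⟨ρ, hρ⟩ := exists_killBG (M := M) hM
  let zl := kg_zl Γ (K : Set (BG M)) c hc
  let f : BG M →* (Function.End (D × (∀ v, Γ v) × BG M))ˣ := zl.toHomUnits.comp ρ
  let k : ∀ v, Γ v →* (Function.End (D × (∀ v, Γ v) × BG M))ˣ := fun v =>
    if v ∈ F then (kg_lact (BG M) e he θ v).toHomUnits else 1
  have hk : ∀ v ∈ F, k v = (kg_lact (BG M) e he θ v).toHomUnits := fun v hv => if_pos hv
  have hk' : ∀ v, v ∉ F → k v = 1 := fun v hv => if_neg hv
  have hf : ∀ y, f y = zl.toHomUnits (ρ y) := fun y => rfl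
  have hf1 : ∀ s, s ∉ F → f (bgen M s) = zl.toHomUnits (bgen M s) := fun s hs => by
    rw [hf, hρ, if_neg hs]
  have hf2 : ∀ s ∈ F, f (bgen M s) = 1 := fun s hs => by
    rw [hf, hρ, if_pos hs, map_one]
  let R : AG M F Γ →* (Function.End (D × (∀ v, Γ v) × BG M))ˣ :=
    liftAG f k hf2 (fun v hv a => by rw [hk' v hv, MonoidHom.one_apply])
      (fun s v hs hv h2 a => by
        rw [hf1 s hs, hk v hv]
        refine Units.ext ?_
        funext x
        refine kg_zact_comm (K : Set (BG M)) c e θ v (bgen M s)⁻¹ ?_ a⁻¹ x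
        rcases hce s hs v hv h2 with h | h
        · refine Or.inl fun b => ?_
          show b ∈ K ↔ b * (bgen M s)⁻¹ ∈ K
          rw [K.mul_mem_cancel_right (K.inv_mem h)]
        · exact Or.inr h)
      (fun u v hu hv h2 a b => by
        rw [hk u hu, hk v hv]
        refine Units.ext ?_
        funext x
        have huv : u ≠ v := by
          intro h
          rw [h, M.diagonal] at h2
          exact absurd h2 (by norm_num)
        exact kg_ract_comm e θ huv (hee u hu v hv h2) a⁻¹ b⁻¹ x)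
  have hRth : ∀ x, R (th M F Γ x) = f x := fun x => liftAG_th _ _ _ _ _ _ x
  have hRio : ∀ v (a : Γ v), R (io M F v a) = k v a := fun v a => liftAG_io _ _ _ _ _ _ v a
  let st : AG M F Γ → D × (∀ v, Γ v) × BG M := fun g => (R g⁻¹).val (1, fun _ => 1, 1)
  have h1 : st 1 = (1, fun _ => 1, 1) := by
    show (R (1 : AG M F Γ)⁻¹).val (1, fun _ => 1, 1) = _
    rw [inv_one, map_one]
    rfl
  have h2 : ∀ g, ∀ v ∈ F, ∀ h : Γ v, st (g * io M F v h) = kg_ract e θ v h (st g) := by
    intro g v hv h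
    show (R (g * io M F v h)⁻¹).val (1, fun _ => 1, 1) = _
    rw [mul_inv_rev, map_mul, ← map_inv (io M F v) h, hRio, hk v hv]
    show kg_ract e θ v (h⁻¹)⁻¹ (st g) = _
    rw [inv_inv]
  have h5 : ∀ g y, st (g * th M F Γ y) = kg_zact (K : Set (BG M)) c (ρ y) (st g) := by
    intro g y
    show (R (g * th M F Γ y)⁻¹).val (1, fun _ => 1, 1) = _
    rw [mul_inv_rev, map_mul, ← map_inv (th M F Γ) y, hRth, hf, map_inv]
    show kg_zact (K : Set (BG M)) c ((ρ y)⁻¹)⁻¹ (st g) = _
    rw [inv_inv]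
  have hrth : ∀ y, r (th M F Γ y) = ρ y := by
    have h3 : r.comp (th M F Γ) = ρ := by
      refine bg_hom_ext fun s => ?_
      show r (th M F Γ (bgen M s)) = ρ (bgen M s)
      rw [hρ]
      by_cases hs : s ∈ F
      · rw [if_pos hs, th_F hs, map_one]
      · rw [if_neg hs, hr s hs]
    exact fun y => DFunLike.congr_fun h3 y
  have h6 : ∀ g, (∀ v ∈ F, (st g).2.1 v = pj M F v g) ∧ (st g).2.2 = r g := by
    intro g
    refine AG.ind (C := fun g => (∀ v ∈ F, (st g).2.1 v = pj M F v g) ∧ (st g).2.2 = r g)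
      ?_ ?_ ?_ ?_ g
    · refine ⟨fun v _ => ?_, ?_⟩
      · rw [h1, map_one]
      · rw [h1, map_one]
    · rintro g s - ⟨hg, hg'⟩
      refine ⟨fun v hv => ?_, ?_⟩
      · rw [h5, map_mul, pj_th, mul_one]
        exact hg v hv
      · rw [h5, map_mul, hrth]
        show (st g).2.2 * ρ (bgen M s) = _
        rw [hg']
    · rintro g s - ⟨hg, hg'⟩
      refine ⟨fun v hv => ?_, ?_⟩
      · rw [← map_inv, h5, map_mul, pj_th, mul_one]
        exact hg v hv
      · rw [← map_inv, h5, map_mul, hrth]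
        show (st g).2.2 * ρ (bgen M s)⁻¹ = _
        rw [hg']
    · rintro g u hu a ⟨hg, hg'⟩
      refine ⟨fun v hv => ?_, ?_⟩
      · rw [h2 g u hu, map_mul]
        show Function.update (st g).2.1 u ((st g).2.1 u * a) v = _
        by_cases huv : v = u
        · subst huv
          rw [Function.update_self, pj_same hv, hg v hv]
        · rw [Function.update_of_ne huv, pj_ne (Ne.symm huv), mul_one, hg v hv]
      · rw [h2 g u hu, map_mul, hr', mul_one]
        exact hg'
  refine ⟨fun g => (st g).1, ?_, ?_, ?_⟩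
  · show (st 1).1 = 1
    rw [h1]
  · intro g v hv a
    show (st (g * io M F v a)).1 = (st g).1 * _
    rw [h2 g v hv, ← (h6 g).1 v hv]
    rfl
  · intro g y
    show (st (g * th M F Γ y)).1 = (st g).1 * _
    rw [h5, map_mul, ← (h6 g).2, hrth]
    rfl

theorem exists_kapC (hM : Mix M F) {r : AG M F Γ →* BG M}
    (hr1 : ∀ s, s ∉ F → r (th M F Γ (bgen M s)) = bgen M s) (hr2 : ∀ v (a : Γ v), r (io M F v a) = 1)
    {e : S → D} {τ : D} (he : ∀ v ∈ F, e v * e v = 1)
    (hec : ∀ u ∈ F, ∀ v ∈ F, M u v = 2 → e u * e v = e v * e u) (hτ : τ * τ = 1)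
    {K : Subgroup (BG M)}
    (hK : ∀ s, s ∉ F → ∀ u ∈ F, M s u = 2 → bgen M s ∈ K ∨ e u * τ = τ * e u)
    (θ : ∀ v, Γ v → Bool) : ∃ κ : AG M F Γ → D, IsKapC e τ K r θ κ := by
  let e' : S → D := fun v => if v ∈ F then e v else 1
  have he' : ∀ v ∈ F, e' v = e v := fun v hv => if_pos hv
  have hsq : ∀ v, e' v * e' v = 1 := by
    intro v
    by_cases hv : v ∈ F
    · rw [he' v hv, he v hv]
    · show (if v ∈ F then e v else 1) * (if v ∈ F then e v else 1) = 1
      rw [if_neg hv, one_mul]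
  obtain ⟨κ, h1, h2, h3⟩ := kg_exists (Γ := Γ) hM K e' hsq
    (fun u hu v hv h => by rw [he' u hu, he' v hv, hec u hu v hv h]) τ hτ
    (fun s hs v hv h => by
      rw [he' v hv]
      exact (hK s hs v hv h).imp id Eq.symm) r hr1 hr2 θ
  refine ⟨κ, h1, fun g v hv a => ?_, h3⟩
  rw [h2 g v hv a, he' v hv]

end Pool.Agent.H65.AB
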