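import Pool.Agent.H65.AB.Let
import Pool.Agent.H65.AB.Defs

/-!
# Project AB: the maps to the right-angled Coxeter group, definitions
-/

set_option autoImplicit false
set_option linter.unusedSectionVars false

open Finset

namespace Pool.Agent.H65.AB

open H42.NU Pool.Agent.H4.FC Pool.Agent.H78.RC Pool.Agent.H93.AA Pool.Agent.H65.RA
open Pool.Agent.H65.BU (RA Apts)

variable {S : Type} [Fintype S] [DecidableEq S] {M : CoxeterMatrix S} {F : Finset S}
  {Γ : S → Type} [∀ v, Group (Γ v)] {W : Type} [Group W] {M' : CoxeterMatrix (Irr M)}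

/-- The map `κ`: the elements of `Γ v` multiply by `s_v` if the value of `θ v` changes, the elements of the Artin group
multiply by `s_X` if `L` changes between `0` and `≠ 0`. -/
structure IsKap (cs : CoxeterSystem M' W) (X : Irr M) (L : AG M F Γ → ℤ) (θ : ∀ v, Γ v → Bool)
    (κ : AG M F Γ → W) : Prop where
  one : κ 1 = 1
  io : ∀ g, ∀ v ∈ F, ∀ a : Γ v, κ (g * io M F v a) =
    κ g * if θ v (pj M F v g * a) = θ v (pj M F v g) then 1 else cs.simple (sing M v)
  th : ∀ g (y : BG M), κ (g * th M F Γ y) =
    κ g * if (L g = 0 ↔ L (g * th M F Γ y) = 0) then 1 else cs.simple X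

end Pool.Agent.H65.AB
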