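import Pool.Agent.H65.AB.KapDefs
import Pool.Agent.H65.BU.Kap

/-!
# Project AB: existence of the maps to the right-angled Coxeter group

PROOF (as BU/Kap, `exists_kappa`): `AG M F Γ` acts from the right on `W × (∀ v, Γ v) × ℤ`. The elements of `Γ v` act as
`ract`; a generator `s ∈ C`: `(x, c, n) ↦ (x * (if (n = 0 ↔ n + 1 = 0) then 1 else s_X), c, n + 1)`, the other generators
trivially. Relations: `artin_of` (two generators with a label different from two and infinity are both in `C` or both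
not in `C`), a generator `s ∈ C` and `Γ v`, `M s v = 2`: `s_X` and `s_v` commute (`hadj`). `κ g` is the first component of
`(1, 1, 0) · g`; the second component is `pj M F v g`, the third `L g`. The formula for `κ (g * th y)`: induction on `y`
(`bg_ind`).
-/

set_option autoImplicit false
set_option linter.unusedSectionVars false

open Finset

namespace Pool.Agent.H65.AB

open H42.NU Pool.Agent.H4.FC Pool.Agent.H78.RC Pool.Agent.H93.AA Pool.Agent.H65.RA
open Pool.Agent.H65.BU (RA Apts)

section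

variable {S W : Type} [DecidableEq S] [Group W] {Γ : S → Type} [∀ v, Group (Γ v)]

/-- the factor of the step from `p` to `r` -/
private def kx_stp (e : S → W) (θ : ∀ v, Γ v → Bool) (v : S) (p r : Γ v) : W :=
  if θ v r = θ v p then 1 else e v

/-- the right action of the vertex groups -/
private def kx_ract (e : S → W) (θ : ∀ v, Γ v → Bool) (v : S) (h : Γ v)
    (x : W × (∀ v, Γ v) × ℤ) : W × (∀ v, Γ v) × ℤ :=
  (x.1 * kx_stp e θ v (x.2.1 v) (x.2.1 v * h), Function.update x.2.1 v (x.2.1 v * h), x.2.2)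

private theorem kx_stp_mul (e : S → W) (he : ∀ v, e v * e v = 1) (θ : ∀ v, Γ v → Bool) (v : S)
    (p q r : Γ v) : kx_stp e θ v p q * kx_stp e θ v q r = kx_stp e θ v p r := by
  unfold kx_stp
  by_cases h1 : θ v q = θ v p
  · rw [if_pos h1, one_mul, h1]
  · rw [if_neg h1]
    by_cases h2 : θ v r = θ v q
    · rw [if_pos h2, mul_one, h2, if_neg h1]
    · have h3 : θ v r = θ v p := by
        revert h1 h2
        cases θ v r <;> cases θ v q <;> cases θ v p <;> simp
      rw [if_neg h2, if_pos h3, he]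

private theorem kx_ract_one (e : S → W) (θ : ∀ v, Γ v → Bool) (v : S)
    (x : W × (∀ v, Γ v) × ℤ) : kx_ract e θ v 1 x = x := by
  unfold kx_ract kx_stp
  rw [mul_one, if_pos rfl, mul_one, Function.update_eq_self]

private theorem kx_ract_mul (e : S → W) (he : ∀ v, e v * e v = 1) (θ : ∀ v, Γ v → Bool) (v : S)
    (a b : Γ v) (x : W × (∀ v, Γ v) × ℤ) :
    kx_ract e θ v (a * b) x = kx_ract e θ v b (kx_ract e θ v a x) := by
  unfold kx_ract
  refine Prod.ext ?_ (Prod.ext ?_ rfl)
  · show x.1 * kx_stp e θ v (x.2.1 v) (x.2.1 v * (a * b)) =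
      x.1 * kx_stp e θ v (x.2.1 v) (x.2.1 v * a) *
        kx_stp e θ v (Function.update x.2.1 v (x.2.1 v * a) v)
          (Function.update x.2.1 v (x.2.1 v * a) v * b)
    rw [Function.update_self, mul_assoc x.1, kx_stp_mul e he, mul_assoc (x.2.1 v)]
  · show Function.update x.2.1 v (x.2.1 v * (a * b)) =
      Function.update (Function.update x.2.1 v (x.2.1 v * a)) v
        (Function.update x.2.1 v (x.2.1 v * a) v * b)
    rw [Function.update_self, Function.update_idem, mul_assoc]

private theorem kx_ract_comm (e : S → W) (θ : ∀ v, Γ v → Bool) {u v : S} (huv : u ≠ v)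
    (hc : e u * e v = e v * e u) (a : Γ u) (b : Γ v) (x : W × (∀ v, Γ v) × ℤ) :
    kx_ract e θ u a (kx_ract e θ v b x) = kx_ract e θ v b (kx_ract e θ u a x) := by
  have h1 : ∀ p r p' r', kx_stp e θ u p r * kx_stp e θ v p' r' =
      kx_stp e θ v p' r' * kx_stp e θ u p r := by
    intro p r p' r'
    unfold kx_stp
    by_cases h1 : θ u r = θ u p
    · rw [if_pos h1, one_mul, mul_one]
    · by_cases h2 : θ v r' = θ v p'
      · rw [if_pos h2, one_mul, mul_one]
      · rw [if_neg h1, if_neg h2, hc]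
  unfold kx_ract
  refine Prod.ext ?_ (Prod.ext ?_ rfl)
  · show x.1 * kx_stp e θ v (x.2.1 v) (x.2.1 v * b) *
        kx_stp e θ u (Function.update x.2.1 v (x.2.1 v * b) u)
          (Function.update x.2.1 v (x.2.1 v * b) u * a) =
      x.1 * kx_stp e θ u (x.2.1 u) (x.2.1 u * a) *
        kx_stp e θ v (Function.update x.2.1 u (x.2.1 u * a) v)
          (Function.update x.2.1 u (x.2.1 u * a) v * b)
    rw [Function.update_of_ne huv, Function.update_of_ne huv.symm, mul_assoc, mul_assoc, h1]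
  · show Function.update (Function.update x.2.1 v (x.2.1 v * b)) u
        (Function.update x.2.1 v (x.2.1 v * b) u * a) =
      Function.update (Function.update x.2.1 u (x.2.1 u * a)) v
        (Function.update x.2.1 u (x.2.1 u * a) v * b)
    rw [Function.update_of_ne huv, Function.update_of_ne huv.symm, Function.update_comm huv]

/-- the left action of a vertex group -/
private def kx_lact (e : S → W) (he : ∀ v, e v * e v = 1) (θ : ∀ v, Γ v → Bool) (v : S) :
    Γ v →* Function.End (W × (∀ v, Γ v) × ℤ) where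
  toFun h := fun x => kx_ract e θ v h⁻¹ x
  map_one' := by
    funext x
    show kx_ract e θ v (1 : Γ v)⁻¹ x = x
    rw [inv_one, kx_ract_one]
  map_mul' a b := by
    funext x
    show kx_ract e θ v (a * b)⁻¹ x = kx_ract e θ v a⁻¹ (kx_ract e θ v b⁻¹ x)
    rw [mul_inv_rev, kx_ract_mul e he]

/-- the factor of the step of the integers from `n` to `m` -/
private def kx_sz (c : W) (n m : ℤ) : W := if (n = 0 ↔ m = 0) then 1 else c

private theorem kx_sz_mul (c : W) (hc : c * c = 1) (n m k : ℤ) :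
    kx_sz c n m * kx_sz c m k = kx_sz c n k := by
  unfold kx_sz
  by_cases h1 : (n = 0 ↔ m = 0)
  · rw [if_pos h1, one_mul]
    by_cases h2 : (m = 0 ↔ k = 0)
    · rw [if_pos h2, if_pos (h1.trans h2)]
    · rw [if_neg h2, if_neg]
      exact fun h3 => h2 (h1.symm.trans h3)
  · rw [if_neg h1]
    by_cases h2 : (m = 0 ↔ k = 0)
    · rw [if_pos h2, if_neg, mul_one]
      exact fun h3 => h1 (h3.trans h2.symm)
    · rw [if_neg h2, if_pos, hc]
      tauto

/-- the right action of the integers -/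
private def kx_zact (c : W) (k : ℤ) (x : W × (∀ v, Γ v) × ℤ) : W × (∀ v, Γ v) × ℤ :=
  (x.1 * kx_sz c x.2.2 (x.2.2 + k), x.2.1, x.2.2 + k)

private theorem kx_zact_zero (c : W) (x : W × (∀ v, Γ v) × ℤ) : kx_zact c 0 x = x := by
  unfold kx_zact kx_sz
  rw [add_zero, if_pos Iff.rfl, mul_one]

private theorem kx_zact_add (c : W) (hc : c * c = 1) (k l : ℤ) (x : W × (∀ v, Γ v) × ℤ) :
    kx_zact c (k + l) x = kx_zact c l (kx_zact c k x) := by
  unfold kx_zact
  refine Prod.ext ?_ (Prod.ext rfl ?_)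
  · show x.1 * kx_sz c x.2.2 (x.2.2 + (k + l)) =
      x.1 * kx_sz c x.2.2 (x.2.2 + k) * kx_sz c (x.2.2 + k) (x.2.2 + k + l)
    rw [mul_assoc, kx_sz_mul c hc, add_assoc]
  · show x.2.2 + (k + l) = x.2.2 + k + l
    rw [add_assoc]

private theorem kx_zact_comm (c : W) (e : S → W) (θ : ∀ v, Γ v → Bool) (v : S)
    (hc : c * e v = e v * c) (k : ℤ) (a : Γ v) (x : W × (∀ v, Γ v) × ℤ) :
    kx_zact c k (kx_ract e θ v a x) = kx_ract e θ v a (kx_zact c k x) := by
  unfold kx_zact kx_ract
  refine Prod.ext ?_ rfl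
  show x.1 * kx_stp e θ v (x.2.1 v) (x.2.1 v * a) * kx_sz c x.2.2 (x.2.2 + k) =
    x.1 * kx_sz c x.2.2 (x.2.2 + k) * kx_stp e θ v (x.2.1 v) (x.2.1 v * a)
  rw [mul_assoc, mul_assoc]
  congr 1
  unfold kx_stp kx_sz
  split_ifs
  · rfl
  · rw [one_mul, mul_one]
  · rw [one_mul, mul_one]
  · exact hc.symm

/-- the left action of the integers -/
private def kx_zl (Γ : S → Type) [∀ v, Group (Γ v)] (c : W) (hc : c * c = 1) :
    Multiplicative ℤ →* Function.End (W × (∀ v, Γ v) × ℤ) where
  toFun h := fun x => kx_zact c (-Multiplicative.toAdd h) x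
  map_one' := by
    funext x
    show kx_zact c (-(0 : ℤ)) x = x
    rw [neg_zero, kx_zact_zero]
  map_mul' a b := by
    funext x
    show kx_zact c (-(Multiplicative.toAdd a + Multiplicative.toAdd b)) x =
      kx_zact c (-Multiplicative.toAdd a) (kx_zact c (-Multiplicative.toAdd b) x)
    rw [← kx_zact_add c hc, neg_add, add_comm]

end

variable {S : Type} [Fintype S] [DecidableEq S] {M : CoxeterMatrix S} {F : Finset S}
  {Γ : S → Type} [∀ v, Group (Γ v)] {W : Type} [Group W] [Fintype (Irr M)]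
  {M' : CoxeterMatrix (Irr M)}

/-- **The maps `κ`.** -/
theorem exists_kap (hM : Mix M F) (hM' : RA (nG M) M') (cs : CoxeterSystem M' W) {C : Finset S}
    (hC : ∀ s ∈ C, s ∉ F) (hC2 : ∀ s ∈ C, ∀ t, t ∉ F → M s t ≠ 0 → M s t ≠ 2 → t ∈ C) (X : Irr M)
    (hadj : ∀ s ∈ C, ∀ v ∈ F, M v s = 2 → (nG M).Adj (sing M v) X) {L : AG M F Γ → ℤ}
    (hL : IsLam M F Γ C L) (θ : ∀ v, Γ v → Bool) :
    ∃ κ : AG M F Γ → W, IsKap cs X L θ κ := by
  have hF := Pool.Agent.H65.BU.facts_of_ra hM' cs
  let e : S → W := fun v => cs.simple (sing M v)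
  have he : ∀ v, e v * e v = 1 := fun v => cs.simple_mul_simple_self _
  let c : W := cs.simple X
  have hc : c * c = 1 := cs.simple_mul_simple_self _
  let z1 : (Function.End (W × (∀ v, Γ v) × ℤ))ˣ :=
    (kx_zl Γ c hc).toHomUnits (Multiplicative.ofAdd (1 : ℤ))
  let f0 : S → (Function.End (W × (∀ v, Γ v) × ℤ))ˣ := fun s => if s ∈ C then z1 else 1
  have hf0 : Artin M f0 := by
    refine artin_of f0 (fun s t _ _ => ?_) (fun s t hst h0 h2 => ?_)
    · show (if s ∈ C then z1 else 1) * (if t ∈ C then z1 else 1) =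
        (if t ∈ C then z1 else 1) * (if s ∈ C then z1 else 1)
      split_ifs
      · rfl
      · rw [mul_one, one_mul]
      · rw [mul_one, one_mul]
      · rfl
    · have h1 : s ∈ C → t ∈ C := by
        intro hs
        refine hC2 s hs t (fun ht => ?_) h0 h2
        rcases hM.two t ht s hst with h | h
        · exact h2 (by rw [M.symmetric]; exact h)
        · exact h0 (by rw [M.symmetric]; exact h)
      have h1' : t ∈ C → s ∈ C := by
        intro ht
        refine hC2 t ht s (fun hs => ?_) (by rw [M.symmetric]; exact h0)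
          (by rw [M.symmetric]; exact h2)
        rcases hM.two s hs t (Ne.symm hst) with h | h
        · exact h2 h
        · exact h0 h
      show (if s ∈ C then z1 else 1) = (if t ∈ C then z1 else 1)
      by_cases h3 : s ∈ C
      · rw [if_pos h3, if_pos (h1 h3)]
      · rw [if_neg h3, if_neg (fun h => h3 (h1' h))]
  let f : BG M →* (Function.End (W × (∀ v, Γ v) × ℤ))ˣ := liftBG f0 hf0
  let k : ∀ v, Γ v →* (Function.End (W × (∀ v, Γ v) × ℤ))ˣ := fun v =>
    if v ∈ F then (kx_lact e he θ v).toHomUnits else 1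
  have hk : ∀ v ∈ F, k v = (kx_lact e he θ v).toHomUnits := fun v hv => if_pos hv
  have hk' : ∀ v, v ∉ F → k v = 1 := fun v hv => if_neg hv
  have hfg : ∀ s, f (bgen M s) = f0 s := fun s => liftBG_gen f0 hf0 s
  have hf1 : ∀ s ∈ C, f0 s = z1 := fun s hs => if_pos hs
  have hf2 : ∀ s, s ∉ C → f0 s = 1 := fun s hs => if_neg hs
  let ρ : AG M F Γ →* (Function.End (W × (∀ v, Γ v) × ℤ))ˣ :=
    liftAG f k (fun v hv => by rw [hfg, hf2 v (fun h => hC v h hv)])
      (fun v hv a => by rw [hk' v hv, MonoidHom.one_apply])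
      (fun s v hs hv h2 a => by
        rw [hfg]
        by_cases hsC : s ∈ C
        · rw [hf1 s hsC, hk v hv]
          refine Units.ext ?_
          funext x
          exact kx_zact_comm c e θ v
            (hF.comm X (sing M v) (hadj s hsC v hv (by rw [M.symmetric]; exact h2)).symm)
            (-1) a⁻¹ x
        · rw [hf2 s hsC, one_mul, mul_one])
      (fun u v hu hv h2 a b => by
        rw [hk u hu, hk v hv]
        refine Units.ext ?_
        funext x
        have huv : u ≠ v := by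
          intro h
          rw [h, M.diagonal] at h2
          exact absurd h2 (by norm_num)
        exact kx_ract_comm e θ huv (hF.comm _ _ ((adj_sing_sing hM hu).2 h2)) a⁻¹ b⁻¹ x)
  have hρth : ∀ x, ρ (th M F Γ x) = f x := fun x => liftAG_th _ _ _ _ _ _ x
  have hρio : ∀ v (a : Γ v), ρ (io M F v a) = k v a := fun v a => liftAG_io _ _ _ _ _ _ v a
  let st : AG M F Γ → W × (∀ v, Γ v) × ℤ := fun g => (ρ g⁻¹).val (1, fun _ => 1, 0)
  have h1 : st 1 = (1, fun _ => 1, 0) := by
    show (ρ (1 : AG M F Γ)⁻¹).val (1, fun _ => 1, 0) = _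
    rw [inv_one, map_one]
    rfl
  have h2 : ∀ g, ∀ v ∈ F, ∀ h : Γ v, st (g * io M F v h) = kx_ract e θ v h (st g) := by
    intro g v hv h
    show (ρ (g * io M F v h)⁻¹).val (1, fun _ => 1, 0) = _
    rw [mul_inv_rev, map_mul, ← map_inv (io M F v) h, hρio, hk v hv]
    show kx_ract e θ v (h⁻¹)⁻¹ (st g) = _
    rw [inv_inv]
  have h3 : ∀ g, ∀ s ∈ C, st (g * th M F Γ (bgen M s)) = kx_zact c 1 (st g) := by
    intro g s hs
    show (ρ (g * th M F Γ (bgen M s))⁻¹).val (1, fun _ => 1, 0) = _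
    rw [mul_inv_rev, map_mul, map_inv ρ (th M F Γ (bgen M s)), hρth, hfg, hf1 s hs]
    have h4 : z1⁻¹ = (kx_zl Γ c hc).toHomUnits (Multiplicative.ofAdd (-1 : ℤ)) := by
      show ((kx_zl Γ c hc).toHomUnits (Multiplicative.ofAdd (1 : ℤ)))⁻¹ = _
      rw [← map_inv, ← ofAdd_neg]
    rw [h4]
    show kx_zact c (-(-1 : ℤ)) (st g) = _
    rw [neg_neg]
  have h4 : ∀ g s, s ∉ C → st (g * th M F Γ (bgen M s)) = st g := by
    intro g s hs
    show (ρ (g * th M F Γ (bgen M s))⁻¹).val (1, fun _ => 1, 0) = _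
    rw [mul_inv_rev, map_mul, map_inv ρ (th M F Γ (bgen M s)), hρth, hfg, hf2 s hs, inv_one]
    rfl
  have h5 : ∀ y g, st (g * th M F Γ y) = kx_zact c (L (th M F Γ y)) (st g) := by
    intro y
    refine bg_ind (C := fun y => ∀ g, st (g * th M F Γ y) = kx_zact c (L (th M F Γ y)) (st g))
      ?_ ?_ ?_ y
    · intro g
      rw [map_one, mul_one, hL.one, kx_zact_zero]
    · intro y s hy g
      rw [map_mul, ← mul_assoc, hL.mul]
      by_cases hs : s ∈ C
      · rw [h3 _ s hs, hy, hL.mem s hs, kx_zact_add c hc]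
      · rw [h4 _ s hs, hy, hL.nmem s hs, add_zero]
    · intro y s hy g
      rw [map_mul, ← mul_assoc, hL.mul, map_inv, hL.inv]
      by_cases hs : s ∈ C
      · have h6 := h3 (g * th M F Γ y * (th M F Γ (bgen M s))⁻¹) s hs
        rw [inv_mul_cancel_right, hy] at h6
        rw [hL.mem s hs, kx_zact_add c hc, h6, ← kx_zact_add c hc]
        rw [show (1 : ℤ) + -1 = 0 from rfl, kx_zact_zero]
      · have h6 := h4 (g * th M F Γ y * (th M F Γ (bgen M s))⁻¹) s hs
        rw [inv_mul_cancel_right, hy] at h6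
        rw [hL.nmem s hs, neg_zero, add_zero, h6]
  have h6 : ∀ g, (∀ v ∈ F, (st g).2.1 v = pj M F v g) ∧ (st g).2.2 = L g := by
    intro g
    refine AG.ind (C := fun g => (∀ v ∈ F, (st g).2.1 v = pj M F v g) ∧ (st g).2.2 = L g)
      ?_ ?_ ?_ ?_ g
    · refine ⟨fun v _ => ?_, ?_⟩
      · rw [h1, map_one]
      · rw [h1, hL.one]
    · rintro g s - ⟨hg, hg'⟩
      refine ⟨fun v hv => ?_, ?_⟩
      · rw [h5, map_mul, pj_th, mul_one]
        exact hg v hv
      · rw [h5, hL.mul]
        show (st g).2.2 + L (th M F Γ (bgen M s)) = _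
        rw [hg']
    · rintro g s - ⟨hg, hg'⟩
      refine ⟨fun v hv => ?_, ?_⟩
      · rw [← map_inv, h5, map_mul, pj_th, mul_one]
        exact hg v hv
      · rw [← map_inv, h5, hL.mul]
        show (st g).2.2 + L (th M F Γ (bgen M s)⁻¹) = _
        rw [hg']
    · rintro g u hu a ⟨hg, hg'⟩
      refine ⟨fun v hv => ?_, ?_⟩
      · rw [h2 g u hu, map_mul]
        show Function.update (st g).2.1 u ((st g).2.1 u * a) v = _
        by_cases huv : v = u
        · subst huv
          rw [Function.update_self, pj_same hv, hg v hv]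
        · rw [Function.update_of_ne huv, pj_ne (Ne.symm huv), mul_one, hg v hv]
      · rw [h2 g u hu, hL.mul, hL.io, add_zero]
        exact hg'
  refine ⟨fun g => (st g).1, ?_, ?_, ?_⟩
  · show (st 1).1 = 1
    rw [h1]
  · intro g v hv a
    show (st (g * io M F v a)).1 = (st g).1 * _
    rw [h2 g v hv, ← (h6 g).1 v hv]
    rfl
  · intro g y
    show (st (g * th M F Γ y)).1 = (st g).1 * _
    rw [h5, hL.mul, ← (h6 g).2]
    rfl

end Pool.Agent.H65.AB
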