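import Pool.Agent.H65.AB.Grp
import Pool.Agent.H93.AA.Gar
import Pool.Agent.H65.BU.Defs
import Pool.Agent.H4.FC.SphIff
import Pool.Agent.H78.RC.Nest

/-!
# Project AB: the letters

The letters are the irreducible spherical sets `X : Irr M`; `lF M F` is the set of the letters `{v}`, `v ∈ F`; all the
other letters are disjoint from `F` (`disj`).
-/

set_option autoImplicit false
set_option linter.unusedSectionVars false

open Finset

namespace Pool.Agent.H65.AB

open H42.NU Pool.Agent.H4.FC Pool.Agent.H78.RC Pool.Agent.H93.AA Pool.Agent.H65.RA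
open Pool.Agent.H65.BU (RA)

variable {S : Type} [Fintype S] [DecidableEq S] {M : CoxeterMatrix S} {F : Finset S}
  {Γ : S → Type} [∀ v, Group (Γ v)]

private theorem let_sph_single (M : CoxeterMatrix S) (v : S) : Sph M {v} := by
  have h1 : (par M {v} : Set M.Group) ⊆ {1, M.simple v} := by
    refine par_induction M {v} (p := fun w => w ∈ ({1, M.simple v} : Set M.Group))
      (Or.inl rfl) ?_
    intro u hu w hw
    rw [Finset.mem_singleton.mp hu]
    rcases hw with hw | hw
    · right
      rw [hw, mul_one]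
      exact rfl
    · left
      rw [Set.mem_singleton_iff.mp hw, simple_sq]
  exact (((Set.finite_singleton (M.simple v)).insert 1).subset h1).to_subtype

private theorem let_sph_ne {X : Finset S} (hX : Sph M X) {s t : S} (hs : s ∈ X) (ht : t ∈ X)
    (hst : s ≠ t) : M s t ≠ 0 :=
  (sph_cl M X hX s hs t ht hst).2

theorem irr_sing (M : CoxeterMatrix S) (v : S) : Sph M {v} ∧ Con (diag M) {v} :=
  ⟨let_sph_single M v, con_single (diag M) v⟩

/-- the letter `{v}` -/
def sing (M : CoxeterMatrix S) (v : S) : Irr M := ⟨{v}, irr_sing M v⟩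

open Classical in
/-- the letters of the groups `Γ v`, `v ∈ F` -/
noncomputable def lF (M : CoxeterMatrix S) [Fintype (Irr M)] (F : Finset S) : Finset (Irr M) :=
  univ.filter fun X => ∃ v ∈ F, X = sing M v

theorem mem_lF [Fintype (Irr M)] {X : Irr M} : X ∈ lF M F ↔ ∃ v ∈ F, X = sing M v := by
  classical
  unfold lF
  rw [mem_filter]
  exact ⟨fun h => h.2, fun h => ⟨mem_univ X, h⟩⟩

theorem sing_inj {u v : S} (h : sing M u = sing M v) : u = v :=
  singleton_injective (congrArg Subtype.val h)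

theorem sing_mem_lF [Fintype (Irr M)] {v : S} : sing M v ∈ lF M F ↔ v ∈ F := by
  rw [mem_lF]
  refine ⟨fun ⟨u, hu, h⟩ => ?_, fun h => ⟨v, h, rfl⟩⟩
  rw [sing_inj h]
  exact hu

open Classical in
/-- the elements of the letters: `q v b` in the group `Γ v`, the powers `Δ_X ^ (± 2)` otherwise -/
noncomputable def pA (M : CoxeterMatrix S) (F : Finset S) {Γ : S → Type} [∀ v, Group (Γ v)]
    (q : ∀ v, Bool → Γ v) (x : Irr M × Bool) : AG M F Γ :=
  if h : ∃ v ∈ F, x.1 = sing M v then io M F h.choose (q h.choose x.2)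
  else if x.2 then th M F Γ (xg M x.1) else (th M F Γ (xg M x.1))⁻¹

theorem pA_sing (q : ∀ v, Bool → Γ v) {v : S} (hv : v ∈ F) (b : Bool) :
    pA M F q (sing M v, b) = io M F v (q v b) := by
  have h : ∃ u ∈ F, (sing M v, b).1 = sing M u := ⟨v, hv, rfl⟩
  have h1 : h.choose = v := (sing_inj h.choose_spec.2).symm
  unfold pA
  rw [dif_pos h, h1]

theorem pA_true [Fintype (Irr M)] (q : ∀ v, Bool → Γ v) {X : Irr M} (hX : X ∉ lF M F) :
    pA M F q (X, true) = th M F Γ (xg M X) := by
  have h : ¬ ∃ u ∈ F, (X, true).1 = sing M u := fun h => hX (mem_lF.2 h)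
  unfold pA
  rw [dif_neg h, if_pos rfl]

theorem pA_false [Fintype (Irr M)] (q : ∀ v, Bool → Γ v) {X : Irr M} (hX : X ∉ lF M F) :
    pA M F q (X, false) = (th M F Γ (xg M X))⁻¹ := by
  have h : ¬ ∃ u ∈ F, (X, false).1 = sing M u := fun h => hX (mem_lF.2 h)
  unfold pA
  rw [dif_neg h, if_neg (by simp)]

/-- the other letters are disjoint from `F` -/
theorem disj [Fintype (Irr M)] (hM : Mix M F) {X : Irr M} (hX : X ∉ lF M F) : Disjoint X.1 F := by
  rw [Finset.disjoint_left]
  intro v hv hvF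
  refine hX (mem_lF.2 ⟨v, hvF, Subtype.ext ?_⟩)
  show X.1 = {v}
  refine (X.2.2.2 {v} (singleton_subset_iff.2 hv) (singleton_nonempty v) ?_).symm
  intro a ha b hb hab
  rw [mem_singleton] at ha
  subst ha
  rw [mem_sdiff, mem_singleton] at hb
  rcases hM.two a hvF b hb.2 with h1 | h1
  · exact hab.2 h1
  · exact let_sph_ne X.2.1 hv hb.1 hab.1 h1

theorem adj_sing [Fintype (Irr M)] (hM : Mix M F) {X : Irr M} (hX : X ∉ lF M F) {v : S}
    (hv : v ∈ F) : (nG M).Adj (sing M v) X ↔ ∀ s ∈ X.1, M v s = 2 := by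
  have hd := disj hM hX
  constructor
  · rintro ⟨-, h1 | h1 | h1⟩ s hs
    · exact absurd hv (Finset.disjoint_left.1 hd (h1 (mem_singleton_self v)))
    · have h2 : s = v := mem_singleton.1 (h1 hs)
      rw [h2] at hs
      exact absurd hv (Finset.disjoint_left.1 hd hs)
    · exact h1 v (mem_singleton_self v) s hs
  · intro h
    refine ⟨fun he => hX (mem_lF.2 ⟨v, hv, he.symm⟩), Or.inr (Or.inr fun j hj k hk => ?_)⟩
    rw [mem_singleton.1 hj]
    exact h k hk

theorem adj_sing_sing (hM : Mix M F) {u v : S} (hu : u ∈ F) :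
    (nG M).Adj (sing M u) (sing M v) ↔ M u v = 2 := by
  constructor
  · rintro ⟨hne, h1 | h1 | h1⟩
    · exact absurd (congrArg (sing M) (mem_singleton.1 (h1 (mem_singleton_self u)))) hne
    · exact absurd (congrArg (sing M) (mem_singleton.1 (h1 (mem_singleton_self v))).symm) hne
    · exact h1 u (mem_singleton_self u) v (mem_singleton_self v)
  · intro h
    refine ⟨fun he => ?_, Or.inr (Or.inr fun j hj k hk => ?_)⟩
    · rw [sing_inj he, M.diagonal] at h
      exact absurd h (by norm_num)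
    · rw [mem_singleton.1 hj, mem_singleton.1 hk]
      exact h

/-- a reduced word -/
private theorem let_word (M : CoxeterMatrix S) {T : Finset S} {w : M.Group} (hw : w ∈ par M T) :
    ∃ ω : List S, ω.length = M.toCoxeterSystem.length w ∧ (∀ i ∈ ω, i ∈ T) ∧
      lft M w = (ω.map (bgen M)).prod := by
  have hred := (M.toCoxeterSystem.exists_isReduced w).choose_spec
  obtain ⟨ω, hω⟩ : ∃ ω, ω = (M.toCoxeterSystem.exists_isReduced w).choose := ⟨_, rfl⟩
  rw [← hω] at hred
  have hlft : lft M w = (ω.map (bgen M)).prod := by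
    rw [hω]
    rfl
  have hmem : ∀ i ∈ ω, i ∈ (T : Set S) := by
    refine Pool.Agent.H73.HVN.mem_of_isReduced M.toCoxeterSystem hred.1 ?_
    rw [← hred.2]
    exact mem_WP_of_par M hw
  refine ⟨ω, ?_, hmem, hlft⟩
  have h1 := hred.1.eq
  rw [← hred.2] at h1
  exact h1.symm

/-- the positive lifts of the elements of `W_T` are in the subgroup of the generators in `T` -/
theorem lft_mem_gp (M : CoxeterMatrix S) {T : Finset S} {w : M.Group} (hw : w ∈ par M T) :
    lft M w ∈ Subgroup.closure {x : BG M | ∃ s ∈ T, x = bgen M s} := by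
  obtain ⟨ω, -, hmem, hlft⟩ := let_word M hw
  rw [hlft]
  refine Subgroup.list_prod_mem _ fun x hx => ?_
  obtain ⟨i, hi, rfl⟩ := List.mem_map.1 hx
  exact Subgroup.subset_closure ⟨i, hmem i hi, rfl⟩

theorem xg_mem_gp (M : CoxeterMatrix S) (X : Irr M) :
    xg M X ∈ Subgroup.closure {x : BG M | ∃ s ∈ X.1, x = bgen M s} :=
  pow_mem (lft_mem_gp M (lw_spec M X.2.1).1) 2

private theorem let_pA [Fintype (Irr M)] (q : ∀ v, Bool → Γ v) {X : Irr M} (hX : X ∉ lF M F)
    (b : Bool) {c : AG M F Γ} (h : Commute c (th M F Γ (xg M X))) : Commute c (pA M F q (X, b)) := by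
  cases b
  · rw [pA_false q hX]
    exact h.inv_right
  · rw [pA_true q hX]
    exact h

private theorem let_io [Fintype (Irr M)] (hM : Mix M F) {X : Irr M} (hX : X ∉ lF M F) {v : S}
    (hv : v ∈ F) (h : (nG M).Adj (sing M v) X) (a : Γ v) :
    Commute (io M F v a) (th M F Γ (xg M X)) := by
  have h1 := (adj_sing hM hX hv).1 h
  have h2 : xg M X ∈ (Subgroup.centralizer {io M F v a}).comap (th M F Γ) := by
    refine (Subgroup.closure_le _).2 ?_ (xg_mem_gp M X)
    rintro x ⟨s, hs, rfl⟩
    show th M F Γ (bgen M s) ∈ Subgroup.centralizer {io M F v a}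
    rw [Subgroup.mem_centralizer_iff]
    intro y hy
    rw [Set.mem_singleton_iff.1 hy]
    have h3 : M s v = 2 := by
      rw [M.symmetric]
      exact h1 s hs
    exact (th_io h3 a).symm
  have h3 : th M F Γ (xg M X) ∈ Subgroup.centralizer {io M F v a} := h2
  rw [Subgroup.mem_centralizer_iff] at h3
  exact h3 _ rfl

/-- **The elements of adjacent letters commute.** -/
theorem pA_comm [Fintype (Irr M)] (hM : Mix M F) (q : ∀ v, Bool → Γ v) (x y : Irr M × Bool)
    (h : (oct (nG M)).Adj x y) : pA M F q x * pA M F q y = pA M F q y * pA M F q x := by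
  obtain ⟨X, b⟩ := x
  obtain ⟨Y, c⟩ := y
  have hXY : (nG M).Adj X Y := h
  by_cases hX : X ∈ lF M F
  · obtain ⟨u, hu, rfl⟩ := mem_lF.1 hX
    by_cases hY : Y ∈ lF M F
    · obtain ⟨v, hv, rfl⟩ := mem_lF.1 hY
      rw [pA_sing q hu, pA_sing q hv]
      exact io_io ((adj_sing_sing hM hu).1 hXY) _ _
    · rw [pA_sing q hu]
      exact let_pA q hY c (let_io hM hY hu hXY _)
  · by_cases hY : Y ∈ lF M F
    · obtain ⟨v, hv, rfl⟩ := mem_lF.1 hY
      rw [pA_sing q hv]
      exact (let_pA q hX b (let_io hM hX hv hXY.symm _)).symm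
    · refine let_pA q hY c (Commute.symm (let_pA q hX b ?_))
      show th M F Γ (xg M Y) * th M F Γ (xg M X) = th M F Γ (xg M X) * th M F Γ (xg M Y)
      rw [← map_mul, ← map_mul, xg_comm M hXY]

/-- the subgroup generated by the generators in `Y` -/
def gp (M : CoxeterMatrix S) (Y : Finset S) : Subgroup (BG M) :=
  Subgroup.closure {x : BG M | ∃ s ∈ Y, x = bgen M s}

end Pool.Agent.H65.AB
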