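import Pool.Agent.H65.AB.CxDefs
import Pool.Agent.H65.AB.ExNb
import Pool.Agent.H65.AB.Let
import Pool.Agent.H93.AB.Apx
import Pool.Agent.H93.AB.Art

/-!
# Project AB: the reduced `ℓ²`-homology of the complex

PROOF. `approx_ab` (H93/AB/Apx) for the letters `S`, the finite letters `v ∈ F`, `Γ v` finite, the spherical sets, the operators
`N τ v = 1` (`v ∈ F`), `N τ v` = the operator of `β_{T ∪ v, T}`, `T = τ \ F` (`v ∉ F`), `α τ` = the operator of `β_{T,∅}`.
-/

set_option autoImplicit false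
set_option linter.unusedSectionVars false

open Finset

namespace Pool.Agent.H65.AB

open H42.NU Pool.Agent.H4.FC Pool.Agent.H78.RC Pool.Agent.H93.AA Pool.Agent.H93.AB
open Pool.Agent.H73.LK (sub)
open Pool.Agent.H4.Atiyah (LL memlp_iff)
open Pool.Agent.H78.RA (BB ev ev_ext ev_smul Ex Eqv sg)
open Pool.Agent.H3.MX (Kop Kop_apply)

section pre

variable {S : Type} [Fintype S] [DecidableEq S] {M : CoxeterMatrix S} {F : Finset S}
  {Γ : S → Type} [∀ v, Group (Γ v)]

open Classical in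
/-- the elements of the finite vertex groups -/
private noncomputable def kf (F : Finset S) (Γ : S → Type) [∀ v, Group (Γ v)]
    (M : CoxeterMatrix S) (v : S) : Multiset (AG M F Γ) :=
  if h : v ∈ F ∧ Finite (Γ v) then
    (@Finset.univ (Γ v) (@Fintype.ofFinite _ h.2)).val.map (io M F v) else 0

private theorem kf_sum {v : S} (h : v ∈ F) (hv : Finite (Γ v)) (f : AG M F Γ → ℂ)
    (g : AG M F Γ) :
    ((kf F Γ M v).map fun a => f (g * a)).sum = ∑ᶠ x : Γ v, f (g * io M F v x) := by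
  let _ : Fintype (Γ v) := Fintype.ofFinite _
  unfold kf
  rw [dif_pos ⟨h, hv⟩, Multiset.map_map, finsum_eq_sum_of_fintype]
  rfl

private theorem kf_neg {v : S} (h : ¬ (v ∈ F ∧ Finite (Γ v))) : kf F Γ M v = 0 :=
  dif_neg h

private theorem mem_kf {v : S} {k : AG M F Γ} (hk : k ∈ kf F Γ M v) :
    (v ∈ F ∧ Finite (Γ v)) ∧ ∃ a : Γ v, io M F v a = k := by
  by_cases h : v ∈ F ∧ Finite (Γ v)
  · unfold kf at hk
    rw [dif_pos h] at hk
    obtain ⟨a, -, ha⟩ := Multiset.mem_map.1 hk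
    exact ⟨h, a, ha⟩
  · rw [kf_neg h] at hk
    exact absurd hk (Multiset.notMem_zero k)

private theorem kf_grp (v : S) (k : AG M F Γ) (hk : k ∈ kf F Γ M v) :
    (kf F Γ M v).map (fun l => k * l) = kf F Γ M v := by
  obtain ⟨h, a, rfl⟩ := mem_kf hk
  have := h.2
  let _ : Fintype (Γ v) := Fintype.ofFinite _
  have h0 : kf F Γ M v = (Finset.univ : Finset (Γ v)).val.map (io M F v) := by
    unfold kf
    rw [dif_pos h]
  rw [h0, Multiset.map_map]
  have h1 : ((Finset.univ : Finset (Γ v)).map (Equiv.mulLeft a).toEmbedding).val.map (io M F v) =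
      (Finset.univ : Finset (Γ v)).val.map (io M F v) := by
    rw [Finset.map_univ_equiv]
  rw [← h1, Finset.map_val, Multiset.map_map]
  refine Multiset.map_congr rfl fun x _ => ?_
  show io M F v a * io M F v x = io M F v (a * x)
  rw [map_mul]

/-- two elements of a spherical set, one of them in `F` -/
private theorem two_of_sph (hM : Mix M F) {σ : Finset S} (hσ : Sph M σ) {v s : S} (hv : v ∈ σ)
    (hs : s ∈ σ) (hvs : v ≠ s) (hvF : v ∈ F) : M v s = 2 := by
  rcases hM.two v hvF s (Ne.symm hvs) with h | h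
  · exact h
  · exact absurd h (sph_cl M σ hσ v hv s hs hvs).2

private theorem kf_com (hM : Mix M F) (y z : S) (hyz : y ≠ z)
    (hs : Sph M {y, z}) (k : AG M F Γ) (hk : k ∈ kf F Γ M y) (l : AG M F Γ)
    (hl : l ∈ kf F Γ M z) : k * l = l * k := by
  obtain ⟨hy, a, rfl⟩ := mem_kf hk
  obtain ⟨-, b, rfl⟩ := mem_kf hl
  exact io_io (two_of_sph hM hs (mem_insert_self _ _)
    (mem_insert_of_mem (mem_singleton_self _)) hyz hy.1) a b

/-- the cells with an infinite stabilizer carry no chains -/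
private theorem fin_of_chain {i : ℕ} {c : Finset S → Finset S → AG M F Γ → ℂ}
    (hc : IsChainAG M F Γ i c) {Q R : Finset S} {g : AG M F Γ} (h : c Q R g ≠ 0) {v : S}
    (hv : v ∈ Q) : v ∈ F ∧ Finite (Γ v) := by
  have hvF := (hc.supp Q R g h).1 hv
  refine ⟨hvF, ?_⟩
  by_contra hinf
  have hinf' : Infinite (Γ v) := not_finite_iff_infinite.1 hinf
  have h1 : Function.Injective fun x : Γ v => g * io M F v x := by
    intro x y hxy
    have h2 := congrArg (pj M F v) (mul_left_cancel hxy)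
    rwa [pj_same hvF, pj_same hvF] at h2
  have h2 := (hc.l2 Q R).comp_injective h1
  have h3 : ((fun g => ‖c Q R g‖ ^ 2) ∘ fun x : Γ v => g * io M F v x) =
      fun _ => ‖c Q R g‖ ^ 2 := by
    funext x
    show ‖c Q R (g * io M F v x)‖ ^ 2 = _
    rw [hc.inv Q R v hv x g]
  rw [h3] at h2
  have h4 := (summable_const_iff _).1 h2
  exact h (norm_eq_zero.1 (pow_eq_zero_iff (two_ne_zero) |>.1 h4))

/-- the lifts of the elements of a parabolic subgroup commute with the orthogonal groups -/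
private theorem lft_io {T : Finset S} {z : S} (hT : ∀ s ∈ T, M s z = 2) (a : Γ z) {w : M.Group}
    (hw : w ∈ par M T) : th M F Γ (lft M w) * io M F z a = io M F z a * th M F Γ (lft M w) := by
  have h2 : lft M w ∈ (Subgroup.centralizer {io M F z a}).comap (th M F Γ) := by
    refine (Subgroup.closure_le _).2 ?_ (lft_mem_gp M hw)
    rintro x ⟨s, hs, rfl⟩
    show th M F Γ (bgen M s) ∈ Subgroup.centralizer {io M F z a}
    rw [Subgroup.mem_centralizer_iff]
    intro y hy
    rw [Set.mem_singleton_iff.1 hy]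
    exact (th_io (hT s hs) a).symm
  have h3 : th M F Γ (lft M w) ∈ Subgroup.centralizer {io M F z a} := h2
  rw [Subgroup.mem_centralizer_iff] at h3
  exact (h3 _ rfl).symm

/-- the elements `Δ_T` have infinite order -/
private theorem ord_th (hM : Mix M F) {T : Finset S} (hT : Sph M T) (hTF : Disjoint T F)
    (hne : T.Nonempty) (n : ℕ) (hn : 0 < n) : th M F Γ (dlt M T) ^ n ≠ 1 := by
  intro h
  obtain ⟨r, hr, -⟩ := exists_ret hM Γ
  have h1 : r (th M F Γ (dlt M T)) = dlt M T := by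
    have h2 : Set.EqOn (r.comp (th M F Γ)) (MonoidHom.id (BG M))
        (Subgroup.closure {x : BG M | ∃ s ∈ T, x = bgen M s}) := by
      refine MonoidHom.eqOn_closure ?_
      rintro x ⟨s, hs, rfl⟩
      exact hr s fun hsF => disjoint_left.1 hTF hs hsF
    exact h2 (lft_mem_gp M (lw_spec M hT).1)
  have h3 := congrArg r h
  rw [map_pow, h1, map_one] at h3
  exact dlt_order M hT hne n hn h3

/-- the links -/
private theorem ex_lk (hM : Mix M F) {i : ℕ} (hG : ∀ T ⊆ F, Orth M T → HL (sub M (nb M T)) i)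
    {ν : S → ℕ} (hν : Function.Injective ν) (Q : Finset S) (hQ : ∀ y ∈ Q, y ∈ F) (hQs : Sph M Q) :
    Ex ℂ ν (fun σ => Disjoint Q σ ∧ Sph M (Q ∪ σ) ∧ σ.card = i)
      (fun σ => Disjoint Q σ ∧ Sph M (Q ∪ σ) ∧ σ.card = i + 1) := by
  have horth : Orth M Q := fun u hu v hv huv => two_of_sph hM hQs hu hv huv (hQ u hu)
  have hiff : ∀ j σ, (Disjoint Q σ ∧ Sph M (Q ∪ σ) ∧ σ.card = j) ↔
      (Sph M σ ∧ σ.card = j ∧ σ ⊆ nb M Q) := by
    intro j σ
    constructor
    · rintro ⟨h1, h2, h3⟩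
      refine ⟨h2.mono subset_union_right, h3, fun s hs => ?_⟩
      rw [mem_nb]
      intro v hv
      exact two_of_sph hM h2 (mem_union_left _ hv) (mem_union_right _ hs)
        (fun h => disjoint_left.1 h1 hv (h ▸ hs)) (hQ v hv)
    · rintro ⟨h1, h2, h3⟩
      refine ⟨?_, sph_union M hQs h1 fun j hj k hk => (mem_nb.1 (h3 hk)) j hj, h2⟩
      rw [disjoint_left]
      intro s hs hsσ
      have h4 := (mem_nb.1 (h3 hsσ)) s hs
      rw [M.diagonal] at h4
      exact absurd h4 (by norm_num)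
  have h1 := ex_sub (nb M Q) (hG Q (fun y hy => hQ y hy) horth) ν hν
  intro z hz1 hz2
  obtain ⟨y, hy1, hy2⟩ := h1 z (fun σ hσ => (hiff i σ).1 (hz1 σ hσ)) hz2
  exact ⟨y, fun σ hσ => (hiff (i + 1) σ).2 (hy1 σ hσ), hy2⟩

private theorem sg_cast' (ν : S → ℕ) (T : Finset S) (v : S) :
    ((sg ν T v : ℤ) : ℂ) = (-1) ^ (T.filter fun u => ν u < ν v).card := by
  unfold sg
  push_cast
  rfl

end pre

section main

variable {S : Type} [Fintype S] {M : CoxeterMatrix S} {F : Finset S} {Γ : S → Type}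
  [∀ v, Group (Γ v)]

open Classical in
/-- the operators of the directions -/
private noncomputable def nA (M : CoxeterMatrix S) (F : Finset S) (Γ : S → Type)
    [∀ v, Group (Γ v)] (τ : Finset S) (v : S) : BB (AG M F Γ) :=
  if v ∈ F then 1 else tS (th M F Γ) (insert v (τ \ F)) (τ \ F)

open Classical in
/-- the comparison operators -/
private noncomputable def alA (M : CoxeterMatrix S) (F : Finset S) (Γ : S → Type)
    [∀ v, Group (Γ v)] (τ : Finset S) : BB (AG M F Γ) := tS (th M F Γ) (τ \ F) ∅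

open Classical in
/-- the boundary of functions and of elements of `ℓ²` -/
private theorem ev_dF (ν : S → ℕ)
    (f : Finset S × Finset S → LL Unit (AG M F Γ)) (hf : ∀ p, f p ≠ 0 → ∀ y ∈ p.1, y ∈ F)
    (Q R : Finset S) (g : AG M F Γ) :
    ev g (dF ν (fun y => Kop (kf F Γ M y)) (nA M F Γ) f (Q, R)) =
      -bdAG M F Γ ν (fun Q R g => ev g (f (Q, R))) Q R g := by
  unfold dF bdAG
  rw [map_sum, ← sum_neg_distrib]
  refine sum_congr rfl fun v hv => ?_
  rw [ev_smul, sg_cast', ← mul_neg]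
  congr 1
  unfold Ty fc
  beta_reduce
  by_cases hvF : v ∈ F
  · rw [if_pos hvF]
    by_cases hvQ : v ∈ Q
    · rw [if_pos hvQ, if_pos hvQ]
      by_cases hfin : Finite (Γ v)
      · rw [if_pos hfin]
        have h := kf_sum (M := M) hvF hfin (fun a => ev a (f (Q.erase v, insert v R))) g
        show ev g (-(Kop (kf F Γ M v) (f (Q.erase v, insert v R)))) =
          -(∑ᶠ a : Γ v, ev (g * io M F v a) (f (Q.erase v, insert v R)))
        rw [map_neg, ← h]
        congr 1
        exact Kop_apply _ _ _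
      · rw [if_neg hfin, kf_neg fun h => hfin h.2, Pool.Agent.H3.MX.Kop_zero, neg_zero, neg_zero]
        exact map_zero _
    · rw [if_neg hvQ, if_neg hvQ, neg_neg, erase_eq_of_notMem hvQ]
      unfold nA
      rw [if_pos hvF]
      rfl
  · rw [if_neg hvF]
    by_cases hvQ : v ∈ Q
    · have h0 : ∀ R', f (Q, R') = 0 := by
        intro R'
        by_contra h
        exact hvF (hf _ h v hvQ)
      rw [if_pos hvQ, kf_neg fun h => hvF h.1, Pool.Agent.H3.MX.Kop_zero, neg_zero]
      unfold bS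
      simp only [h0, map_zero, mul_zero, sum_const_zero, neg_zero]
      exact map_zero _
    · rw [if_neg hvQ, neg_neg, erase_eq_of_notMem hvQ]
      unfold nA
      rw [if_neg hvF, tS_apply]
      rfl

open Classical in
private theorem bdAG_neg (ν : S → ℕ) (c : Finset S → Finset S → AG M F Γ → ℂ) (Q R : Finset S)
    (g : AG M F Γ) :
    bdAG M F Γ ν (fun Q R g => -c Q R g) Q R g = -bdAG M F Γ ν c Q R g := by
  unfold bdAG bS
  rw [← sum_neg_distrib]
  refine sum_congr rfl fun v _ => ?_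
  rw [← mul_neg]
  congr 1
  split_ifs
  · exact finsum_neg_distrib _
  · exact neg_zero.symm
  · rfl
  · congr 1
    rw [← sum_neg_distrib]
    exact sum_congr rfl fun w _ => mul_neg _ _

private theorem main [dS : DecidableEq S] (hM : Mix M F) {i : ℕ}
    (hG : ∀ T ⊆ F, Orth M T → HL (sub M (nb M T)) i) : L2ZeroAG M F Γ i := by
  have hd : dS = fun a b => Classical.propDecidable (a = b) := Subsingleton.elim _ _
  subst hd
  classical
  intro ν hν z hz hb ε hε
  have hK : ∀ σ τ : Finset S, τ ⊆ σ → Sph M σ → Sph M τ := fun σ τ h hσ => hσ.mono h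
  have hz2 : IsF2 (Ac (fun v => v ∈ F ∧ Finite (Γ v)) (Sph M) fun n => n = i)
      (fun (p : Finset S × Finset S) (g : AG M F Γ) => z p.1 p.2 g) := by
    refine ⟨fun p g hne => ?_, fun p => hz.l2 p.1 p.2⟩
    obtain ⟨h1, h2, h3, h4⟩ := hz.supp p.1 p.2 g hne
    exact ⟨⟨fun y hy => fin_of_chain hz hne hy, h2, h3⟩, h4⟩
  -- facts on the operators
  have hNe : ∀ τ y, Eqv (nA M F Γ τ y) := by
    intro τ y
    unfold nA
    split_ifs
    · exact Eqv.one
    · exact eqv_tS _ _ _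
  have hN1 : ∀ τ y, y ∈ F ∧ Finite (Γ y) → nA M F Γ τ y = 1 := fun τ y hy => if_pos hy.1
  have hmul : ∀ τ y, y ∉ τ → Sph M (insert y τ) →
      alA M F Γ (insert y τ) = alA M F Γ τ * nA M F Γ τ y := by
    intro τ y _ hs
    unfold alA nA
    by_cases hy : y ∈ F
    · rw [if_pos hy, mul_one, insert_sdiff_of_mem _ hy]
    · rw [if_neg hy, insert_sdiff_of_notMem _ hy]
      refine tS_mul _ (hs.mono ?_) (subset_insert _ _) (empty_subset _)
      exact insert_subset_insert _ sdiff_subset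
  have hinj : ∀ σ, Sph M σ → ∀ x, alA M F Γ σ x = 0 → x = 0 := by
    intro σ hσ x hx
    refine tS_inj _ (σ \ F) (hσ.mono sdiff_subset) (fun T hT hne n hn => ?_) x hx
    exact ord_th hM (hσ.mono (hT.trans sdiff_subset)) (sdiff_disjoint.mono_left hT) hne n hn
  have hRN : ∀ τ y z, y ∉ τ → z ∉ τ → z ≠ y → Sph M (insert z (insert y τ)) →
      ∀ k ∈ kf F Γ M z, ∀ x, Rt k (nA M F Γ τ y x) = nA M F Γ τ y (Rt k x) := by
    intro τ y z _ hzτ hzy hs k hk x
    obtain ⟨⟨hzF, -⟩, a, rfl⟩ := mem_kf hk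
    unfold nA
    by_cases hy : y ∈ F
    · rw [if_pos hy]
      rfl
    · rw [if_neg hy]
      have hT : Sph M (insert y (τ \ F)) := hs.mono
        ((insert_subset_insert _ sdiff_subset).trans (subset_insert _ _))
      refine Rt_tS _ _ (fun w hw => ?_) x
      refine lft_io (T := insert y (τ \ F)) (fun s hsT => ?_) a
        (by rw [par_eq_WP]; exact ((mem_mn hT).1 hw).1)
      rw [M.symmetric]
      have hs2 : s ∈ insert z (insert y τ) := by
        refine mem_insert_of_mem ?_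
        rcases mem_insert.1 hsT with h | h
        · exact h ▸ mem_insert_self _ _
        · exact mem_insert_of_mem (mem_sdiff.1 h).1
      refine two_of_sph hM hs (mem_insert_self _ _) hs2 (fun h => ?_) hzF
      rcases mem_insert.1 hsT with h1 | h1
      · exact hzy (h.trans h1)
      · exact (mem_sdiff.1 h1).2 (h ▸ hzF)
  have hRα : ∀ τ z, z ∉ τ → Sph M (insert z τ) → ∀ k ∈ kf F Γ M z, ∀ x,
      Rt k (alA M F Γ τ x) = alA M F Γ τ (Rt k x) := by
    intro τ z hzτ hs k hk x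
    obtain ⟨⟨hzF, -⟩, a, rfl⟩ := mem_kf hk
    have hT : Sph M (τ \ F) := hs.mono (sdiff_subset.trans (subset_insert _ _))
    refine Rt_tS _ _ (fun w hw => ?_) x
    refine lft_io (T := τ \ F) (fun s hsT => ?_) a
      (by rw [par_eq_WP]; exact ((mem_mn hT).1 hw).1)
    rw [M.symmetric]
    exact two_of_sph hM hs (mem_insert_self _ _) (mem_insert_of_mem (mem_sdiff.1 hsT).1)
      (fun h => (mem_sdiff.1 hsT).2 (h ▸ hzF)) hzF
  have hE0 : ∀ y, ¬ (y ∈ F ∧ Finite (Γ y)) → (Kop (kf F Γ M y) : BB (AG M F Γ)) = 0 :=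
    fun y hy => by rw [kf_neg hy, Pool.Agent.H3.MX.Kop_zero]
  -- the cycle
  have hx : toQ _ hz2 ∈ Xq (kf F Γ M) (Ac (fun v => v ∈ F ∧ Finite (Γ v)) (Sph M) fun n => n = i) := by
    rw [mem_Xq]
    intro p
    rw [mem_VQ]
    intro y hy k hk
    obtain ⟨-, a, rfl⟩ := mem_kf hk
    apply ev_ext
    intro g
    show Rt (io M F y a) (cq _ (toQ _ hz2) p) ((), g) = _
    rw [Rt_apply]
    show ev (g * io M F y a) (cq _ (toQ _ hz2) p) = _
    rw [ev_toQ, ev_toQ]
    exact hz.inv p.1 p.2 y hy a g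
  have hdx : Dq ν (fun y => Kop (kf F Γ M y)) (nA M F Γ)
      (Ac (fun v => v ∈ F ∧ Finite (Γ v)) (Sph M) fun n => n = i)
      (Ac (fun v => v ∈ F ∧ Finite (Γ v)) (Sph M) fun n => n + 1 = i) (toQ _ hz2) = 0 := by
    apply cq_ext
    rintro ⟨Q, R⟩
    rw [cq_Dq (F := fun v => v ∈ F ∧ Finite (Γ v)) (c := fun n => n = i) (c' := fun n => n + 1 = i) hK hE0
      (fun n hn => hn), cq_zero]
    apply ev_ext
    intro g
    rw [ev_dF ν _ (fun p hp y hy => ((cq_supp _ p hp).1.1 y hy).1), map_zero]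
    simp only [ev_toQ]
    rw [hb, neg_zero]
  obtain ⟨y, hy, hlt⟩ := approx_ab hν (F := fun v => v ∈ F ∧ Finite (Γ v)) hK (fun y hy => kf_neg hy)
    (fun v k hk => kf_grp v k hk) (fun y z hyz hs k hk l hl => kf_com hM y z hyz hs k hk l hl)
    (nA M F Γ) (alA M F Γ) hNe (fun _ => eqv_tS _ _ _) hN1 hmul hinj hRN hRα
    (fun Q hQ hQs => ex_lk hM hG hν Q (fun y hy => (hQ y hy).1) hQs) (toQ _ hz2) hx hdx (Real.sqrt ε)
    (Real.sqrt_pos.2 hε)
  refine ⟨fun Q R g => -ev g (cq _ y (Q, R)), ⟨fun Q R g hne => ?_, fun Q R v hv a g => ?_,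
    fun Q R => ?_⟩, ?_⟩
  · have h1 : cq _ y (Q, R) ≠ 0 := by
      intro h0
      apply hne
      rw [h0, map_zero, neg_zero]
    obtain ⟨⟨h2, h3, h4⟩, h5⟩ := cq_supp y _ h1
    exact ⟨fun y hy => (h2 y hy).1, h3, h4, h5⟩
  · congr 1
    have h1 := (mem_VQ.1 (mem_Xq.1 hy (Q, R))) v hv (io M F v a)
    by_cases hvF : v ∈ F ∧ Finite (Γ v)
    · have h2 : io M F v a ∈ kf F Γ M v := by
        unfold kf
        rw [dif_pos hvF]
        exact Multiset.mem_map_of_mem _
          (@Finset.mem_univ_val _ (@Fintype.ofFinite _ hvF.2) a)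
      have h3 := congrArg (ev g) (h1 h2)
      rw [← h3]
      exact (Rt_apply _ _ _).symm
    · have h2 : cq _ y (Q, R) = 0 := by
        by_contra h
        exact hvF ((cq_supp y _ h).1.1 v hv)
      rw [h2, map_zero, map_zero]
  · simp only [norm_neg]
    exact (isF2_cq _ y).l2 (Q, R)
  · have h2 : ∀ Q R g, z Q R g - bdAG M F Γ ν (fun Q R g => -ev g (cq _ y (Q, R))) Q R g =
        ev g (cq (Ac (fun v => v ∈ F ∧ Finite (Γ v)) (Sph M) fun n => n = i) (toQ _ hz2 -
          Dq ν (fun y => Kop (kf F Γ M y)) (nA M F Γ)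
          (Ac (fun v => v ∈ F ∧ Finite (Γ v)) (Sph M) fun n => n = i + 1)
          (Ac (fun v => v ∈ F ∧ Finite (Γ v)) (Sph M) fun n => n = i) y) (Q, R)) := by
      intro Q R g
      rw [cq_sub, map_sub, ev_toQ, cq_Dq (F := fun v => v ∈ F ∧ Finite (Γ v)) (c := fun n => n = i + 1)
        (c' := fun n => n = i) hK hE0 (fun n hn => by
        have : n + 1 = i + 1 := hn
        omega), ev_dF ν _ (fun p hp y hy => ((cq_supp _ p hp).1.1 y hy).1), bdAG_neg]
    simp_rw [h2]
    rw [← Finset.sum_product', Finset.univ_product_univ]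
    rw [norm_sq_cq (Ac (fun v => v ∈ F ∧ Finite (Γ v)) (Sph M) fun n => n = i)]
    calc _ < Real.sqrt ε ^ 2 := by gcongr
      _ = ε := Real.sq_sqrt hε.le

end main

/-- **Theorem L2.** -/
theorem l2zeroAG_of_hl {S : Type} [Fintype S] [DecidableEq S] {M : CoxeterMatrix S} {F : Finset S}
    {Γ : S → Type} [∀ v, Group (Γ v)] (hM : Mix M F) {i : ℕ}
    (hG : ∀ T ⊆ F, Orth M T → HL (sub M (nb M T)) i) : L2ZeroAG M F Γ i :=
  main hM hG

end Pool.Agent.H65.AB
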