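import Pool.Agent.H65.AB.Defs
import Pool.Agent.H65.BU.Kill
import Pool.Agent.H65.BU.Cox

/-!
# Project AB: a lemma on right-angled Coxeter groups

PROOF of `comm_of_comm`: strong induction on the length with `Facts.step`: `w = w' s_u`, `u` adjacent to `y`, `u ∈ FF`,
so `u` is adjacent to `z`, `w'` in `wf`.
PROOF of `lemB`: let `C` = centraliser of `s_z`, `P` = subgroup of the letters adjacent to `z`. An element of `C` without
the letter `z` is in `P`. Let `w_1` be of minimal length in `w P`. `w_1 ≠ 1` as `w ∉ C`, so there is `v ∈ fst w_1`. For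
`y ∈ P`: `v ∈ fst (w_1 y)`: if `v ∈ fst (w_1 y')`, `v ∉ fst (w_1 y' s_u)`, then `s_v w_1 y' = w_1 y' s_u` (`exch`), so
`s_v w_1 = w_1 (y' s_u y'⁻¹) ∈ w_1 P`, shorter than `w_1`. So `v ∈ fst w`, `v ∈ fst w'`. If `w⁻¹ r w ∈ C`, write
`w = w_1 y`: `r w = r w_1 r y`, `r y ∈ P`, `r w_1 ∈ w_1 P`, but `ℓ (r w_1) < ℓ w_1`. The same for `w'`.
-/

set_option autoImplicit false
set_option linter.unusedSectionVars false

open Finset

namespace Pool.Agent.H65.AB

open Pool.Agent.H65.RA Pool.Agent.H65.BU

variable {V W : Type} [Fintype V] [DecidableEq V] [Group W] {M : CoxeterMatrix V}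

/-- the subgroup of the letters in `S` -/
private def WS (cs : CoxeterSystem M W) (S : Set V) : Subgroup W := Subgroup.closure (cs.simple '' S)

private theorem simple_mem (cs : CoxeterSystem M W) {S : Set V} {u : V} (hu : u ∈ S) : cs.simple u ∈ WS cs S :=
  Subgroup.subset_closure ⟨u, hu, rfl⟩

private theorem WS_mono (cs : CoxeterSystem M W) {S T : Set V} (h : S ⊆ T) : WS cs S ≤ WS cs T :=
  Subgroup.closure_mono (Set.image_mono h)

/-- induction from the right -/
private theorem WS_induction (cs : CoxeterSystem M W) {S : Set V} {p : W → Prop} (h1 : p 1)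
    (hs : ∀ x, x ∈ WS cs S → p x → ∀ u ∈ S, p (x * cs.simple u)) {x : W} (hx : x ∈ WS cs S) : p x := by
  refine Subgroup.closure_induction_right (p := fun x _ => p x) h1 ?_ ?_ hx
  · rintro x hx y ⟨u, hu, rfl⟩ h
    exact hs x hx h u hu
  · rintro x hx y ⟨u, hu, rfl⟩ h
    rw [cs.inv_simple]
    exact hs x hx h u hu

/-- a homomorphism which kills a letter -/
private def IsKill (cs : CoxeterSystem M W) (v : V) (r : W →* W) : Prop :=
  ∀ u, r (cs.simple u) = if u = v then 1 else cs.simple u

private theorem kill_word (cs : CoxeterSystem M W) {v : V} {r : W →* W} (hs : IsKill cs v r) (ω : List V) :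
    r (cs.wordProd ω) = cs.wordProd (ω.filter fun u => u ≠ v) := by
  induction ω with
  | nil => simp
  | cons u ω ih =>
    rw [cs.wordProd_cons, map_mul, hs, ih]
    by_cases hu : u = v
    · rw [if_pos hu, one_mul, List.filter_cons_of_neg (by simp [hu])]
    · rw [if_neg hu, List.filter_cons_of_pos (by simp [hu]), cs.wordProd_cons]

private theorem kill_length (cs : CoxeterSystem M W) {v : V} {r : W →* W} (hs : IsKill cs v r) (w : W) :
    cs.length (r w) ≤ cs.length w := by
  obtain ⟨ω, hω, rfl⟩ := cs.exists_isReduced w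
  rw [kill_word cs hs, hω.eq]
  exact (cs.length_wordProd_le _).trans (List.length_filter_le _ _)

private theorem kill_mem (cs : CoxeterSystem M W) {v : V} {r : W →* W} (hs : IsKill cs v r) {S : Set V} {x : W}
    (hx : x ∈ WS cs S) : r x ∈ WS cs S := by
  refine WS_induction cs (p := fun x => r x ∈ WS cs S) ?_ ?_ hx
  · rw [map_one]
    exact one_mem _
  · intro x _ h u hu
    rw [map_mul, hs]
    refine mul_mem h ?_
    split_ifs
    · exact one_mem _
    · exact simple_mem cs hu

private theorem kill_fix (cs : CoxeterSystem M W) {v : V} {r : W →* W} (hs : IsKill cs v r) {S : Set V}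
    (hv : v ∉ S) {x : W} (hx : x ∈ WS cs S) : r x = x := by
  refine WS_induction cs (p := fun x => r x = x) (map_one r) ?_ hx
  intro x _ h u hu
  rw [map_mul, h, hs, if_neg]
  rintro rfl
  exact hv hu

/-- an element without the letter `X` has not the first letter `X` -/
private theorem not_fst {G : SimpleGraph V} (hM : RA G M) (cs : CoxeterSystem M W) {S : Set V} {X : V} (hX : X ∉ S) {x : W}
    (hx : x ∈ WS cs S) : X ∉ fst cs x := by
  obtain ⟨r, hr, h⟩ := exists_kill hM cs X
  have := h x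
  rwa [kill_fix cs hr hX hx] at this

/-- the letters adjacent to `X` generate the centralizer, up to `X` -/
private theorem mem_of_comm {G : SimpleGraph V} {cs : CoxeterSystem M W} (hF : Facts G cs) {X : V} :
    ∀ (n : ℕ) (x : W), cs.length x = n → X ∉ fst cs x → cs.simple X * x = x * cs.simple X →
      x ∈ WS cs {u | G.Adj u X} := by
  intro n
  induction n with
  | zero =>
    intro x hx _ _
    rw [cs.length_eq_zero_iff.1 hx]
    exact one_mem _
  | succ n ih =>
    intro x hx h1 h2
    have hx1 : x ≠ 1 := by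
      rintro rfl
      rw [cs.length_one] at hx
      omega
    obtain ⟨x', u, h3, h4, h5, h6, h7⟩ := hF.step x X h2 h1 hx1
    rw [h3]
    exact mul_mem (ih x' (by omega) h7 h6) (simple_mem cs h5)

private theorem comm_of_mem {G : SimpleGraph V} {cs : CoxeterSystem M W} (hF : Facts G cs) {X : V} {x : W}
    (hx : x ∈ WS cs {u | G.Adj u X}) : cs.simple X * x = x * cs.simple X := by
  refine WS_induction cs (p := fun x => cs.simple X * x = x * cs.simple X) (by simp) ?_ hx
  intro x _ h u hu
  rw [← mul_assoc, h, mul_assoc, ← hF.comm u X hu, mul_assoc]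

/-- the first letters of a shortest element of a coset stay -/
private theorem fst_stay {G : SimpleGraph V} {cs : CoxeterSystem M W} (hF : Facts G cs) {S : Set V} {w₁ : W}
    (hmin : ∀ y ∈ WS cs S, cs.length w₁ ≤ cs.length (w₁ * y)) {v : V} (hv : v ∈ fst cs w₁) {y : W}
    (hy : y ∈ WS cs S) : v ∈ fst cs (w₁ * y) := by
  have hlen : cs.length (cs.simple v * w₁) < cs.length w₁ := by
    classical
    unfold fst at hv
    exact (mem_filter.1 hv).2
  refine WS_induction cs (p := fun y => v ∈ fst cs (w₁ * y)) (by rwa [mul_one]) ?_ hy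
  intro y hy h u hu
  by_contra hn
  have h1 := hF.exch (w₁ * (y * cs.simple u)) u v hn (by
    rw [← mul_assoc, cs.simple_mul_simple_cancel_right]
    exact h)
  have h2 : cs.simple v * w₁ = w₁ * (y * cs.simple u * y⁻¹) := by
    have h3 : cs.simple v * w₁ * (y * cs.simple u) = w₁ * y := by
      rw [mul_assoc, h1, ← mul_assoc, cs.simple_mul_simple_cancel_right]
    have h4 : cs.simple v * w₁ = w₁ * y * (y * cs.simple u)⁻¹ := eq_mul_inv_of_mul_eq h3
    rw [h4, mul_inv_rev, cs.inv_simple]
    simp only [mul_assoc]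
  have h5 := hmin _ (mul_mem (mul_mem hy (simple_mem cs hu)) (inv_mem hy))
  rw [← h2] at h5
  omega

/-- Lemma B for the subgroup of all letters but one -/
private theorem lemB_aux {G : SimpleGraph V} (hM : RA G M) {cs : CoxeterSystem M W} (hF : Facts G cs) {X : V} {w w' : W}
    (hw : w ∈ WS cs {u | u ≠ X}) (hw' : w' ∈ WS cs {u | u ≠ X})
    (hc : cs.simple X * (w⁻¹ * w') = w⁻¹ * w' * cs.simple X)
    (hn : cs.simple X * w ≠ w * cs.simple X) :
    ∃ v ∈ fst cs w, v ∈ fst cs w' ∧ ∀ r : W →* W, IsKill cs v r →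
      cs.simple X * (w⁻¹ * r w) ≠ w⁻¹ * r w * cs.simple X ∧
      cs.simple X * (w'⁻¹ * r w') ≠ w'⁻¹ * r w' * cs.simple X := by
  classical
  set Q := WS cs {u | u ≠ X} with hQ
  set P := WS cs {u | G.Adj u X} with hP
  have hXQ : X ∉ {u : V | u ≠ X} := fun h => h rfl
  have hPQ : P ≤ Q := WS_mono cs fun u (hu : G.Adj u X) => hu.ne
  have hmem : ∀ x ∈ Q, cs.simple X * x = x * cs.simple X → x ∈ P := fun x hx h =>
    mem_of_comm hF _ x rfl (not_fst hM cs hXQ hx) h
  obtain ⟨z, hz, hmin⟩ : ∃ z ∈ P, ∀ y ∈ P, cs.length (w * z) ≤ cs.length (w * y) := by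
    have hne : ∃ n, ∃ z ∈ P, cs.length (w * z) = n := ⟨_, 1, one_mem _, rfl⟩
    obtain ⟨z, hz, hz2⟩ := Nat.find_spec hne
    refine ⟨z, hz, fun y hy => ?_⟩
    rw [hz2]
    exact Nat.find_min' hne ⟨y, hy, rfl⟩
  set w₁ := w * z with hw₁
  have hmin1 : ∀ y ∈ P, cs.length w₁ ≤ cs.length (w₁ * y) := by
    intro y hy
    have := hmin (z * y) (mul_mem hz hy)
    rwa [← mul_assoc] at this
  have hw₁Q : w₁ ∈ Q := mul_mem hw (hPQ hz)
  have h1 : w₁ ≠ 1 := by
    intro h
    refine hn (comm_of_mem hF ?_)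
    have : w = z⁻¹ := eq_inv_of_mul_eq_one_left h
    rw [this]
    exact inv_mem hz
  obtain ⟨v, hv⟩ := cs.exists_leftDescent_of_ne_one h1
  have hvf : v ∈ fst cs w₁ := by
    unfold fst
    rw [mem_filter]
    exact ⟨mem_univ v, hv⟩
  have hvX : v ≠ X := by
    rintro rfl
    exact not_fst hM cs hXQ hw₁Q hvf
  have hshort : ∀ r : W →* W, IsKill cs v r → ∀ x y, x = w₁ * y → y ∈ P →
      cs.simple X * (x⁻¹ * r x) ≠ x⁻¹ * r x * cs.simple X := by
    intro r hr x y hx hy he
    have hxQ : x ∈ Q := by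
      rw [hx]
      exact mul_mem hw₁Q (hPQ hy)
    have h2 : x⁻¹ * r x ∈ P := hmem _ (mul_mem (inv_mem hxQ) (kill_mem cs hr hxQ)) he
    have h3 : w₁⁻¹ * r w₁ = y * (x⁻¹ * r x) * (r y)⁻¹ := by
      have e1 : r x = r w₁ * r y := by rw [hx, map_mul]
      have e2 : x⁻¹ = y⁻¹ * w₁⁻¹ := by rw [hx, mul_inv_rev]
      rw [e1, e2]
      simp only [mul_assoc, mul_inv_cancel_left, mul_inv_cancel, mul_one]
    have h4 : w₁⁻¹ * r w₁ ∈ P := by
      rw [h3]
      exact mul_mem (mul_mem hy h2) (inv_mem (kill_mem cs hr hy))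
    have h5 := hmin1 _ h4
    rw [mul_inv_cancel_left] at h5
    have h6 : r (cs.simple v * w₁) = r w₁ := by
      rw [map_mul, hr v, if_pos rfl, one_mul]
    have h7 := kill_length cs hr (cs.simple v * w₁)
    have h8 : cs.length (cs.simple v * w₁) < cs.length w₁ := hv
    rw [h6] at h7
    omega
  have hww : w = w₁ * z⁻¹ := by
    rw [hw₁, mul_inv_cancel_right]
  have hww' : w' = w₁ * (z⁻¹ * (w⁻¹ * w')) := by
    rw [hw₁]
    group
  have hzz : z⁻¹ * (w⁻¹ * w') ∈ P := mul_mem (inv_mem hz) (hmem _ (mul_mem (inv_mem hw) hw') hc)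
  refine ⟨v, ?_, ?_, fun r hr => ⟨hshort r hr w _ hww (inv_mem hz), hshort r hr w' _ hww' hzz⟩⟩
  · rw [hww]
    exact fst_stay hF hmin1 hvf (inv_mem hz)
  · rw [hww']
    exact fst_stay hF hmin1 hvf hzz

private theorem wf_eq (cs : CoxeterSystem M W) (FF : Finset V) : wf cs FF = WS cs (FF : Set V) := by
  unfold wf WS
  congr 1
  ext x
  constructor
  · rintro ⟨v, hv, rfl⟩
    exact ⟨v, hv, rfl⟩
  · rintro ⟨v, hv, rfl⟩
    exact ⟨v, hv, rfl⟩

variable {G : SimpleGraph V} {cs : CoxeterSystem M W} {FF : Finset V}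

/-- two letters with the same neighbours in `FF` -/
theorem comm_of_comm (hM : RA G M) {y z : V} (hy : y ∉ FF) (hz : z ∉ FF)
    (h : ∀ v ∈ FF, G.Adj v y → G.Adj v z) {w : W} (hw : w ∈ wf cs FF)
    (hc : cs.simple y * w = w * cs.simple y) : cs.simple z * w = w * cs.simple z := by
  have hF := facts_of_ra hM cs
  have key : ∀ (n : ℕ) (x : W), cs.length x = n → x ∈ WS cs (FF : Set V) →
      cs.simple y * x = x * cs.simple y → cs.simple z * x = x * cs.simple z := by
    intro n
    induction n with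
    | zero =>
      intro x hx _ _
      rw [cs.length_eq_zero_iff.1 hx, mul_one, one_mul]
    | succ n ih =>
      intro x hx hxF h2
      have hx1 : x ≠ 1 := by
        rintro rfl
        rw [cs.length_one] at hx
        omega
      obtain ⟨x', u, h3, h4, h5, h6, h7⟩ := hF.step x y h2 (not_fst hM cs (by simpa using hy) hxF) hx1
      have hu : u ∈ FF := by
        by_contra hu
        have h8 := not_fst hM cs (S := (FF : Set V)) (X := u) (by simpa using hu) (inv_mem hxF)
        apply h8
        classical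
        unfold fst
        rw [mem_filter]
        refine ⟨mem_univ u, ?_⟩
        rw [cs.isLeftDescent_inv_iff]
        show cs.length (x * cs.simple u) < cs.length x
        rw [h3, cs.simple_mul_simple_cancel_right, ← h3]
        omega
      have hx' : x' ∈ WS cs (FF : Set V) := by
        have : x' = x * cs.simple u := by rw [h3, cs.simple_mul_simple_cancel_right]
        rw [this]
        exact mul_mem hxF (simple_mem cs (by simpa using hu))
      rw [h3, ← mul_assoc, ih x' (by omega) hx' h6, mul_assoc, ← hF.comm u z (h u hu h5), mul_assoc]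
  rw [wf_eq] at hw
  exact key _ w rfl hw hc

/-- **Lemma B.** -/
theorem lemB (hM : RA G M) {z : V} (hz : z ∉ FF) {w w' : W} (hw : w ∈ wf cs FF)
    (hw' : w' ∈ wf cs FF) (hc : cs.simple z * (w⁻¹ * w') = w⁻¹ * w' * cs.simple z)
    (hn : ¬ (cs.simple z * w = w * cs.simple z)) :
    ∃ v ∈ fst cs w, v ∈ fst cs w' ∧ ∀ r : W →* W,
      (∀ u, r (cs.simple u) = if u = v then 1 else cs.simple u) →
      ¬ (cs.simple z * (w⁻¹ * r w) = w⁻¹ * r w * cs.simple z) ∧
      ¬ (cs.simple z * (w'⁻¹ * r w') = w'⁻¹ * r w' * cs.simple z) := by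
  have hs : (FF : Set V) ⊆ {u | u ≠ z} := by
    rintro u hu rfl
    exact hz (by simpa using hu)
  rw [wf_eq] at hw hw'
  exact lemB_aux hM (facts_of_ra hM cs) (WS_mono cs hs hw) (WS_mono cs hs hw') hc hn

end Pool.Agent.H65.AB
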