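import Pool.Agent.H65.AB.Defs
import Pool.Agent.H65.BU.Kill
import Pool.Agent.H65.BU.Cox

/-!
# Project AB: right-angled Coxeter groups with an additional letter

PROOF of `wf_inter`: the last letter of an element of `wf cs A` is in `A`; induction on the length. `i` by `cs.lift`; there
is a homomorphism `ρ : D → W` which kills the new letter `τ` and maps `simple (some v)` to `simple v`, so `ρ (i y) = y`. If
`τ` commutes with `i y`: `i y` has no letter `τ`, so it is a product of letters adjacent to `τ` (`Facts.step`, as in LemB),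
`y = ρ (i y)` is a product of letters `v` with `Q v`.
-/

set_option autoImplicit false
set_option linter.unusedSectionVars false

open Finset

namespace Pool.Agent.H65.AB

open Pool.Agent.H65.RA Pool.Agent.H65.BU

variable {V W D : Type} [Fintype V] [DecidableEq V] [Group W] [Group D] {M : CoxeterMatrix V}
  {G : SimpleGraph V} {cs : CoxeterSystem M W}

/-- the graph with an additional vertex, adjacent to the vertices with `Q` -/
def exG {V : Type} (G : SimpleGraph V) (Q : V → Prop) : SimpleGraph (Option V) where
  Adj x y := match x, y with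
    | some u, some v => G.Adj u v
    | some u, none => Q u
    | none, some v => Q v
    | none, none => False
  symm := ⟨fun x y h => by
    cases x <;> cases y
    · exact h
    · exact h
    · exact h
    · exact SimpleGraph.Adj.symm (G := G) h⟩
  loopless := ⟨fun x h => by
    cases x
    · exact h
    · exact G.loopless.irrefl _ h⟩

/-- the subgroup of the letters in `S` -/
private def lcS (cs : CoxeterSystem M W) (S : Set V) : Subgroup W := Subgroup.closure (cs.simple '' S)

private theorem lc_simple (cs : CoxeterSystem M W) {S : Set V} {u : V} (hu : u ∈ S) :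
    cs.simple u ∈ lcS cs S :=
  Subgroup.subset_closure ⟨u, hu, rfl⟩

/-- induction from the right -/
private theorem lc_induction (cs : CoxeterSystem M W) {S : Set V} {p : W → Prop} (h1 : p 1)
    (hs : ∀ x, x ∈ lcS cs S → p x → ∀ u ∈ S, p (x * cs.simple u)) {x : W} (hx : x ∈ lcS cs S) : p x := by
  refine Subgroup.closure_induction_right (p := fun x _ => p x) h1 ?_ ?_ hx
  · rintro x hx y ⟨u, hu, rfl⟩ h
    exact hs x hx h u hu
  · rintro x hx y ⟨u, hu, rfl⟩ h
    rw [cs.inv_simple]
    exact hs x hx h u hu

private theorem lc_eq (cs : CoxeterSystem M W) (FF : Finset V) : wf cs FF = lcS cs (FF : Set V) := by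
  unfold wf lcS
  congr 1
  ext x
  constructor
  · rintro ⟨v, hv, rfl⟩
    exact ⟨v, hv, rfl⟩
  · rintro ⟨v, hv, rfl⟩
    exact ⟨v, hv, rfl⟩

/-- an element without the letter `X` has not the first letter `X` -/
private theorem lc_not_fst (hM : RA G M) (cs : CoxeterSystem M W) {S : Set V} {X : V} (hX : X ∉ S)
    {x : W} (hx : x ∈ lcS cs S) : X ∉ fst cs x := by
  obtain ⟨r, hr, h⟩ := exists_kill hM cs X
  have h1 : r x = x := by
    refine lc_induction cs (p := fun x => r x = x) (map_one r) ?_ hx
    intro x _ h u hu
    rw [map_mul, h, hr, if_neg]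
    rintro rfl
    exact hX hu
  have h2 := h x
  rwa [h1] at h2

/-- the last letter -/
private theorem lc_last (hM : RA G M) (cs : CoxeterSystem M W) {S : Set V} {x : W} (hx : x ∈ lcS cs S)
    {u : V} (hu : cs.length (x * cs.simple u) < cs.length x) : u ∈ S := by
  classical
  by_contra h
  apply lc_not_fst hM cs h (inv_mem hx)
  unfold fst
  rw [mem_filter]
  refine ⟨mem_univ u, ?_⟩
  rw [cs.isLeftDescent_inv_iff]
  exact hu

private theorem lc_inter (hM : RA G M) (cs : CoxeterSystem M W) {S T : Set V} : ∀ (n : ℕ) (x : W),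
    cs.length x = n → x ∈ lcS cs S → x ∈ lcS cs T → x ∈ lcS cs (S ∩ T) := by
  intro n
  induction n with
  | zero =>
    intro x hx _ _
    rw [cs.length_eq_zero_iff.1 hx]
    exact one_mem _
  | succ n ih =>
    intro x hx hS hT
    have hx1 : x ≠ 1 := by
      rintro rfl
      rw [cs.length_one] at hx
      omega
    obtain ⟨u, hu⟩ := cs.exists_rightDescent_of_ne_one hx1
    have hu' : cs.length (x * cs.simple u) < cs.length x := hu
    have h1 := lc_last hM cs hS hu'
    have h2 := lc_last hM cs hT hu'
    have h3 : cs.length (x * cs.simple u) = n := by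
      have := cs.length_mul_simple x u
      omega
    have h4 := ih _ h3 (mul_mem hS (lc_simple cs h1)) (mul_mem hT (lc_simple cs h2))
    have h5 := mul_mem h4 (lc_simple cs (S := S ∩ T) ⟨h1, h2⟩)
    rwa [cs.simple_mul_simple_cancel_right] at h5

/-- the letters adjacent to `X` generate the centralizer, up to `X` -/
private theorem lc_comm (hF : Facts G cs) {X : V} : ∀ (n : ℕ) (x : W), cs.length x = n →
    X ∉ fst cs x → cs.simple X * x = x * cs.simple X → x ∈ lcS cs {u | G.Adj u X} := by
  intro n
  induction n with
  | zero =>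
    intro x hx _ _
    rw [cs.length_eq_zero_iff.1 hx]
    exact one_mem _
  | succ n ih =>
    intro x hx h1 h2
    have hx1 : x ≠ 1 := by
      rintro rfl
      rw [cs.length_one] at hx
      omega
    obtain ⟨x', u, h3, h4, h5, h6, h7⟩ := hF.step x X h2 h1 hx1
    rw [h3]
    exact mul_mem (ih x' (by omega) h7 h6) (lc_simple cs h5)

theorem wf_inter (hM : RA G M) {A B : Finset V} {y : W} (hA : y ∈ wf cs A) (hB : y ∈ wf cs B) :
    y ∈ wf cs (A ∩ B) := by
  rw [lc_eq] at hA hB ⊢
  rw [coe_inter]
  exact lc_inter hM cs _ y rfl hA hB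

/-- elements whose letters are adjacent to `z` -/
theorem comm_of_wf (hF : Facts G cs) {A : Finset V} {z : V} (h : ∀ v ∈ A, G.Adj v z) {y : W}
    (hy : y ∈ wf cs A) : cs.simple z * y = y * cs.simple z := by
  rw [lc_eq] at hy
  refine lc_induction cs (p := fun x => cs.simple z * x = x * cs.simple z) (by simp) ?_ hy
  intro x _ h1 u hu
  rw [← mul_assoc, h1, mul_assoc, ← hF.comm u z (h u hu), mul_assoc]

private theorem lc_two {H : SimpleGraph V} (hH : RA H M) {K : Type} [Group K] {f : V → K}
    (h1 : ∀ v, f v * f v = 1) (h2 : ∀ u v, H.Adj u v → (f u * f v) * (f u * f v) = 1) :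
    M.IsLiftable f := by
  intro u v
  by_cases huv : u = v
  · subst huv
    rw [h1, one_pow]
  · by_cases hadj : H.Adj u v
    · rw [(hH u v huv).1 hadj, pow_two]
      exact h2 u v hadj
    · rw [(hH u v huv).2 hadj, pow_zero]

/-- **Lemma C.** -/
theorem lemC (hM : RA G M) {Q : V → Prop} {M1 : CoxeterMatrix (Option V)} (hM1 : RA (exG G Q) M1)
    (cs1 : CoxeterSystem M1 D) : ∃ i : W →* D, (∀ v, i (cs.simple v) = cs1.simple (some v)) ∧
      ∀ (A : Finset V) (y : W), y ∈ wf cs A → cs1.simple none * i y = i y * cs1.simple none →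
        ∀ v, ¬ Q v → y ∈ wf cs (A.erase v) := by
  classical
  have hF := facts_of_ra hM cs
  have hF1 := facts_of_ra hM1 cs1
  have hl : M.IsLiftable fun v => cs1.simple (some v) := by
    refine lc_two hM (fun v => cs1.simple_mul_simple_self _) fun u v huv => ?_
    have h1 : cs1.simple (some u) * cs1.simple (some v) = cs1.simple (some v) * cs1.simple (some u) :=
      hF1.comm (some u) (some v) huv
    rw [mul_assoc, ← mul_assoc (cs1.simple (some v)), ← h1, mul_assoc (cs1.simple (some u)),
      cs1.simple_mul_simple_self, mul_one, cs1.simple_mul_simple_self]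
  have hl1 : M1.IsLiftable fun x : Option V => x.elim (1 : W) cs.simple := by
    refine lc_two hM1 (fun x => ?_) fun x y hxy => ?_
    · cases x
      · simp
      · exact cs.simple_mul_simple_self _
    · cases x with
      | none =>
        cases y with
        | none => simp
        | some v =>
          show (1 * cs.simple v) * (1 * cs.simple v) = 1
          rw [one_mul, cs.simple_mul_simple_self]
      | some u =>
        cases y with
        | none =>
          show (cs.simple u * 1) * (cs.simple u * 1) = 1
          rw [mul_one, cs.simple_mul_simple_self]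
        | some v =>
          show (cs.simple u * cs.simple v) * (cs.simple u * cs.simple v) = 1
          have h1 : cs.simple u * cs.simple v = cs.simple v * cs.simple u := hF.comm u v hxy
          rw [mul_assoc, ← mul_assoc (cs.simple v), ← h1, mul_assoc (cs.simple u),
            cs.simple_mul_simple_self, mul_one, cs.simple_mul_simple_self]
  set i : W →* D := cs.lift ⟨_, hl⟩ with hi
  set ρ : D →* W := cs1.lift ⟨_, hl1⟩ with hρ
  have hi1 : ∀ v, i (cs.simple v) = cs1.simple (some v) := fun v => cs.lift_apply_simple hl v
  have hρ1 : ∀ x, ρ (cs1.simple x) = x.elim (1 : W) cs.simple := fun x => cs1.lift_apply_simple hl1 x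
  have hρi : ∀ y, ρ (i y) = y := by
    have h1 : ρ.comp i = MonoidHom.id W := by
      refine cs.ext_simple fun v => ?_
      show ρ (i (cs.simple v)) = cs.simple v
      rw [hi1, hρ1]
      rfl
    exact fun y => DFunLike.congr_fun h1 y
  refine ⟨i, hi1, fun A y hy hc v hv => ?_⟩
  rw [lc_eq] at hy ⊢
  have h1 : i y ∈ lcS cs1 {x : Option V | x ≠ none} := by
    refine lc_induction cs (p := fun y => i y ∈ lcS cs1 {x : Option V | x ≠ none}) ?_ ?_ hy
    · rw [map_one]
      exact one_mem _
    · intro x _ h u _
      rw [map_mul, hi1]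
      exact mul_mem h (lc_simple cs1 (Option.some_ne_none u))
  have h0 : (none : Option V) ∉ {x : Option V | x ≠ none} := fun h => h rfl
  have h2 : none ∉ fst cs1 (i y) := lc_not_fst hM1 cs1 h0 h1
  have h3 := lc_comm hF1 _ (i y) rfl h2 hc
  have h4 : ρ (i y) ∈ lcS cs {v : V | Q v} := by
    refine lc_induction cs1 (p := fun z => ρ z ∈ lcS cs {v : V | Q v}) ?_ ?_ h3
    · rw [map_one]
      exact one_mem _
    · intro x _ h u hu
      rw [map_mul, hρ1]
      cases u with
      | none => exact mul_mem h (one_mem _)
      | some u => exact mul_mem h (lc_simple cs (S := {v : V | Q v}) hu)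
  rw [hρi] at h4
  have h5 := lc_inter hM cs _ y rfl hy h4
  refine Subgroup.closure_mono (Set.image_mono ?_) h5
  rintro u ⟨hu1, hu2⟩
  rw [mem_coe, mem_erase]
  refine ⟨?_, hu1⟩
  rintro rfl
  exact hv hu2

end Pool.Agent.H65.AB
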