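import Pool.Agent.H65.AB.KapDefs
import Pool.Agent.H65.AB.FacesZ

/-!
# Project AB: the increments of the maps to the right-angled Coxeter group

PROOF. `kap_lip`, `lemK`: `AG.ind` on `x`. For `x = x' io a`: the factor depends only on `pj v (y x')`, the same for `κ` and
`κ0`. For `x = x' s^(±1)`: no change if `L (y x') ∉ {0, -1}` resp. `∉ {0, 1}`, `L (y x') = L y + L x'`; for `κ0` there is
never a change. `kap_apt`: `wf_ind` (see BU/Kap, `kappa_apt`): `pj v (g a w) = q v (a v)` or `1` according to the parity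
`pr w (sing v)`, `κ` changes iff `θ v (q v (a v)) ≠ θ v 1`; all letters are in `lF M F`. `L (g a w) = 0` there.
-/

set_option autoImplicit false
set_option linter.unusedSectionVars false

open Finset

namespace Pool.Agent.H65.AB

open H42.NU Pool.Agent.H4.FC Pool.Agent.H78.RC Pool.Agent.H93.AA Pool.Agent.H65.RA
open Pool.Agent.H65.BU (RA Apts)

variable {S : Type} [Fintype S] [DecidableEq S] {M : CoxeterMatrix S} {F : Finset S}
  {Γ : S → Type} [∀ v, Group (Γ v)] {W : Type} [Group W] [Fintype (Irr M)]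
  {M' : CoxeterMatrix (Irr M)} {cs : CoxeterSystem M' W} {X : Irr M} {θ : ∀ v, Γ v → Bool}
  {L : AG M F Γ → ℤ} {κ κ0 : AG M F Γ → W}

private theorem th_neg (s : S) : (th M F Γ (bgen M s))⁻¹ = th M F Γ (bgen M s)⁻¹ :=
  (map_inv (th M F Γ) (bgen M s)).symm

/-- bounded increments -/
theorem kap_lip (hκ : IsKap cs X L θ κ) (x : AG M F Γ) :
    ∃ N : ℕ, ∀ y, cs.length ((κ y)⁻¹ * κ (y * x)) ≤ N := by
  have key : ∀ (x : AG M F Γ) (b : BG M), (∃ N : ℕ, ∀ y, cs.length ((κ y)⁻¹ * κ (y * x)) ≤ N) →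
      ∃ N : ℕ, ∀ y, cs.length ((κ y)⁻¹ * κ (y * (x * th M F Γ b))) ≤ N := by
    rintro x b ⟨N, hN⟩
    refine ⟨N + 1, fun y => ?_⟩
    rw [← mul_assoc, hκ.th, ← mul_assoc]
    refine (cs.length_mul_le _ _).trans (Nat.add_le_add (hN y) ?_)
    split_ifs
    · rw [cs.length_one]
      exact Nat.zero_le _
    · rw [cs.length_simple]
  refine AG.ind (C := fun x => ∃ N : ℕ, ∀ y, cs.length ((κ y)⁻¹ * κ (y * x)) ≤ N) ?_
    (fun x s _ h => key x (bgen M s) h) (fun x s _ h => ?_) (fun x v hv a h => ?_) x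
  · refine ⟨0, fun y => ?_⟩
    rw [mul_one, inv_mul_cancel, cs.length_one]
  · rw [th_neg]
    exact key x (bgen M s)⁻¹ h
  · obtain ⟨N, hN⟩ := h
    refine ⟨N + 1, fun y => ?_⟩
    rw [← mul_assoc, hκ.io _ v hv, ← mul_assoc]
    refine (cs.length_mul_le _ _).trans (Nat.add_le_add (hN y) ?_)
    split_ifs
    · rw [cs.length_one]
      exact Nat.zero_le _
    · rw [cs.length_simple]

/-- **Lemma K**: the increments of `κ` and of `κ0` are the same, except for finitely many values of `L`. -/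
theorem lemK {C : Finset S} (hL : IsLam M F Γ C L) (hκ : IsKap cs X L θ κ)
    (hκ0 : IsKap cs X (fun _ => 0) θ κ0) (x : AG M F Γ) :
    ∃ R : Finset ℤ, ∀ y, L y ∉ R → (κ y)⁻¹ * κ (y * x) = (κ0 y)⁻¹ * κ0 (y * x) := by
  have key : ∀ (x : AG M F Γ) (b : BG M),
      (∃ R : Finset ℤ, ∀ y, L y ∉ R → (κ y)⁻¹ * κ (y * x) = (κ0 y)⁻¹ * κ0 (y * x)) →
      ∃ R : Finset ℤ, ∀ y, L y ∉ R →
        (κ y)⁻¹ * κ (y * (x * th M F Γ b)) = (κ0 y)⁻¹ * κ0 (y * (x * th M F Γ b)) := by
    rintro x b ⟨R, hR⟩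
    refine ⟨insert (-L x) (insert (-(L x + L (th M F Γ b))) R), fun y hy => ?_⟩
    rw [mem_insert, mem_insert, not_or, not_or] at hy
    obtain ⟨hy1, hy2, hy3⟩ := hy
    have h1 : L (y * x) ≠ 0 := by
      rw [hL.mul]
      omega
    have h2 : L (y * x * th M F Γ b) ≠ 0 := by
      rw [hL.mul, hL.mul]
      omega
    rw [← mul_assoc, hκ.th, hκ0.th, if_pos (iff_of_false h1 h2), if_pos Iff.rfl, mul_one, mul_one]
    exact hR y hy3
  refine AG.ind (C := fun x => ∃ R : Finset ℤ, ∀ y, L y ∉ R →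
    (κ y)⁻¹ * κ (y * x) = (κ0 y)⁻¹ * κ0 (y * x)) ?_
    (fun x s _ h => key x (bgen M s) h) (fun x s _ h => ?_) (fun x v hv a h => ?_) x
  · refine ⟨∅, fun y _ => ?_⟩
    rw [mul_one, inv_mul_cancel, inv_mul_cancel]
  · rw [th_neg]
    exact key x (bgen M s)⁻¹ h
  · obtain ⟨R, hR⟩ := h
    refine ⟨R, fun y hy => ?_⟩
    rw [← mul_assoc, hκ.io _ v hv, hκ0.io _ v hv, ← mul_assoc, ← mul_assoc, hR y hy]

variable {q : ∀ v, Bool → Γ v} {pr : W → Irr M → ZMod 2} {g : (Irr M → Bool) → W → AG M F Γ}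

/-- the elements of the apartments are killed by `L` -/
theorem lam_apt {C : Finset S} (hL : IsLam M F Γ C L) (hg : Apts cs pr (pA M F q) g)
    (a : Irr M → Bool) {w : W} (hw : w ∈ wf cs (lF M F)) : L (g a w) = 0 := by
  refine wf_ind (C := fun w => L (g a w) = 0) ?_ (fun w v _ hv h => ?_) hw
  · rw [hg.one, hL.one]
  · obtain ⟨u, hu, rfl⟩ := mem_lF.1 hv
    rw [hg.mul]
    split_ifs
    · rw [hL.mul, h, pA_sing q hu, hL.io, add_zero]
    · rw [hL.mul, h, hL.inv, pA_sing q hu, hL.io, neg_zero, add_zero]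

/-- the values of `κ` on the apartments -/
theorem kap_apt (hκ : IsKap cs X L θ κ) (hg : Apts cs pr (pA M F q) g) (a : Irr M → Bool)
    (R : W →* W) (hR : ∀ v ∈ F, R (cs.simple (sing M v)) =
      if θ v (q v (a (sing M v))) = θ v 1 then 1 else cs.simple (sing M v)) {w : W}
    (hw : w ∈ wf cs (lF M F)) : κ (g a w) = R w := by
  have h0 : ∀ c : ZMod 2, c ≠ 0 → c + 1 = 0 := by decide
  have h01 : (0 : ZMod 2) + 1 ≠ 0 := by decide
  have h1 : (∀ v ∈ F, pj M F v (g a w) = if pr w (sing M v) = 0 then 1 else q v (a (sing M v))) ∧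
      κ (g a w) = R w := by
    refine wf_ind (C := fun w => (∀ v ∈ F, pj M F v (g a w) =
      if pr w (sing M v) = 0 then 1 else q v (a (sing M v))) ∧ κ (g a w) = R w) ?_ ?_ hw
    · refine ⟨fun v _ => ?_, ?_⟩
      · rw [hg.one, map_one, hg.pr_one, if_pos rfl]
      · rw [hg.one, hκ.one, map_one]
    · rintro w x _ hx ⟨hp, hk⟩
      obtain ⟨u, hu, rfl⟩ := mem_lF.1 hx
      by_cases hpu : pr w (sing M u) = 0
      · have h2 : g a (w * cs.simple (sing M u)) =
            g a w * io M F u (q u (a (sing M u))) := by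
          rw [hg.mul, if_pos hpu, pA_sing q hu]
        have h3 : pj M F u (g a w) = 1 := by rw [hp u hu, if_pos hpu]
        refine ⟨fun v hv => ?_, ?_⟩
        · rw [h2, map_mul, hg.pr_mul]
          by_cases huv : v = u
          · subst huv
            rw [pj_same hv, h3, one_mul, hpu, if_pos rfl, if_neg h01]
          · rw [pj_ne (Ne.symm huv), mul_one, if_neg fun h => huv (sing_inj h), add_zero,
              hp v hv]
        · rw [h2, hκ.io _ u hu, h3, one_mul, map_mul, hR u hu, hk]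
      · have h2 : g a (w * cs.simple (sing M u)) =
            g a w * io M F u (q u (a (sing M u)))⁻¹ := by
          rw [hg.mul, if_neg hpu, pA_sing q hu, map_inv]
        have h3 : pj M F u (g a w) = q u (a (sing M u)) := by rw [hp u hu, if_neg hpu]
        refine ⟨fun v hv => ?_, ?_⟩
        · rw [h2, map_mul, hg.pr_mul]
          by_cases huv : v = u
          · subst huv
            rw [pj_same hv, h3, mul_inv_cancel, if_pos rfl, if_pos (h0 _ hpu)]
          · rw [pj_ne (Ne.symm huv), mul_one, if_neg fun h => huv (sing_inj h), add_zero,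
              hp v hv]
        · rw [h2, hκ.io _ u hu, h3, mul_inv_cancel, map_mul, hR u hu, hk]
          by_cases h4 : θ u 1 = θ u (q u (a (sing M u)))
          · rw [if_pos h4, if_pos h4.symm]
          · rw [if_neg h4, if_neg (Ne.symm h4)]
  exact h1.2

end Pool.Agent.H65.AB
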