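import Pool.Agent.H65.AB.KapC
import Pool.Agent.H65.AB.LemK

/-!
# Project AB: the increments of the maps which detect a subgroup

PROOF: as LemK. `kapC_incr`: `AG.ind` on `x`, `R` = the images under `r` of the prefixes of a word for `x` (contains `1` and
`r x`); if `r y * ρ ∉ K` for all of them, no factor `τ` occurs in `κ (y * x)`; for `K = ⊤` no factor `τ` occurs at all.
-/

set_option autoImplicit false
set_option linter.unusedSectionVars false

open Finset

namespace Pool.Agent.H65.AB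

open H42.NU Pool.Agent.H4.FC Pool.Agent.H78.RC Pool.Agent.H93.AA Pool.Agent.H65.RA
open Pool.Agent.H65.BU (RA Apts)

variable {S : Type} [Fintype S] [DecidableEq S] {M : CoxeterMatrix S} {F : Finset S}
  {Γ : S → Type} [∀ v, Group (Γ v)] {D : Type} [Group D] {e : S → D} {τ : D}
  {K : Subgroup (BG M)} {r : AG M F Γ →* BG M} {θ : ∀ v, Γ v → Bool} {κ κ0 : AG M F Γ → D}

private theorem kc_neg (s : S) : (th M F Γ (bgen M s))⁻¹ = th M F Γ (bgen M s)⁻¹ :=
  (map_inv (th M F Γ) (bgen M s)).symm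

theorem kapC_incr (hr2 : ∀ v (a : Γ v), r (io M F v a) = 1) (hκ : IsKapC e τ K r θ κ)
    (hκ0 : IsKapC e τ ⊤ r θ κ0) (x : AG M F Γ) :
    ∃ R : Finset (BG M), 1 ∈ R ∧ r x ∈ R ∧ ∀ y, (∀ ρ ∈ R, r y * ρ ∉ K) →
      (κ y)⁻¹ * κ (y * x) = (κ0 y)⁻¹ * κ0 (y * x) := by
  have key : ∀ (x : AG M F Γ) (b : BG M),
      (∃ R : Finset (BG M), 1 ∈ R ∧ r x ∈ R ∧ ∀ y, (∀ ρ ∈ R, r y * ρ ∉ K) →
        (κ y)⁻¹ * κ (y * x) = (κ0 y)⁻¹ * κ0 (y * x)) →
      ∃ R : Finset (BG M), 1 ∈ R ∧ r (x * th M F Γ b) ∈ R ∧ ∀ y, (∀ ρ ∈ R, r y * ρ ∉ K) →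
        (κ y)⁻¹ * κ (y * (x * th M F Γ b)) = (κ0 y)⁻¹ * κ0 (y * (x * th M F Γ b)) := by
    classical
    rintro x b ⟨R, h1, hx, hR⟩
    refine ⟨insert (r (x * th M F Γ b)) R, mem_insert_of_mem h1, mem_insert_self _ _,
      fun y hy => ?_⟩
    have h2 : r (y * x) ∉ K := by
      rw [map_mul]
      exact hy _ (mem_insert_of_mem hx)
    have h3 : r (y * x * th M F Γ b) ∉ K := by
      rw [mul_assoc, map_mul]
      exact hy _ (mem_insert_self _ _)
    rw [← mul_assoc, hκ.th, hκ0.th, if_pos (iff_of_false h2 h3),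
      if_pos (iff_of_true (Subgroup.mem_top _) (Subgroup.mem_top _)), mul_one, mul_one]
    exact hR y fun ρ hρ => hy ρ (mem_insert_of_mem hρ)
  refine AG.ind (C := fun x => ∃ R : Finset (BG M), 1 ∈ R ∧ r x ∈ R ∧
    ∀ y, (∀ ρ ∈ R, r y * ρ ∉ K) → (κ y)⁻¹ * κ (y * x) = (κ0 y)⁻¹ * κ0 (y * x)) ?_
    (fun x s _ h => key x (bgen M s) h) (fun x s _ h => ?_) (fun x v hv a h => ?_) x
  · refine ⟨{1}, mem_singleton_self _, ?_, fun y _ => ?_⟩
    · rw [map_one]
      exact mem_singleton_self _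
    · rw [mul_one, inv_mul_cancel, inv_mul_cancel]
  · rw [kc_neg]
    exact key x (bgen M s)⁻¹ h
  · obtain ⟨R, h1, hx, hR⟩ := h
    refine ⟨R, h1, ?_, fun y hy => ?_⟩
    · rw [map_mul, hr2, mul_one]
      exact hx
    · rw [← mul_assoc, hκ.io _ v hv, hκ0.io _ v hv, ← mul_assoc, ← mul_assoc, hR y hy]

variable {W : Type} [Group W] [Fintype (Irr M)] {M' : CoxeterMatrix (Irr M)}
  {cs : CoxeterSystem M' W} {q : ∀ v, Bool → Γ v} {pr : W → Irr M → ZMod 2}
  {g : (Irr M → Bool) → W → AG M F Γ}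

/-- the elements of the apartments are killed by `r` -/
theorem r_apt (hr2 : ∀ v (a : Γ v), r (io M F v a) = 1) (hg : Apts cs pr (pA M F q) g)
    (a : Irr M → Bool) {w : W} (hw : w ∈ wf cs (lF M F)) : r (g a w) = 1 := by
  refine wf_ind (C := fun w => r (g a w) = 1) ?_ (fun w v _ hv h => ?_) hw
  · rw [hg.one, map_one]
  · obtain ⟨u, hu, rfl⟩ := mem_lF.1 hv
    rw [hg.mul]
    split_ifs
    · rw [map_mul, h, pA_sing q hu, hr2, one_mul]
    · rw [map_mul, h, map_inv, pA_sing q hu, hr2, inv_one, one_mul]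

/-- the values of `κ` on the apartments -/
theorem kapC_apt (hκ : IsKapC e τ K r θ κ) (hg : Apts cs pr (pA M F q) g) (a : Irr M → Bool)
    (he : ∀ v ∈ F, e v * e v = 1) (R : W →* D) (hR : ∀ v ∈ F, R (cs.simple (sing M v)) =
      if θ v (q v (a (sing M v))) = θ v 1 then 1 else e v) {w : W}
    (hw : w ∈ wf cs (lF M F)) : κ (g a w) = R w := by
  have h0 : ∀ c : ZMod 2, c ≠ 0 → c + 1 = 0 := by decide
  have h01 : (0 : ZMod 2) + 1 ≠ 0 := by decide
  have h1 : (∀ v ∈ F, pj M F v (g a w) = if pr w (sing M v) = 0 then 1 else q v (a (sing M v))) ∧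
      κ (g a w) = R w := by
    refine wf_ind (C := fun w => (∀ v ∈ F, pj M F v (g a w) =
      if pr w (sing M v) = 0 then 1 else q v (a (sing M v))) ∧ κ (g a w) = R w) ?_ ?_ hw
    · refine ⟨fun v _ => ?_, ?_⟩
      · rw [hg.one, map_one, hg.pr_one, if_pos rfl]
      · rw [hg.one, hκ.one, map_one]
    · rintro w x _ hx ⟨hp, hk⟩
      obtain ⟨u, hu, rfl⟩ := mem_lF.1 hx
      by_cases hpu : pr w (sing M u) = 0
      · have h2 : g a (w * cs.simple (sing M u)) =
            g a w * io M F u (q u (a (sing M u))) := by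
          rw [hg.mul, if_pos hpu, pA_sing q hu]
        have h3 : pj M F u (g a w) = 1 := by rw [hp u hu, if_pos hpu]
        refine ⟨fun v hv => ?_, ?_⟩
        · rw [h2, map_mul, hg.pr_mul]
          by_cases huv : v = u
          · subst huv
            rw [pj_same hv, h3, one_mul, hpu, if_pos rfl, if_neg h01]
          · rw [pj_ne (Ne.symm huv), mul_one, if_neg fun h => huv (sing_inj h), add_zero,
              hp v hv]
        · rw [h2, hκ.io _ u hu, h3, one_mul, map_mul, hR u hu, hk]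
      · have h2 : g a (w * cs.simple (sing M u)) =
            g a w * io M F u (q u (a (sing M u)))⁻¹ := by
          rw [hg.mul, if_neg hpu, pA_sing q hu, map_inv]
        have h3 : pj M F u (g a w) = q u (a (sing M u)) := by rw [hp u hu, if_neg hpu]
        refine ⟨fun v hv => ?_, ?_⟩
        · rw [h2, map_mul, hg.pr_mul]
          by_cases huv : v = u
          · subst huv
            rw [pj_same hv, h3, mul_inv_cancel, if_pos rfl, if_pos (h0 _ hpu)]
          · rw [pj_ne (Ne.symm huv), mul_one, if_neg fun h => huv (sing_inj h), add_zero,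
              hp v hv]
        · rw [h2, hκ.io _ u hu, h3, mul_inv_cancel, map_mul, hR u hu, hk]
          by_cases h4 : θ u 1 = θ u (q u (a (sing M u)))
          · rw [if_pos h4, if_pos h4.symm]
          · rw [if_neg h4, if_neg (Ne.symm h4)]
  exact h1.2

end Pool.Agent.H65.AB
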