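import Pool.Agent.H65.AB.SepBl
import Pool.Agent.H65.AB.ExpS

/-!
# Project AB: separation

PROOF. `sep_w`: finitely many `(w, w')`. `exps`: `|± m' X ∓ m X| ≤ N`. `sep_blocked` for `E` and (by symmetry) for `E⁻¹`: `m X` is
bounded if `s_X` does not commute with `w`, `m' X` is bounded if `s_X` does not commute with `w'`; with `exps` both are
bounded. If `s_X` commutes with both: if `m X = 0` or `m' X = 0` use `exps`; otherwise the signs are different (`Opp.free`)
and `m X + m' X ≤ N`. So all exponents are bounded.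
-/

set_option autoImplicit false
set_option linter.unusedSectionVars false

open Finset

namespace Pool.Agent.H65.AB

open H42.NU Pool.Agent.H4.FC Pool.Agent.H78.RC Pool.Agent.H93.AA Pool.Agent.H65.RA
open Pool.Agent.H65.BU (RA Apts)

variable {S : Type} [Fintype S] [DecidableEq S] {M : CoxeterMatrix S} {F : Finset S}
  {Γ : S → Type} [∀ v, Group (Γ v)] {W : Type} [Group W] [Fintype (Irr M)]
  {M' : CoxeterMatrix (Irr M)} {cs : CoxeterSystem M' W}
  {q : ∀ v, Bool → Γ v} {pr : W → Irr M → ZMod 2} {g : (Irr M → Bool) → W → AG M F Γ}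

/-- the signs of two positions with the roles exchanged -/
theorem Opp.symm {V W : Type} [Fintype V] [DecidableEq V] [Group W] {M : CoxeterMatrix V}
    {cs : CoxeterSystem M W} {w w' : W} {m m' : V → ℕ} {a b : V → Bool}
    (h : Opp cs w w' m m' a b) : Opp cs w' w m' m b a :=
  ⟨fun v h1 h2 h3 => h.fst v h2 h1 h3.symm, fun z h1 h2 h3 h4 h5 => h.free z h2 h1 h4 h3 h5.symm,
    h.right, h.left⟩

/-- **Separation.** -/
theorem sepZ_ab (hM : Mix M F) (hM' : RA (nG M) M') (h1 : ∀ v ∈ F, ∀ b, q v b ≠ 1)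
    (h2 : ∀ v ∈ F, q v true ≠ q v false) (hg : Apts cs pr (pA M F q) g) :
    SepZ (nG M) cs (lF M F) (pA M F q) g := by
  classical
  intro E
  have hW := sep_w hM hM' h1 h2 hg E
  obtain ⟨N, hN⟩ := exps hM hg E
  choose N1 hN1 using sep_blocked hM hM' h1 h2 hg E
  choose N2 hN2 using sep_blocked hM hM' h1 h2 hg (E.image fun x => x⁻¹)
  let B : Irr M → ℕ := fun X => N1 X + N2 X + N.natAbs
  have hfin : {m : Irr M → ℕ | ∀ X, m X ∈ Set.Iic (B X)}.Finite :=
    Set.Finite.pi' fun X => Set.finite_Iic (B X)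
  refine ((hW.prod (hfin.prod hfin)).image fun k : (W × W) × ((Irr M → ℕ) × (Irr M → ℕ)) =>
    ((k.1.1, k.2.1), (k.1.2, k.2.2))).subset ?_
  rintro ⟨⟨w, m⟩, w', m'⟩ ⟨hw, hw', hm, hm', a, b, hab, hx⟩
  simp only at hw hw' hm hm' hab hx
  have hx' : (g b w' * zp (pA M F q) b m')⁻¹ * (g a w * zp (pA M F q) a m) ∈
      E.image fun x => x⁻¹ := by
    refine mem_image.2 ⟨_, hx, ?_⟩
    rw [mul_inv_rev, inv_inv]
  have hb : ∀ X, m X ≤ B X ∧ m' X ≤ B X := by
    intro X
    have h3 := hN w w' m m' a b hw hw' hm hm' hx X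
    rw [abs_le] at h3
    have h4 : (m' X : ℤ) ≤ m X + N ∧ (m X : ℤ) ≤ m' X + N := by
      cases hbX : b X <;> cases haX : a X <;> rw [hbX, haX] at h3 <;> unfold sz at h3 <;>
        simp at h3 <;> omega
    have hNn : N ≤ N.natAbs := Int.le_natAbs
    show m X ≤ N1 X + N2 X + N.natAbs ∧ m' X ≤ N1 X + N2 X + N.natAbs
    by_cases c1 : cs.simple X * w = w * cs.simple X
    · by_cases c2 : cs.simple X * w' = w' * cs.simple X
      · by_cases hmX : m X = 0
        · omega
        · by_cases hmX' : m' X = 0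
          · omega
          · have h5 := hab.free X hmX hmX' c1 c2
            cases hbX : b X <;> cases haX : a X <;> rw [hbX, haX] at h3 h5 <;>
              unfold sz at h3 <;> simp at h3 h5 <;> omega
      · have h5 := hN2 X w' w m' m b a hw' hw hm' hm hab.symm hx' c2
        omega
    · have h5 := hN1 X w w' m m' a b hw hw' hm hm' hab hx c1
      omega
  exact ⟨((w, w'), (m, m')), ⟨⟨hw, hw', m, m', a, b, hm, hm', hab, hx⟩,
    fun X => (hb X).1, fun X => (hb X).2⟩, rfl⟩

end Pool.Agent.H65.AB
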