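import Pool.Agent.H65.AB.Zp
import Pool.Agent.H65.AB.FacesZ

/-!
# Project AB: separation for powers and for subgroups

PROOF: `j (g' a w) = g a w` for `w` in `wf` (`wf_ind`, `Apts.mul`; `pr` and `pr'` agree: both count letters),
`j (zp p' a m) = zp p a (N • m)` (`zp_map`, `zp_congr'`, `zp_smul`), so `(w, m) ↦ (w, N • m)` maps the set of `p'` for
`E'` injectively into the set of `p` for `E = j (E')`; `Pos` and `Opp` are the same for `m` and `N • m`.
-/

set_option autoImplicit false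
set_option linter.unusedSectionVars false

open Finset

namespace Pool.Agent.H65.AB

open Pool.Agent.H65.RA Pool.Agent.H65.BU

theorem sepZ_pow {V W A B : Type} [Fintype V] [DecidableEq V] [Group W] [Group A] [Group B]
    {M : CoxeterMatrix V} {G : SimpleGraph V} {cs : CoxeterSystem M W} {FF : Finset V}
    (hM : RA G M) {p : V × Bool → A} {p' : V × Bool → B} {N : ℕ} (hN : 0 < N) (j : B →* A)
    (h1 : ∀ x, x.1 ∈ FF → j (p' x) = p x) (h2 : ∀ x, x.1 ∉ FF → j (p' x) = p x ^ N)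
    {pr pr' : W → V → ZMod 2} {g : (V → Bool) → W → A} {g' : (V → Bool) → W → B}
    (hg : Apts cs pr p g) (hg' : Apts cs pr' p' g') (h : SepZ G cs FF p g) :
    SepZ G cs FF p' g' := by
  classical
  -- the apartments
  have key : ∀ {w : W}, w ∈ wf cs FF → (∀ v, pr w v = pr' w v) ∧ ∀ a, j (g' a w) = g a w := by
    intro w hw
    refine wf_ind (C := fun w => (∀ v, pr w v = pr' w v) ∧ ∀ a, j (g' a w) = g a w) ?_ ?_ hw
    · exact ⟨fun v => by rw [hg.pr_one, hg'.pr_one], fun a => by rw [hg.one, hg'.one, map_one]⟩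
    · rintro w v _ hv ⟨ih1, ih2⟩
      refine ⟨fun u => by rw [hg.pr_mul, hg'.pr_mul, ih1], fun a => ?_⟩
      rw [hg.mul, hg'.mul, ih1 v]
      by_cases h0 : pr' w v = 0
      · rw [if_pos h0, if_pos h0, map_mul, ih2, h1 (v, a v) hv]
      · rw [if_neg h0, if_neg h0, map_mul, map_inv, ih2, h1 (v, a v) hv]
  have hz : ∀ (a : V → Bool) (m : V → ℕ), Pos G FF m → j (zp p' a m) = zp p a (N • m) := by
    intro a m hm
    rw [zp_map, zp_smul]
    refine zp_congr' fun z hz => ?_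
    exact h2 (z, a z) (hm.1 z hz)
  have hm0 : ∀ (m : V → ℕ) z, (N • m) z ≠ 0 ↔ m z ≠ 0 := by
    intro m z
    rw [Pi.smul_apply, smul_eq_mul, mul_ne_zero_iff]
    exact ⟨fun h => h.2, fun h => ⟨hN.ne', h⟩⟩
  have hPos : ∀ m : V → ℕ, Pos G FF m → Pos G FF (N • m) := fun m hm =>
    ⟨fun z hz => hm.1 z ((hm0 m z).1 hz),
      fun y z hy hz => hm.2 y z ((hm0 m y).1 hy) ((hm0 m z).1 hz)⟩
  intro E
  let f : (W × (V → ℕ)) × (W × (V → ℕ)) → (W × (V → ℕ)) × (W × (V → ℕ)) :=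
    fun q => ((q.1.1, N • q.1.2), (q.2.1, N • q.2.2))
  have hf : Function.Injective f := by
    have h3 : ∀ m m' : V → ℕ, N • m = N • m' → m = m' := by
      intro m m' h
      funext z
      have h4 := congrFun h z
      rw [Pi.smul_apply, Pi.smul_apply, smul_eq_mul, smul_eq_mul] at h4
      exact Nat.eq_of_mul_eq_mul_left hN h4
    rintro ⟨⟨w, m⟩, ⟨w', m'⟩⟩ ⟨⟨u, l⟩, ⟨u', l'⟩⟩ h
    simp only [f, Prod.mk.injEq] at h
    obtain ⟨⟨h5, h6⟩, h7, h8⟩ := h
    rw [h5, h7, h3 _ _ h6, h3 _ _ h8]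
  refine ((h (E.image j)).preimage hf.injOn).subset ?_
  rintro ⟨⟨w, m⟩, ⟨w', m'⟩⟩ ⟨hw, hw', hm, hm', a, b, hab, hE⟩
  simp only at hw hw' hm hm' hab hE
  refine ⟨hw, hw', hPos m hm, hPos m' hm', a, b, ?_, ?_⟩
  · exact ⟨hab.fst, fun z h3 h4 => hab.free z ((hm0 m z).1 h3) ((hm0 m' z).1 h4),
      fun z h3 => hab.left z ((hm0 m z).1 h3), fun z h3 => hab.right z ((hm0 m' z).1 h3)⟩
  · have h3 : (g a w * zp p a (N • m))⁻¹ * (g b w' * zp p b (N • m')) =
        j ((g' a w * zp p' a m)⁻¹ * (g' b w' * zp p' b m')) := by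
      rw [map_mul, map_inv, map_mul, map_mul, (key hw).2, (key hw').2, hz a m hm, hz b m' hm']
    show (g a w * zp p a (N • m))⁻¹ * (g b w' * zp p b (N • m')) ∈ E.image j
    rw [h3]
    exact mem_image_of_mem _ hE

end Pool.Agent.H65.AB
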