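import Pool.Agent.H65.AB.Zp
import Pool.Agent.H65.AB.FacesZ
import Pool.Agent.H65.AB.Grp
import Pool.Agent.H78.RC.RootA

/-!
# Project AB: separation for a subset of the letters

PROOF. `i = ind_hom M Y : (sub M Y).Group →* M.Group` (H73/LK/Ind) is injective and preserves the left descents
(`i w` and `w`: Tits representation): `v ∈ fst (i w) ↔ v ∈ Y ∧ v ∈ fst w`. `g a (i w) = g' (a ∘ val) w` (induction on
`w`; the parities agree). `(w, m) ↦ (i w, m extended by 0)` maps the positions of the subsystem to positions of the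
system; `Pos`, `Opp` are preserved (`s_z` commutes with `i w` iff it commutes with `w`, `z ∈ Y`), signs `a` are extended by
`true`. The products `zp` do not depend on the order, as the elements of adjacent letters commute (`Apts`).
-/

set_option autoImplicit false
set_option linter.unusedSectionVars false

open Finset

namespace Pool.Agent.H65.AB

open Pool.Agent.H65.RA Pool.Agent.H65.BU Pool.Agent.H4.FC
open Pool.Agent.H73.LK (sub ind_hom ind_hom_simple ind_hom_injective sub_apply)

section descent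

variable {S : Type} [Fintype S] [DecidableEq S] {M : CoxeterMatrix S}

/-- extension by zero -/
private noncomputable def su_ext (Y : Finset S) (x : {v // v ∈ Y} → ℝ) (v : S) : ℝ :=
  if h : v ∈ Y then x ⟨v, h⟩ else 0

private theorem su_ext_sub (Y : Finset S) (x y : {v // v ∈ Y} → ℝ) (r : ℝ) :
    su_ext Y (x - r • y) = su_ext Y x - r • su_ext Y y := by
  funext v
  unfold su_ext
  by_cases h : v ∈ Y
  · simp [h]
  · simp [h]

private theorem su_ext_single (Y : Finset S) (v : {v // v ∈ Y}) :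
    su_ext Y (Pi.single v 1) = Pi.single v.1 1 := by
  funext u
  unfold su_ext
  by_cases h : u ∈ Y
  · rw [dif_pos h]
    by_cases h1 : u = v.1
    · subst h1
      rw [Pi.single_eq_same, Pi.single_eq_same]
    · rw [Pi.single_eq_of_ne h1, Pi.single_eq_of_ne]
      exact fun h2 => h1 (congrArg Subtype.val h2)
  · rw [dif_neg h, Pi.single_eq_of_ne]
    exact fun h1 => h (h1 ▸ v.2)

private theorem su_simple (M : CoxeterMatrix S) (v : S) : M.toCoxeterSystem.simple v = M.simple v := by
  rw [M.toCoxeterSystem_simple]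

private theorem su_ind_simple (M : CoxeterMatrix S) (Y : Finset S) (v : {v // v ∈ Y}) :
    ind_hom M Y ((sub M Y).toCoxeterSystem.simple v) = M.toCoxeterSystem.simple v.1 := by
  rw [su_simple, su_simple, ind_hom_simple]

private theorem su_tits (M : CoxeterMatrix S) (Y : Finset S) (w : (sub M Y).Group)
    (x : {v // v ∈ Y} → ℝ) :
    (titsHom M (ind_hom M Y w)).mulVec (su_ext Y x) = su_ext Y ((titsHom (sub M Y) w).mulVec x) := by
  induction w using (sub M Y).toCoxeterSystem.simple_induction_left generalizing x with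
  | one => rw [map_one, map_one, map_one, Matrix.one_mulVec, Matrix.one_mulVec]
  | mul_simple_left w i ih =>
    have e1 : (sub M Y).toCoxeterSystem.simple i = (sub M Y).simple i := su_simple _ _
    rw [e1, map_mul, map_mul, map_mul, ind_hom_simple, ← Matrix.mulVec_mulVec, ← Matrix.mulVec_mulVec, ih]
    have e2 : titsHom M (M.simple i.1) = refl (kR M) i.1 := titsHom_simple M i.1
    have e3 : titsHom (sub M Y) ((sub M Y).simple i) = refl (kR (sub M Y)) i := titsHom_simple _ i
    rw [e2, e3, refl_mulVec, refl_mulVec, su_ext_sub, su_ext_single]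
    congr 2
    have h1 : ∀ u ∉ Y, kR M i.1 u * su_ext Y ((titsHom (sub M Y) w).mulVec x) u = 0 := by
      intro u hu
      unfold su_ext
      rw [dif_neg hu, mul_zero]
    rw [← Finset.sum_subset (Finset.subset_univ Y) fun u _ hu => h1 u hu, ← Finset.sum_coe_sort]
    refine Finset.sum_congr rfl fun u _ => ?_
    have h2 : su_ext Y ((titsHom (sub M Y) w).mulVec x) u.1 = (titsHom (sub M Y) w).mulVec x u := by
      unfold su_ext
      rw [dif_pos u.2]
    rw [h2]
    rfl

/-- the coordinates outside `Y` do not change -/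
private theorem su_coord (M : CoxeterMatrix S) (Y : Finset S) (w : (sub M Y).Group) (x : S → ℝ)
    {v : S} (hv : v ∉ Y) : (titsHom M (ind_hom M Y w)).mulVec x v = x v := by
  induction w using (sub M Y).toCoxeterSystem.simple_induction_left with
  | one => rw [map_one, map_one, Matrix.one_mulVec]
  | mul_simple_left w i ih =>
    have e1 : (sub M Y).toCoxeterSystem.simple i = (sub M Y).simple i := su_simple _ _
    have e2 : titsHom M (M.simple i.1) = refl (kR M) i.1 := titsHom_simple M i.1
    have hvi : v ≠ i.1 := fun h => hv (by rw [h]; exact i.2)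
    rw [e1, map_mul, map_mul, ind_hom_simple, ← Matrix.mulVec_mulVec, e2, refl_mulVec, Pi.sub_apply,
      Pi.smul_apply, Pi.single_eq_of_ne hvi, smul_zero, sub_zero, ih]

/-- the right descents -/
private theorem su_descent (U : Finset S) (w : (sub M U).Group) (s : {v // v ∈ U}) :
    (sub M U).toCoxeterSystem.IsRightDescent w s ↔
      M.toCoxeterSystem.IsRightDescent (ind_hom M U w) s.1 := by
  rw [Pool.Agent.H78.RC.descent_iff, Pool.Agent.H78.RC.descent_iff]
  have h1 := su_tits M U w (Pi.single s 1)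
  rw [su_ext_single] at h1
  rw [h1]
  constructor
  · intro h i
    unfold su_ext
    split_ifs with hi
    · exact h ⟨i, hi⟩
    · exact le_rfl
  · intro h i
    have h2 := h i.1
    unfold su_ext at h2
    rw [dif_pos i.2] at h2
    exact h2

private theorem su_descent' (U : Finset S) (w : (sub M U).Group) {s : S} (hs : s ∉ U) :
    ¬ M.toCoxeterSystem.IsRightDescent (ind_hom M U w) s := by
  rw [Pool.Agent.H78.RC.descent_iff]
  intro h
  have h1 := h s
  rw [su_coord M U w _ hs, Pi.single_eq_same] at h1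
  linarith

/-- the first letters -/
private theorem su_fst (U : Finset S) (w : (sub M U).Group) {v : S} :
    v ∈ fst M.toCoxeterSystem (ind_hom M U w) ↔
      ∃ h : v ∈ U, (⟨v, h⟩ : {v // v ∈ U}) ∈ fst (sub M U).toCoxeterSystem w := by
  classical
  have e1 : v ∈ fst M.toCoxeterSystem (ind_hom M U w) ↔
      M.toCoxeterSystem.IsLeftDescent (ind_hom M U w) v := by
    unfold fst
    rw [mem_filter]
    exact ⟨fun h => h.2, fun h => ⟨mem_univ v, h⟩⟩
  have e2 : ∀ u : {v // v ∈ U}, u ∈ fst (sub M U).toCoxeterSystem w ↔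
      (sub M U).toCoxeterSystem.IsLeftDescent w u := by
    intro u
    unfold fst
    rw [mem_filter]
    exact ⟨fun h => h.2, fun h => ⟨mem_univ u, h⟩⟩
  have e3 : M.toCoxeterSystem.IsLeftDescent (ind_hom M U w) v ↔
      M.toCoxeterSystem.IsRightDescent (ind_hom M U w⁻¹) v := by
    rw [map_inv, M.toCoxeterSystem.isRightDescent_inv_iff]
  rw [e1, e3]
  constructor
  · intro h
    by_cases hv : v ∈ U
    · refine ⟨hv, ?_⟩
      rw [e2, ← (sub M U).toCoxeterSystem.isRightDescent_inv_iff, su_descent]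
      exact h
    · exact absurd h (su_descent' U _ hv)
  · rintro ⟨hv, h⟩
    rw [e2, ← (sub M U).toCoxeterSystem.isRightDescent_inv_iff, su_descent] at h
    exact h

end descent

section main

variable {V A : Type} [Fintype V] [DecidableEq V] [Group A] {M : CoxeterMatrix V}

/-- the elements of adjacent letters commute -/
private theorem su_comm {G : SimpleGraph V} (hM : RA G M) {p : V × Bool → A}
    {pr : M.Group → V → ZMod 2} {g : (V → Bool) → M.Group → A}
    (hg : Apts M.toCoxeterSystem pr p g) {u v : V} (huv : G.Adj u v) (a : V → Bool) :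
    Commute (p (u, a u)) (p (v, a v)) := by
  have hne : u ≠ v := huv.ne
  have h2 : M u v = 2 := (hM u v hne).1 huv
  have hc : M.toCoxeterSystem.simple u * M.toCoxeterSystem.simple v =
      M.toCoxeterSystem.simple v * M.toCoxeterSystem.simple u := by
    have h3 := M.toCoxeterSystem.simple_mul_simple_pow u v
    rw [h2, pow_two] at h3
    have h4 : M.toCoxeterSystem.simple u * M.toCoxeterSystem.simple v =
        (M.toCoxeterSystem.simple u * M.toCoxeterSystem.simple v)⁻¹ := eq_inv_of_mul_eq_one_left h3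
    rw [h4, mul_inv_rev, M.toCoxeterSystem.inv_simple, M.toCoxeterSystem.inv_simple]
  have key : ∀ x y : V, x ≠ y → g a (M.toCoxeterSystem.simple x * M.toCoxeterSystem.simple y) =
      p (x, a x) * p (y, a y) := by
    intro x y hxy
    have h3 := hg.mul a 1 x
    rw [one_mul, if_pos (hg.pr_one x), hg.one, one_mul] at h3
    have h4 : pr (M.toCoxeterSystem.simple x) y = 0 := by
      have h5 := hg.pr_mul 1 x y
      rw [one_mul, hg.pr_one, if_neg (Ne.symm hxy), zero_add] at h5
      exact h5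
    rw [hg.mul, if_pos h4, h3]
  have h5 := key u v hne
  rw [hc, key v u (Ne.symm hne)] at h5
  exact h5.symm

/-- the extension of exponents -/
private def su_m (Y : Finset V) (m : {v // v ∈ Y} → ℕ) (v : V) : ℕ :=
  if h : v ∈ Y then m ⟨v, h⟩ else 0

private theorem su_m_val (Y : Finset V) (m : {v // v ∈ Y} → ℕ) (v : {v // v ∈ Y}) :
    su_m Y m v.1 = m v := by
  unfold su_m
  rw [dif_pos v.2]

private theorem su_m_not {Y : Finset V} (m : {v // v ∈ Y} → ℕ) {v : V} (h : v ∉ Y) :
    su_m Y m v = 0 := by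
  unfold su_m
  rw [dif_neg h]

private theorem su_m_inj (Y : Finset V) : Function.Injective (su_m Y) := by
  intro m m' h
  funext v
  rw [← su_m_val Y m v, h, su_m_val]

/-- the extension of signs -/
private def su_a (Y : Finset V) (a : {v // v ∈ Y} → Bool) (v : V) : Bool :=
  if h : v ∈ Y then a ⟨v, h⟩ else true

private theorem su_a_val (Y : Finset V) (a : {v // v ∈ Y} → Bool) (v : {v // v ∈ Y}) :
    su_a Y a v.1 = a v := by
  unfold su_a
  rw [dif_pos v.2]

/-- products of powers -/
private theorem su_zp {G : SimpleGraph V} {p : V × Bool → A} (Y : Finset V) (FF : Finset V)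
    (a : {v // v ∈ Y} → Bool) (m : {v // v ∈ Y} → ℕ) (hm : Pos G FF (su_m Y m))
    (hc : ∀ u v, G.Adj u v → Commute (p (u, su_a Y a u)) (p (v, su_a Y a v))) :
    zp p (su_a Y a) (su_m Y m) = zp (fun x : {v // v ∈ Y} × Bool => p (x.1.1, x.2)) a m := by
  classical
  unfold zp
  obtain ⟨F, hF⟩ : ∃ F : V → A, F = fun z => p (z, su_a Y a z) ^ su_m Y m z := ⟨_, rfl⟩
  have hF1 : ∀ z ∉ Y, F z = 1 := by
    intro z hz
    rw [hF]
    show p (z, su_a Y a z) ^ su_m Y m z = 1
    rw [su_m_not m hz, pow_zero]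
  have hFv : ∀ z : {v // v ∈ Y}, F z.1 = p (z.1, a z) ^ m z := by
    intro z
    rw [hF]
    show p (z.1, su_a Y a z.1) ^ su_m Y m z.1 = p (z.1, a z) ^ m z
    rw [su_m_val, su_a_val]
  have hcF : ∀ x y, Commute (F x) (F y) := by
    intro x y
    rw [hF]
    show Commute (p (x, su_a Y a x) ^ su_m Y m x) (p (y, su_a Y a y) ^ su_m Y m y)
    by_cases h1 : su_m Y m x = 0
    · rw [h1, pow_zero]
      exact Commute.one_left _
    by_cases h2 : su_m Y m y = 0
    · rw [h2, pow_zero]
      exact Commute.one_right _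
    by_cases h3 : x = y
    · subst h3
      exact Commute.pow_pow_self _ _ _
    · exact (hc x y (hm.2 x y h1 h2 h3)).pow_pow _ _
  have hL : ((univ : Finset V).toList.map fun z => p (z, su_a Y a z) ^ su_m Y m z) =
      (univ : Finset V).toList.map F := by rw [hF]
  rw [hL]
  have hperm : (univ : Finset V).toList.Perm
      (((univ : Finset {v // v ∈ Y}).toList.map Subtype.val) ++ (Yᶜ).toList) := by
    rw [List.perm_ext_iff_of_nodup (nodup_toList _)]
    · intro z
      refine ⟨fun _ => List.mem_append.2 ?_, fun _ => mem_toList.2 (mem_univ z)⟩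
      by_cases hz : z ∈ Y
      · exact Or.inl (List.mem_map.2 ⟨⟨z, hz⟩, mem_toList.2 (mem_univ _), rfl⟩)
      · exact Or.inr (mem_toList.2 (mem_compl.2 hz))
    · rw [List.nodup_append]
      refine ⟨(nodup_toList _).map Subtype.val_injective, nodup_toList _, ?_⟩
      intro x hx y hy hxy
      rw [List.mem_map] at hx
      obtain ⟨z, _, rfl⟩ := hx
      rw [mem_toList, mem_compl] at hy
      exact hy (hxy ▸ z.2)
  have hpw : ∀ L : List V, (L.map F).Pairwise Commute := by
    intro L
    induction L with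
    | nil => exact List.Pairwise.nil
    | cons x L ih =>
      rw [List.map_cons]
      refine List.Pairwise.cons ?_ ih
      intro y hy
      obtain ⟨z, _, rfl⟩ := List.mem_map.1 hy
      exact hcF x z
  rw [(hperm.map F).prod_eq' (hpw _), List.map_append, List.prod_append, List.map_map]
  have h1 : ((Yᶜ).toList.map F).prod = 1 := by
    refine List.prod_eq_one fun x hx => ?_
    rw [List.mem_map] at hx
    obtain ⟨z, hz, rfl⟩ := hx
    rw [mem_toList, mem_compl] at hz
    exact hF1 z hz
  rw [h1, mul_one]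
  refine congrArg List.prod (List.map_congr_left fun z _ => ?_)
  exact hFv z

end main

theorem sepZ_sub {V A : Type} [Fintype V] [DecidableEq V] [Group A] {M : CoxeterMatrix V}
    {G : SimpleGraph V} (hM : RA G M) (Y FF : Finset V) {p : V × Bool → A}
    {pr : M.Group → V → ZMod 2} {g : (V → Bool) → M.Group → A}
    (hg : Apts M.toCoxeterSystem pr p g) {pr' : (sub M Y).Group → {v // v ∈ Y} → ZMod 2}
    {g' : ({v // v ∈ Y} → Bool) → (sub M Y).Group → A}
    (hg' : Apts (sub M Y).toCoxeterSystem pr' (fun x : {v // v ∈ Y} × Bool => p (x.1.1, x.2)) g')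
    (h : SepZ G M.toCoxeterSystem FF p g) :
    SepZ (G.comap (Subtype.val : {v // v ∈ Y} → V)) (sub M Y).toCoxeterSystem (rF FF Y)
      (fun x : {v // v ∈ Y} × Bool => p (x.1.1, x.2)) g' := by
  classical
  intro E
  have hinj := ind_hom_injective M Y
  obtain ⟨Φ, hΦ⟩ : ∃ Φ : ((sub M Y).Group × ({v // v ∈ Y} → ℕ)) ×
      ((sub M Y).Group × ({v // v ∈ Y} → ℕ)) → (M.Group × (V → ℕ)) × (M.Group × (V → ℕ)),
      ∀ q, Φ q = ((ind_hom M Y q.1.1, su_m Y q.1.2), (ind_hom M Y q.2.1, su_m Y q.2.2)) :=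
    ⟨_, fun _ => rfl⟩
  have hΦi : Function.Injective Φ := by
    intro q q' hq
    rw [hΦ, hΦ] at hq
    have h1 := congrArg (fun x => x.1.1) hq
    have h2 := congrArg (fun x => x.1.2) hq
    have h3 := congrArg (fun x => x.2.1) hq
    have h4 := congrArg (fun x => x.2.2) hq
    exact Prod.ext (Prod.ext (hinj h1) (su_m_inj Y h2)) (Prod.ext (hinj h3) (su_m_inj Y h4))
  -- the parities and the apartments
  have hpr : ∀ (w : (sub M Y).Group) (v : {v // v ∈ Y}), pr (ind_hom M Y w) v.1 = pr' w v := by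
    intro w
    induction w using (sub M Y).toCoxeterSystem.simple_induction_right with
    | one =>
      intro v
      rw [map_one, hg.pr_one, hg'.pr_one]
    | mul_simple_right w i ih =>
      intro v
      rw [map_mul, su_ind_simple, hg.pr_mul, hg'.pr_mul, ih]
      by_cases hvi : v = i
      · rw [if_pos hvi, if_pos (congrArg Subtype.val hvi)]
      · rw [if_neg hvi, if_neg fun h => hvi (Subtype.ext h)]
  have hgg : ∀ (a : V → Bool) (a' : {v // v ∈ Y} → Bool), (∀ v : {v // v ∈ Y}, a v.1 = a' v) →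
      ∀ w : (sub M Y).Group, g a (ind_hom M Y w) = g' a' w := by
    intro a a' haa w
    induction w using (sub M Y).toCoxeterSystem.simple_induction_right with
    | one => rw [map_one, hg.one, hg'.one]
    | mul_simple_right w i ih =>
      rw [map_mul, su_ind_simple, hg.mul, hg'.mul, ih, hpr, haa]
  -- the subgroup of the letters
  have hwf : ∀ w ∈ wf (sub M Y).toCoxeterSystem (rF FF Y), ind_hom M Y w ∈ wf M.toCoxeterSystem FF := by
    intro w hw
    have h1 : wf (sub M Y).toCoxeterSystem (rF FF Y) ≤ (wf M.toCoxeterSystem FF).comap (ind_hom M Y) := by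
      unfold wf
      rw [Subgroup.closure_le]
      rintro x ⟨v, hv, rfl⟩
      show ind_hom M Y ((sub M Y).toCoxeterSystem.simple v) ∈
        Subgroup.closure {x | ∃ v ∈ FF, x = M.toCoxeterSystem.simple v}
      rw [su_ind_simple]
      exact Subgroup.subset_closure ⟨v.1, mem_rF.1 hv, rfl⟩
    exact h1 hw
  have hpos : ∀ m : {v // v ∈ Y} → ℕ, Pos (G.comap (Subtype.val : {v // v ∈ Y} → V)) (rF FF Y) m →
      Pos G FF (su_m Y m) := by
    intro m hm
    have h1 : ∀ z, su_m Y m z ≠ 0 → ∃ hz : z ∈ Y, m ⟨z, hz⟩ ≠ 0 := by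
      intro z hz
      by_cases hzY : z ∈ Y
      · refine ⟨hzY, ?_⟩
        rw [← su_m_val Y m ⟨z, hzY⟩]
        exact hz
      · exact absurd (su_m_not m hzY) hz
    refine ⟨fun z hz hzF => ?_, fun y z hy hz hyz => ?_⟩
    · obtain ⟨h2, h3⟩ := h1 z hz
      exact hm.1 _ h3 (mem_rF.2 hzF)
    · obtain ⟨h2, h3⟩ := h1 y hy
      obtain ⟨h4, h5⟩ := h1 z hz
      exact hm.2 _ _ h3 h5 fun h6 => hyz (congrArg Subtype.val h6)
  have hcomm : ∀ (w : (sub M Y).Group) (z : {v // v ∈ Y}),
      M.toCoxeterSystem.simple z.1 * ind_hom M Y w = ind_hom M Y w * M.toCoxeterSystem.simple z.1 ↔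
      (sub M Y).toCoxeterSystem.simple z * w = w * (sub M Y).toCoxeterSystem.simple z := by
    intro w z
    rw [← su_ind_simple, ← map_mul, ← map_mul]
    exact hinj.eq_iff
  refine Set.Finite.of_finite_image (f := Φ) ((h E).subset ?_) hΦi.injOn
  rintro _ ⟨q, ⟨h1, h2, h3, h4, a, b, hopp, hE⟩, rfl⟩
  rw [hΦ]
  have hp1 := hpos _ h3
  have hp2 := hpos _ h4
  refine ⟨hwf _ h1, hwf _ h2, hp1, hp2, su_a Y a, su_a Y b, ⟨?_, ?_, ?_, ?_⟩, ?_⟩
  · intro v hv hv'
    obtain ⟨hvY, h5⟩ := (su_fst Y q.1.1).1 hv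
    obtain ⟨_, h6⟩ := (su_fst Y q.2.1).1 hv'
    have h7 := hopp.fst _ h5 h6
    rw [← su_a_val Y a ⟨v, hvY⟩, ← su_a_val Y b ⟨v, hvY⟩] at h7
    exact h7
  · intro z hz hz' hw hw'
    by_cases hzY : z ∈ Y
    · have h5 : q.1.2 ⟨z, hzY⟩ ≠ 0 := by
        rw [← su_m_val Y q.1.2 ⟨z, hzY⟩]
        exact hz
      have h6 : q.2.2 ⟨z, hzY⟩ ≠ 0 := by
        rw [← su_m_val Y q.2.2 ⟨z, hzY⟩]
        exact hz'
      have h7 := hopp.free _ h5 h6 ((hcomm q.1.1 ⟨z, hzY⟩).1 hw) ((hcomm q.2.1 ⟨z, hzY⟩).1 hw')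
      rw [← su_a_val Y a ⟨z, hzY⟩, ← su_a_val Y b ⟨z, hzY⟩] at h7
      exact h7
    · exact absurd (su_m_not _ hzY) hz
  · intro z hz hw
    by_cases hzY : z ∈ Y
    · have h5 : q.1.2 ⟨z, hzY⟩ ≠ 0 := by
        rw [← su_m_val Y q.1.2 ⟨z, hzY⟩]
        exact hz
      have h7 := hopp.left _ h5 fun h8 => hw ((hcomm q.1.1 ⟨z, hzY⟩).2 h8)
      rw [← su_a_val Y a ⟨z, hzY⟩] at h7
      exact h7
    · exact absurd (su_m_not _ hzY) hz
  · intro z hz hw
    by_cases hzY : z ∈ Y
    · have h5 : q.2.2 ⟨z, hzY⟩ ≠ 0 := by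
        rw [← su_m_val Y q.2.2 ⟨z, hzY⟩]
        exact hz
      have h7 := hopp.right _ h5 fun h8 => hw ((hcomm q.2.1 ⟨z, hzY⟩).2 h8)
      rw [← su_a_val Y b ⟨z, hzY⟩] at h7
      exact h7
    · exact absurd (su_m_not _ hzY) hz
  · show (g (su_a Y a) (ind_hom M Y q.1.1) * zp p (su_a Y a) (su_m Y q.1.2))⁻¹ *
      (g (su_a Y b) (ind_hom M Y q.2.1) * zp p (su_a Y b) (su_m Y q.2.2)) ∈ E
    rw [hgg _ a (su_a_val Y a), hgg _ b (su_a_val Y b),
      su_zp Y FF a q.1.2 hp1 (fun u v huv => su_comm hM hg huv _),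
      su_zp Y FF b q.2.2 hp2 (fun u v huv => su_comm hM hg huv _)]
    exact hE

/-- the Coxeter matrix of a full subgraph -/
theorem ra_sub {V : Type} [Fintype V] [DecidableEq V] {M : CoxeterMatrix V} {G : SimpleGraph V}
    (hM : RA G M) (Y : Finset V) : RA (G.comap (Subtype.val : {v // v ∈ Y} → V)) (sub M Y) :=
  fun u v h => hM u.1 v.1 fun h' => h (Subtype.ext h')

end Pool.Agent.H65.AB
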