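import Pool.Agent.H65.AB.MainZ
import Pool.Agent.H65.AB.SepAB
import Pool.Agent.H65.AB.SepN
import Pool.Agent.H65.AB.SepU
import Pool.Agent.H65.AB.HzIso
import Pool.Agent.H93.AA.Sd
import Pool.Agent.H10.CI.Ex

/-!
# Project AB: the nerve
-/

set_option autoImplicit false
set_option linter.unusedSectionVars false

open Finset

namespace Pool.Agent.H65.AB

open H42.NU Pool.Agent.H4.FC Pool.Agent.H78.RC Pool.Agent.H93.AA Pool.Agent.H65.RA
  Pool.Agent.H65.RM Pool.Agent.H37.TM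
open Pool.Agent.H73.LK (sub)
open Pool.Agent.H10.CI (CoarseEmb CoarseEmb.hom CoarseEmb.comp exists_inter_coarse)

variable {S : Type} [Fintype S] [DecidableEq S] (M : CoxeterMatrix S) (F : Finset S)
  (Γ : S → Type) [∀ v, Group (Γ v)]

/-- the subgroup generated by the groups `Γ v`, `v ∈ F`, and by the powers `Δ_X ^ (2 N)` -/
def AN (N : ℕ) : Subgroup (AG M F Γ) :=
  Subgroup.closure ({x | ∃ v ∈ F, ∃ a : Γ v, x = io M F v a} ∪
    {x | ∃ X : Irr M, x = th M F Γ (xg M X) ^ N})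

/-- For some `N > 0` the subgroup `AN M F Γ N` generated by the groups `Γ v` and by the `Δ_X ^ (2 N)` is coarsely
embedded into the group `Λ`. -/
def CEm (Λ : Type) [Group Λ] : Prop := ∃ N : ℕ, 0 < N ∧ ∃ f : AN M F Γ N → Λ, CoarseEmb f

variable {M F Γ} {U : Type} [DecidableEq U] {Λ : Type} [Group Λ]

/-- a coarse embedding of the whole group -/
theorem cem_of_ce {f : AG M F Γ → Λ} (hf : CoarseEmb f) : CEm M F Γ Λ :=
  ⟨1, one_pos, _, hf.comp (CoarseEmb.hom (f := (AN M F Γ 1).subtype) Subtype.val_injective)⟩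

/-- subgroups which contain up to finite index the groups `Γ v`, `v ∈ F`, and powers of all `Δ_X ^ 2` -/
theorem cem_of_relIndex (P : Subgroup (AG M F Γ)) {N : ℕ} (hN : 0 < N)
    (hP : P.relIndex (AN M F Γ N) ≠ 0) : CEm M F Γ P := by
  let P' : Subgroup (AN M F Γ N) := P.comap (AN M F Γ N).subtype
  have hfi : P'.FiniteIndex := ⟨hP⟩
  let φ : P' →* P := (AN M F Γ N).subtype.subgroupComap P
  have hφ : Function.Injective φ := by
    intro a b hab
    have h1 : a.1.1 = b.1.1 := congrArg (fun x : P => (x : AG M F Γ)) hab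
    exact Subtype.ext (Subtype.ext h1)
  obtain ⟨f, hf⟩ := Pool.Agent.H10.CI.exists_ce_index P'
  exact ⟨N, hN, _, (CoarseEmb.hom hφ).comp hf⟩

theorem cem_of_finiteIndex (P : Subgroup (AG M F Γ)) [P.FiniteIndex] : CEm M F Γ P :=
  cem_of_relIndex P one_pos fun h => Subgroup.FiniteIndex.index_ne_zero (H := P)
    (Subgroup.index_eq_zero_of_relIndex_eq_zero h)

open Classical in
/-- the elements of the letters in the subgroup `AN` -/
private noncomputable def pN [Fintype (Irr M)] (N : ℕ) (q : ∀ v, Bool → Γ v) (x : Irr M × Bool) :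
    AG M F Γ :=
  if x.1 ∈ lF M F then pA M F q x else pA M F q x ^ N

private theorem pN_mem [Fintype (Irr M)] (N : ℕ) (q : ∀ v, Bool → Γ v) (x : Irr M × Bool) :
    pN N q x ∈ AN M F Γ N := by
  obtain ⟨X, b⟩ := x
  unfold pN
  by_cases hX : X ∈ lF M F
  · rw [if_pos hX]
    obtain ⟨v, hv, rfl⟩ := mem_lF.1 hX
    rw [pA_sing q hv]
    exact Subgroup.subset_closure (Or.inl ⟨v, hv, _, rfl⟩)
  · rw [if_neg hX]
    have h1 : th M F Γ (xg M X) ^ N ∈ AN M F Γ N := Subgroup.subset_closure (Or.inr ⟨X, rfl⟩)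
    cases b
    · rw [pA_false q hX, inv_pow]
      exact (AN M F Γ N).inv_mem h1
    · rw [pA_true q hX]
      exact h1

private theorem pN_comm [Fintype (Irr M)] (hM : Mix M F) (N : ℕ) (q : ∀ v, Bool → Γ v)
    (x y : Irr M × Bool) (h : (oct (nG M)).Adj x y) : Commute (pN (F := F) N q x) (pN N q y) := by
  have h1 : Commute (pA M F q x) (pA M F q y) := pA_comm hM q x y h
  unfold pN
  split_ifs
  · exact h1
  · exact h1.pow_right N
  · exact h1.pow_left N
  · exact h1.pow_pow N N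

/-- **The nerves of all full subgroups.** -/
theorem hl_of_cem (hM : Mix M F) (h3 : ∀ v ∈ F, ∃ x y : Γ v, x ≠ 1 ∧ y ≠ 1 ∧ x ≠ y)
    (hE : CEm M F Γ Λ) [MulAction Λ U] {K B : Set (Finset U)} {n k : ℕ}
    (hMf : Mfd K B n) (hK : Acyc K) (hA : PAct Λ K B) (hn : n ≤ 2 * k + 1) (Y : Finset S) :
    HL (sub M Y) (k + 1) := by
  classical
  let fI : Fintype (Irr M) := Fintype.ofFinite _
  obtain ⟨N, hN, f, hf⟩ := hE
  -- the elements of the finite groups
  have hq : ∃ q : ∀ v, Bool → Γ v, (∀ v ∈ F, ∀ b, q v b ≠ 1) ∧ ∀ v ∈ F, q v true ≠ q v false := by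
    have h4 : ∀ v, ∃ q : Bool → Γ v, v ∈ F → (∀ b, q b ≠ 1) ∧ q true ≠ q false := by
      intro v
      by_cases hv : v ∈ F
      · obtain ⟨x, y, hx, hy, hxy⟩ := h3 v hv
        refine ⟨fun b => if b then x else y, fun _ => ⟨fun b => ?_, hxy⟩⟩
        cases b
        · exact hy
        · exact hx
      · exact ⟨fun _ => 1, fun h => absurd h hv⟩
    choose q hq using h4
    exact ⟨q, fun v hv => (hq v hv).1, fun v hv => (hq v hv).2⟩
  obtain ⟨q, hq1, hq2⟩ := hq
  obtain ⟨M', hM'⟩ := Pool.Agent.H65.BU.exists_ra (nG M)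
  obtain ⟨pr, g, hg⟩ := Pool.Agent.H65.BU.exists_apts hM' M'.toCoxeterSystem (pA M F q)
    (pA_comm hM q)
  have hsep := sepZ_ab hM hM' hq1 hq2 hg
  -- the letters
  let Z := lU M Y
  let G' : SimpleGraph {X // X ∈ Z} := (nG M).comap (Subtype.val : {X // X ∈ Z} → Irr M)
  let cs' := (sub M' Z).toCoxeterSystem
  let p1 : {X // X ∈ Z} × Bool → AG M F Γ := fun x => pA M F q (x.1.1, x.2)
  have hp1 : ∀ x y, (oct G').Adj x y → p1 x * p1 y = p1 y * p1 x := fun x y h =>
    pA_comm hM q (x.1.1, x.2) (y.1.1, y.2) h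
  obtain ⟨pr1, g1, hg1⟩ := Pool.Agent.H65.BU.exists_apts (ra_sub hM' Z) cs' p1 hp1
  have hsep1 := sepZ_sub hM' Z (lF M F) hg hg1 hsep
  -- the subgroup
  let p' : {X // X ∈ Z} × Bool → AN M F Γ N := fun x => ⟨pN N q (x.1.1, x.2), pN_mem N q _⟩
  have hp' : ∀ x y, (oct G').Adj x y → p' x * p' y = p' y * p' x := fun x y h =>
    Subtype.ext (pN_comm hM N q (x.1.1, x.2) (y.1.1, y.2) h).eq
  obtain ⟨H, hH⟩ := exists_inter_coarse (oct G') p' hp' hMf hK hA hf
  refine hl_of_hz_lU Y (hz_of_interZ (ra_sub hM' Z) cs' (rF (lF M F) Z) p' hp'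
    (fun pr' g' hg' => ?_) hH hn)
  refine sepZ_pow (ra_sub hM' Z) hN (AN M F Γ N).subtype (fun x hx => ?_) (fun x hx => ?_) hg1 hg'
    hsep1
  · show pN N q (x.1.1, x.2) = _
    unfold pN
    rw [if_pos (mem_rF.1 hx)]
  · show pN N q (x.1.1, x.2) = _
    unfold pN
    rw [if_neg fun h => hx (mem_rF.2 h)]

end Pool.Agent.H65.AB
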