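import Pool.Agent.H65.AB.HHZ
import Pool.Agent.H65.AB.HalfZ
import Pool.Agent.H65.AB.SumZ
import Pool.Agent.H65.AB.EvalZ
import Pool.Agent.H65.BU.Main

/-!
# Project AB: the main theorem, abstract form

PROOF: as `hz_of_inter` in BU/Main.
-/

set_option autoImplicit false

open Finset

namespace Pool.Agent.H65.AB

open Pool.Agent.H65.RA Pool.Agent.H65.RM Pool.Agent.H37.TM Pool.Agent.H85.VK Pool.Agent.H65.BU

/-- **The main theorem, from intersection numbers.** -/
theorem hz_of_interZ {V W A : Type} [Fintype V] [DecidableEq V] [Group W] [Group A]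
    {M : CoxeterMatrix V} {G : SimpleGraph V} (hM : RA G M) (cs : CoxeterSystem M W) (FF : Finset V)
    (p : V × Bool → A) (hp : ∀ x y, (oct G).Adj x y → p x * p y = p y * p x)
    (hsep : ∀ (pr : W → V → ZMod 2) (g : (V → Bool) → W → A), Apts cs pr p g → SepZ G cs FF p g)
    {n k : ℕ} {H : A → Finset (V × Bool) → A → Finset (V × Bool) → ZMod 2}
    (hH : Inter (oct G) p n H) (hn : n ≤ 2 * k + 1) : HZ G (k + 1) := by
  have hF := facts_of_ra hM cs
  obtain ⟨pr, g, hg⟩ := exists_apts hM cs p hp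
  obtain ⟨φ, hφ1, hφ2, hφ3, hφ4⟩ := exists_hhZ hM hF hg hp (hsep pr g hg) hH
  refine Pool.Agent.H75.Oct.hz_of_pairing G (k + 1) fun x z hx hz hdz => ?_
  let e : V → ℕ := fun v => (Fintype.equivFin V v : ℕ)
  have he : Function.Injective e := fun a b hab =>
    (Fintype.equivFin V).injective (Fin.ext hab)
  have hν := nu_inj he
  have hD1 : ∀ c c', OkF G cs FF pr c c' →
      dlF cs FF (fun c c' => φ c c' + AA (nu e) c c') c c' =
      (φ c c' + AA (nu e) c c') + (φ c' c + AA (nu e) c' c) := by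
    intro c c' h
    have h0 : ∀ (P : Prop) [Decidable P] (x y : ZMod 2), (if P then x + y else 0) =
        (if P then x else 0) + (if P then y else 0) := by
      intro P _ x y
      split_ifs
      · rfl
      · rw [add_zero]
    have h1 : dlF cs FF (fun c c' => φ c c' + AA (nu e) c c') c c' =
        dlF cs FF φ c c' + dlF cs FF (AA (nu e)) c c' := by
      unfold dlF
      simp only [h0, sum_add_distrib]
      ring
    rw [h1, hφ1 c c' h, AA_relF hF hg hν c c' h]
    ring
  have hD2 : φ (b0 V W) (b0 V W) + AA (nu e) (b0 V W) (b0 V W) = 0 := by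
    rw [hφ2, AA_b0]
    decide
  have hD3 : FinSupp (fun c c' : Cub V W => φ c c' + AA (nu e) c c') := by
    refine (hφ4.union (AA_fin (nu e))).subset ?_
    rintro q ⟨s, a, t, b, h⟩
    by_cases h1 : φ (q.1, s, a) (q.2, t, b) = 0
    · refine Or.inr ⟨s, a, t, b, fun h2 => h ?_⟩
      beta_reduce
      rw [h1, h2, add_zero]
    · exact Or.inl ⟨s, a, t, b, h1⟩
  obtain ⟨d, d', hd, hd', hdd⟩ := exists_halfF hF hg _ hD1 hD2 hD3 (2 * k + 2)
  have key : ∀ s t : Finset V, z s ≠ 0 → z t ≠ 0 → Ps G e x k (eP (nu e)) s t =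
      (∑ v ∈ s, KKF G cs FF pr e x k d (s.erase v) t +
        ∑ v ∈ t, KKF G cs FF pr e x k d s (t.erase v)) +
      (KKF G cs FF pr e x k d' s t + KKF G cs FF pr e x k d' t s) := by
    intro s t hs ht
    obtain ⟨h1, h2⟩ := hz s hs
    obtain ⟨h3, h4⟩ := hz t ht
    have hd'' : FinSupp (fun c c' : Cub V W => d' c' c) := by
      refine (hd'.image Prod.swap).subset ?_
      rintro q ⟨s, a, t, b, h⟩
      exact ⟨q.swap, ⟨t, b, s, a, h⟩, Prod.swap_swap q⟩
    have hds : FinSupp (fun c c' : Cub V W => d' c c' + d' c' c) := by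
      refine (hd'.union hd'').subset ?_
      rintro q ⟨s, a, t, b, h⟩
      by_cases h1 : d' (q.1, s, a) (q.2, t, b) = 0
      · refine Or.inr ⟨s, a, t, b, fun h2 => h ?_⟩
        beta_reduce at h2 ⊢
        rw [h1, h2, add_zero]
      · exact Or.inl ⟨s, a, t, b, h1⟩
    rw [← KKF_AA (FF := FF) hg (nu e) s t, ← KKF_dl hF hg he hx hd h1 h3,
      ← KKF_swap he hx d' s t, ← KKF_add hd' hd'' s t, ← KKF_add (finSupp_dlF hd) hds s t]
    refine KKF_congr h1 h3 fun w w' a b hok => ?_
    have h5 := hdd _ _ hok (by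
      show s.card + t.card = 2 * k + 2
      omega)
    have h6 : φ (w, s, a) (w', t, b) = 0 := hφ3 _ _ (by
      show n < s.card + t.card
      omega)
    beta_reduce at h5
    rw [h6, zero_add] at h5
    exact h5
  have h7 := pair_ev he hx z hz
  have h8 : ∑ s : Finset V, ∑ t : Finset V, z s * z t * Ps G e x k (eP (nu e)) s t =
      ∑ s : Finset V, ∑ t : Finset V, z s * z t *
      ((∑ v ∈ s, KKF G cs FF pr e x k d (s.erase v) t +
        ∑ v ∈ t, KKF G cs FF pr e x k d s (t.erase v)) +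
      (KKF G cs FF pr e x k d' s t + KKF G cs FF pr e x k d' t s)) := by
    refine sum_congr rfl fun s _ => sum_congr rfl fun t _ => ?_
    by_cases hs : z s = 0
    · rw [hs, zero_mul, zero_mul, zero_mul]
    · by_cases ht : z t = 0
      · rw [ht, mul_zero, zero_mul, zero_mul]
      · rw [key s t hs ht]
  rw [← h7, h8]
  exact double_sum z hdz (fun s t => KKF G cs FF pr e x k d s t)
    fun s t => KKF G cs FF pr e x k d' s t

end Pool.Agent.H65.AB
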