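import Pool.Agent.H65.AB.Grp

/-!
# Project AB: common neighbours
-/

set_option autoImplicit false
set_option linter.unusedSectionVars false

open Finset

namespace Pool.Agent.H65.AB

variable {S : Type} [Fintype S] [DecidableEq S] {M : CoxeterMatrix S} {F : Finset S}

/-- the common neighbours of `T` (labels two) -/
def nb (M : CoxeterMatrix S) (T : Finset S) : Finset S := univ.filter fun s => ∀ v ∈ T, M v s = 2

theorem mem_nb {T : Finset S} {s : S} : s ∈ nb M T ↔ ∀ v ∈ T, M v s = 2 := by
  unfold nb
  rw [mem_filter]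
  exact ⟨fun h => h.2, fun h => ⟨mem_univ s, h⟩⟩

/-- pairwise orthogonal -/
def Orth (M : CoxeterMatrix S) (T : Finset S) : Prop := ∀ u ∈ T, ∀ v ∈ T, u ≠ v → M u v = 2

end Pool.Agent.H65.AB
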