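import Pool.Agent.H65.AB.Let
import Pool.Agent.H65.AB.Zp
import Pool.Agent.H93.AA.Ex

/-!
# Project AB: crossing numbers and the subgroups generated by sets of generators

PROOF. `Ψ : BG M →* CW M.Group` the crossing homomorphism (`exists_cross`, `cross_xg` of H93/AA/Ex), `t` the reflection
with full support of `X` (`exists_full_rf`; here also for non-spherical sets: `IsRf M Y t → X ⊆ Y` for every `Y`).
Elements of `gp M Y` have crossing numbers supported on the reflections of `W_Y` (closure induction). So if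
`b = zp ... * ρ ∈ gp M Y`, then `0 = Ψ(b).left t = Ψ(zp).left t + Ψ(ρ).left t` (`zp` is in the pure Artin group), and
`Ψ(zp).left t = ∑_(Z ⊇ X) 2 m Z ≥ 2 m X` (all the signs are `true`).
-/

set_option autoImplicit false
set_option linter.unusedSectionVars false

open Finset

namespace Pool.Agent.H65.AB

open H42.NU Pool.Agent.H4.FC Pool.Agent.H78.RC Pool.Agent.H93.AA

section

open Pool.Agent.H85.AA Pool.Agent.H73.HVN

variable {S : Type} [Fintype S] [DecidableEq S]

private theorem wn_isRf_of_mem (M : CoxeterMatrix S) {T : Finset S} : ∀ ω : List S,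
    (∀ i ∈ ω, i ∈ T) → ∀ r ∈ M.toCoxeterSystem.leftInvSeq ω, IsRf M T r := by
  intro ω
  induction ω with
  | nil =>
    intro _ r hr
    exact absurd hr (List.not_mem_nil)
  | cons i ω ih =>
    intro hω r hr
    have hi : i ∈ T := hω i List.mem_cons_self
    have hr' : r ∈ M.toCoxeterSystem.simple i :: List.map (MulAut.conj
      (M.toCoxeterSystem.simple i)) (M.toCoxeterSystem.leftInvSeq ω) := hr
    rw [M.toCoxeterSystem_simple] at hr'
    rcases List.mem_cons.1 hr' with rfl | hr'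
    · exact ⟨1, one_mem _, i, hi, by rw [one_mul, inv_one, mul_one]⟩
    · obtain ⟨q, hq, rfl⟩ := List.mem_map.1 hr'
      have h1 := ih (fun j hj => hω j (List.mem_cons_of_mem _ hj)) q hq
      rw [MulAut.conj_apply]
      exact h1.conj (simple_mem_par M hi)

private theorem wn_isReflection (M : CoxeterMatrix S) {T : Finset S} {r : M.Group}
    (h : IsRf M T r) : M.toCoxeterSystem.IsReflection r := by
  obtain ⟨w, -, s, -, rfl⟩ := h
  exact ⟨w, s, by rw [M.toCoxeterSystem_simple]⟩

private theorem wn_mem_par (M : CoxeterMatrix S) {T : Finset S} {r : M.Group}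
    (h : IsRf M T r) : r ∈ par M T := by
  obtain ⟨w, hw, s, hs, rfl⟩ := h
  exact mul_mem (mul_mem hw (simple_mem_par M hs)) (inv_mem hw)

private theorem wn_mem_WP (M : CoxeterMatrix S) {T : Finset S} {w : M.Group} (hw : w ∈ par M T) :
    w ∈ WP M.toCoxeterSystem (T : Set S) := by
  refine (Subgroup.closure_le (K := WP M.toCoxeterSystem (T : Set S))).2 ?_ hw
  rintro x ⟨v, hv, rfl⟩
  refine Subgroup.subset_closure ⟨v, hv, ?_⟩
  rw [M.toCoxeterSystem_simple]

/-- a reflection which shortens an element is one of its inversions -/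
private theorem wn_inv (M : CoxeterMatrix S) {ω : List S} {r : M.Group}
    (hr : M.toCoxeterSystem.IsReflection r)
    (h : M.toCoxeterSystem.length (r * M.toCoxeterSystem.wordProd ω) <
      M.toCoxeterSystem.length (M.toCoxeterSystem.wordProd ω)) :
    r ∈ M.toCoxeterSystem.leftInvSeq ω := by
  have h3 : M.toCoxeterSystem.length (M.toCoxeterSystem.wordProd ω.reverse * r) <
      M.toCoxeterSystem.length (M.toCoxeterSystem.wordProd ω.reverse) := by
    rw [M.toCoxeterSystem.wordProd_reverse, M.toCoxeterSystem.length_inv]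
    have h4 : (M.toCoxeterSystem.wordProd ω)⁻¹ * r = (r * M.toCoxeterSystem.wordProd ω)⁻¹ := by
      rw [mul_inv_rev, hr.inv]
    rw [h4, M.toCoxeterSystem.length_inv]
    exact h
  obtain ⟨j, hj, hjr⟩ := strong_exchange M.toCoxeterSystem hr h3
  rw [← M.toCoxeterSystem.wordProd_mul_getD_rightInvSeq] at hjr
  have h5 := mul_left_cancel hjr
  have hj' : j < (M.toCoxeterSystem.rightInvSeq ω.reverse).length := by
    rw [M.toCoxeterSystem.length_rightInvSeq]
    exact hj
  rw [List.getD_eq_getElem _ 1 hj'] at h5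
  have h6 : r ∈ M.toCoxeterSystem.rightInvSeq ω.reverse := by
    rw [h5]
    exact List.getElem_mem hj'
  rw [M.toCoxeterSystem.rightInvSeq_reverse, List.mem_reverse] at h6
  exact h6

/-- the inversions of the longest element -/
private theorem wn_lis (M : CoxeterMatrix S) {T : Finset S} (hT : Sph M T) {ω : List S}
    (hω : M.toCoxeterSystem.IsReduced ω) (hw : lw M T = M.toCoxeterSystem.wordProd ω)
    (r : M.Group) : r ∈ M.toCoxeterSystem.leftInvSeq ω ↔ IsRf M T r := by
  have hl := lw_spec M hT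
  constructor
  · refine fun h => wn_isRf_of_mem M ω ?_ r h
    have h1 := wn_mem_WP M hl.1
    rw [hw] at h1
    exact fun i hi => mem_coe.1 (mem_of_isReduced M.toCoxeterSystem hω h1 i hi)
  · intro h
    have hr := wn_isReflection M h
    have h1 : M.toCoxeterSystem.length (r * lw M T) ≤ M.toCoxeterSystem.length (lw M T) :=
      hl.2 _ (mul_mem (wn_mem_par M h) hl.1)
    have h2 : M.toCoxeterSystem.length (r * lw M T) ≠ M.toCoxeterSystem.length (lw M T) :=
      hr.length_mul_right_ne _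
    refine wn_inv M hr ?_
    rw [← hw]
    exact lt_of_le_of_ne h1 h2

open Classical in
/-- the crossing numbers of the squares -/
private theorem wn_xg (M : CoxeterMatrix S) {Ψ : BG M →* CW M.Group}
    (hΨ : ∀ s, Ψ (bgen M s) = cgen M.toCoxeterSystem.simple s) {T : Finset S} (hT : Sph M T) :
    Ψ (dlt M T ^ 2) = (⟨Multiplicative.ofAdd fun r => if IsRf M T r then 2 else 0, 1⟩ :
      CW M.Group) := by
  obtain ⟨hred, hword⟩ := (M.toCoxeterSystem.exists_isReduced (lw M T)).choose_spec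
  have h1 : dlt M T = ((M.toCoxeterSystem.exists_isReduced (lw M T)).choose.map
    (bgen M)).prod := rfl
  generalize (M.toCoxeterSystem.exists_isReduced (lw M T)).choose = ω at h1 hred hword
  have h2 : Ψ (dlt M T) = (⟨Multiplicative.ofAdd fun r => if IsRf M T r then 1 else 0,
      lw M T⟩ : CW M.Group) := by
    rw [h1, cross_word hΨ ω, ← hword]
    apply SemidirectProduct.ext
    · show Multiplicative.ofAdd (fun r => ((M.toCoxeterSystem.leftInvSeq ω).count r : ℤ)) =
        Multiplicative.ofAdd fun r => if IsRf M T r then 1 else 0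
      congr 1
      funext r
      have h3 := wn_lis M hT hred hword r
      rw [List.Nodup.count (hred.nodup_leftInvSeq)]
      by_cases h4 : IsRf M T r
      · rw [if_pos h4, if_pos (h3.2 h4)]
        rfl
      · rw [if_neg h4, if_neg fun h5 => h4 (h3.1 h5)]
        rfl
    · rfl
  rw [pow_two, map_mul, h2]
  have hl := lw_spec M hT
  apply SemidirectProduct.ext
  · show Multiplicative.ofAdd ((fun r => if IsRf M T r then (1 : ℤ) else 0) +
      cjE (lw M T) fun r => if IsRf M T r then (1 : ℤ) else 0) =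
      Multiplicative.ofAdd fun r => if IsRf M T r then 2 else 0
    congr 1
    funext r
    show (if IsRf M T r then (1 : ℤ) else 0) +
      (if IsRf M T ((lw M T)⁻¹ * r * lw M T) then (1 : ℤ) else 0) = if IsRf M T r then 2 else 0
    have h3 : IsRf M T ((lw M T)⁻¹ * r * lw M T) ↔ IsRf M T r := by
      constructor
      · intro h
        have h4 := h.conj hl.1
        have h5 : lw M T * ((lw M T)⁻¹ * r * lw M T) * (lw M T)⁻¹ = r := by group
        rwa [h5] at h4
      · intro h
        have h4 := h.conj (inv_mem hl.1)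
        rwa [inv_inv] at h4
    by_cases h4 : IsRf M T r
    · rw [if_pos h4, if_pos (h3.2 h4), if_pos h4]
      norm_num
    · rw [if_neg h4, if_neg fun h5 => h4 (h3.1 h5), if_neg h4, add_zero]
  · show lw M T * lw M T = 1
    exact lw_mul_self M hT

/-- reflections with full support, arbitrary sets of generators -/
private theorem wn_full (M : CoxeterMatrix S) {X : Finset S} (hX : Sph M X)
    (hc : Con (diag M) X) : ∃ t, ∀ Y, IsRf M Y t ↔ X ⊆ Y := by
  obtain ⟨t, ht, h⟩ := exists_full_rf M hX hc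
  refine ⟨t, fun Y => ⟨fun hY => ?_, fun hXY => ht.mono hXY⟩⟩
  obtain ⟨ω, hred, hω⟩ := M.toCoxeterSystem.exists_isReduced t
  have h1 : ∀ i ∈ ω, i ∈ X ∩ Y := by
    intro i hi
    have h2 := wn_mem_WP M (wn_mem_par M ht)
    have h3 := wn_mem_WP M (wn_mem_par M hY)
    rw [hω] at h2 h3
    exact mem_inter.2 ⟨mem_coe.1 (mem_of_isReduced M.toCoxeterSystem hred h2 i hi),
      mem_coe.1 (mem_of_isReduced M.toCoxeterSystem hred h3 i hi)⟩
  have hr := wn_isReflection M ht
  have h4 : t ∈ M.toCoxeterSystem.leftInvSeq ω := by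
    refine wn_inv M hr ?_
    rw [← hω, hr.mul_self, M.toCoxeterSystem.length_one]
    exact hr.odd_length.pos
  have h5 := wn_isRf_of_mem M ω h1 t h4
  have h6 := (h (X ∩ Y) (hX.mono inter_subset_left)).1 h5
  exact h6.trans inter_subset_right

/-- the crossing numbers of the elements of `gp M Y` -/
private theorem wn_gp (M : CoxeterMatrix S) {Ψ : BG M →* CW M.Group}
    (hΨ : ∀ s, Ψ (bgen M s) = cgen M.toCoxeterSystem.simple s) {Y : Finset S} {x : BG M}
    (hx : x ∈ gp M Y) : (Ψ x).right ∈ par M Y ∧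
      ∀ r, ¬ IsRf M Y r → Multiplicative.toAdd (Ψ x).left r = 0 := by
  have hcj : ∀ w ∈ par M Y, ∀ r, ¬ IsRf M Y r → ¬ IsRf M Y (w⁻¹ * r * w) := by
    intro w hw r hr h
    have h1 := h.conj hw
    have h2 : w * (w⁻¹ * r * w) * w⁻¹ = r := by group
    rw [h2] at h1
    exact hr h1
  refine Subgroup.closure_induction (p := fun x _ => (Ψ x).right ∈ par M Y ∧
      ∀ r, ¬ IsRf M Y r → Multiplicative.toAdd (Ψ x).left r = 0) ?_ ?_ ?_ ?_ hx
  · rintro x ⟨s, hs, rfl⟩
    rw [hΨ]
    refine ⟨?_, fun r hr => ?_⟩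
    · show M.toCoxeterSystem.simple s ∈ par M Y
      rw [M.toCoxeterSystem_simple]
      exact simple_mem_par M hs
    · show ind (M.toCoxeterSystem.simple s) r = 0
      unfold ind
      rw [if_neg]
      rintro rfl
      refine hr ⟨1, one_mem _, s, hs, ?_⟩
      rw [M.toCoxeterSystem_simple, one_mul, inv_one, mul_one]
  · rw [map_one]
    exact ⟨one_mem _, fun r _ => rfl⟩
  · rintro x y _ _ ⟨hx1, hx2⟩ ⟨hy1, hy2⟩
    rw [map_mul]
    refine ⟨mul_mem hx1 hy1, fun r hr => ?_⟩
    show Multiplicative.toAdd (Ψ x).left r +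
      Multiplicative.toAdd (Ψ y).left ((Ψ x).right⁻¹ * r * (Ψ x).right) = 0
    rw [hx2 r hr, hy2 _ (hcj _ hx1 r hr), add_zero]
  · rintro x _ ⟨hx1, hx2⟩
    rw [map_inv]
    refine ⟨inv_mem hx1, fun r hr => ?_⟩
    show -Multiplicative.toAdd (Ψ x).left ((Ψ x).right⁻¹⁻¹ * r * (Ψ x).right⁻¹) = 0
    rw [hx2 _ (hcj _ (inv_mem hx1) r hr), neg_zero]

variable {M : CoxeterMatrix S} [Fintype (Irr M)]

theorem wn_bound (X : Irr M) {Y : Finset S} (hXY : ¬ X.1 ⊆ Y) (ρ : BG M) :
    ∃ N : ℕ, ∀ (m : Irr M → ℕ) (a : Irr M → Bool),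
      (∀ Z, m Z ≠ 0 → X.1 ⊆ Z.1 → a Z = true) →
      zp (fun x : Irr M × Bool => if x.2 then xg M x.1 else (xg M x.1)⁻¹) a m * ρ ∈ gp M Y →
      m X ≤ N := by
  classical
  obtain ⟨Ψ, hΨ⟩ := exists_cross (M := M) M.toCoxeterSystem
  obtain ⟨t, ht⟩ := wn_full M X.2.1 X.2.2
  obtain ⟨Γ, hΓ⟩ : ∃ Γ : Subgroup (BG M), ∀ g, g ∈ Γ ↔ (Ψ g).right = 1 :=
    ⟨(SemidirectProduct.rightHom.comp Ψ).ker, fun g => by
      rw [MonoidHom.mem_ker]
      rfl⟩
  have hxg : ∀ Z : Irr M, xg M Z ∈ Γ := by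
    intro Z
    rw [hΓ]
    unfold xg
    rw [wn_xg M hΨ Z.2.1]
  obtain ⟨L, hL⟩ : ∃ L : Γ → ℤ, ∀ g, L g = Multiplicative.toAdd (Ψ g).left t :=
    ⟨fun g => Multiplicative.toAdd (Ψ g).left t, fun _ => rfl⟩
  have hadd : ∀ g h : Γ, L (g * h) = L g + L h := by
    intro g h
    rw [hL, hL, hL, Subgroup.coe_mul, map_mul, SemidirectProduct.mul_left, (hΓ g).1 g.2, map_one]
    rfl
  have hone : L 1 = 0 := by
    have h1 := hadd 1 1
    rw [mul_one] at h1
    omega
  have hinv : ∀ g : Γ, L g⁻¹ = -L g := by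
    intro g
    have h1 := hadd g⁻¹ g
    rw [inv_mul_cancel, hone] at h1
    omega
  have hval : ∀ Z : Irr M, L ⟨xg M Z, hxg Z⟩ = if X.1 ⊆ Z.1 then 2 else 0 := by
    intro Z
    rw [hL]
    show Multiplicative.toAdd (Ψ (dlt M Z.1 ^ 2)).left t = _
    rw [wn_xg M hΨ Z.2.1]
    show (if IsRf M Z.1 t then (2 : ℤ) else 0) = _
    by_cases h : X.1 ⊆ Z.1
    · rw [if_pos h, if_pos ((ht Z.1).2 h)]
    · rw [if_neg h, if_neg fun h1 => h ((ht Z.1).1 h1)]
  let P : Irr M × Bool → Γ := fun x => if x.2 then ⟨xg M x.1, hxg x.1⟩ else ⟨xg M x.1, hxg x.1⟩⁻¹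
  refine ⟨(Multiplicative.toAdd (Ψ ρ).left t).natAbs, fun m a ha hb => ?_⟩
  have h1 : ((zp P a m : Γ) : BG M) =
      zp (fun x : Irr M × Bool => if x.2 then xg M x.1 else (xg M x.1)⁻¹) a m := by
    have h2 : ((zp P a m : Γ) : BG M) = zp (fun x => (P x : BG M)) a m := zp_map Γ.subtype P a m
    rw [h2]
    refine zp_congr' fun Z _ => ?_
    show (P (Z, a Z) : BG M) = if a Z then xg M Z else (xg M Z)⁻¹
    cases a Z
    · rfl
    · rfl
  rw [← h1] at hb
  have h3 := (wn_gp M hΨ hb).2 t fun h => hXY ((ht Y).1 h)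
  have h4 : Multiplicative.toAdd (Ψ ((zp P a m : Γ) * ρ)).left t =
      L (zp P a m) + Multiplicative.toAdd (Ψ ρ).left t := by
    rw [hL, map_mul, SemidirectProduct.mul_left, (hΓ _).1 (zp P a m).2, map_one]
    rfl
  rw [h4, zp_sum L hadd P a m] at h3
  -- the terms are nonnegative
  have h5 : ∀ Z : Irr M, m Z • L (P (Z, a Z)) = if X.1 ⊆ Z.1 then 2 * (m Z : ℤ) else 0 := by
    intro Z
    by_cases hm : m Z = 0
    · rw [hm]
      simp
    · by_cases hXZ : X.1 ⊆ Z.1
      · rw [if_pos hXZ, ha Z hm hXZ]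
        show m Z • L ⟨xg M Z, hxg Z⟩ = _
        rw [hval, if_pos hXZ, nsmul_eq_mul]
        ring
      · rw [if_neg hXZ]
        have h6 : L (P (Z, a Z)) = 0 := by
          show L (if a Z then ⟨xg M Z, hxg Z⟩ else ⟨xg M Z, hxg Z⟩⁻¹) = 0
          split_ifs
          · rw [hval, if_neg hXZ]
          · rw [hinv, hval, if_neg hXZ, neg_zero]
        rw [h6, smul_zero]
  have h6 : 2 * (m X : ℤ) ≤ ∑ Z, m Z • L (P (Z, a Z)) := by
    have h7 : 2 * (m X : ℤ) = m X • L (P (X, a X)) := by
      rw [h5, if_pos Subset.rfl]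
    rw [h7]
    refine single_le_sum (f := fun Z => m Z • L (P (Z, a Z))) (fun Z _ => ?_) (mem_univ X)
    show 0 ≤ m Z • L (P (Z, a Z))
    rw [h5]
    split_ifs
    · positivity
    · exact le_rfl
  omega

end

end Pool.Agent.H65.AB
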