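import Pool.Agent.H65.AB.SepW
import Pool.Agent.H65.AB.LemB
import Pool.Agent.H65.AB.LemC
import Pool.Agent.H65.AB.LemKC
import Pool.Agent.H65.AB.Wn

/-!
# Project AB: the blocked exponents are bounded

PROOF. Let `h = g a w * zp a m`, `h' = g b w' * zp b m' = h x`, `x ∈ E`, `m X ≠ 0`, `s_X` does not commute with `w`.
`r` = the retraction (`exists_ret`), `r h = zp (xg ^ ±1) a m =: b₀`.
(a) All `Z ⊇ X` with `m Z ≠ 0` do not commute with `w`, so `a Z = true`.
(b) Let `v' ∈ F` not adjacent to `X` (so `¬ X.1 ⊆ Y`, `Y := {s ∉ F | M s v' = 2}`). `K = gp M Y`,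
`Q Z := ∃ u ∈ F, Z = sing M u ∧ ∃ s ∉ F, M s u = 2 ∧ M s v' ≠ 2`, `τ` the additional letter of `lemC`. If `m X` is large,
then the products `r h * ρ` are not in `K`, so `τ` commutes with `i y`, `y = w⁻¹ w'`, or `y = (r_u w)⁻¹ w'` or
`w⁻¹ r_u w'` if the signs at `sing u` are different. By `lemC` `y` does not contain the letter `sing v'` (`sb_step`).
(c) So `s_X` commutes with `y` (`sb_comm`).
(d) `lemB` gives a contradiction.
-/

set_option autoImplicit false
set_option linter.unusedSectionVars false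

open Finset

namespace Pool.Agent.H65.AB

open H42.NU Pool.Agent.H4.FC Pool.Agent.H78.RC Pool.Agent.H93.AA Pool.Agent.H65.RA
open Pool.Agent.H65.BU (RA Apts)

variable {S : Type} [Fintype S] [DecidableEq S] {M : CoxeterMatrix S} {F : Finset S}
  {Γ : S → Type} [∀ v, Group (Γ v)] {W : Type} [Group W] [Fintype (Irr M)]
  {M' : CoxeterMatrix (Irr M)} {cs : CoxeterSystem M' W}
  {q : ∀ v, Bool → Γ v} {pr : W → Irr M → ZMod 2} {g : (Irr M → Bool) → W → AG M F Γ}

open Classical in
/-- the values of `θ` -/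
private noncomputable def sbTh (q : ∀ v, Bool → Γ v) (o : Option S) (v : S) (x : Γ v) : Bool :=
  if o = some v then decide (x = q v true) else decide (x ≠ 1)

private theorem sbTh_val (h1 : ∀ v ∈ F, ∀ b, q v b ≠ 1) (h2 : ∀ v ∈ F, q v true ≠ q v false)
    (o : Option S) {v : S} (hv : v ∈ F) (b : Bool) :
    (sbTh q o v (q v b) = sbTh q o v 1) ↔ (o = some v ∧ b = false) := by
  unfold sbTh
  by_cases ho : o = some v
  · rw [if_pos ho, if_pos ho]
    have e1 : (1 : Γ v) ≠ q v true := fun h => h1 v hv true h.symm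
    cases b
    · simp [ho, e1, (h2 v hv).symm]
    · simp [e1]
  · rw [if_neg ho, if_neg ho]
    simp [ho, h1 v hv b]

/-- the products of powers are in the image of the Artin group -/
private theorem sb_zp_th {m : Irr M → ℕ} (hm : Pos (nG M) (lF M F) m) (a : Irr M → Bool) :
    ∃ y : BG M, zp (pA M F q) a m = th M F Γ y := by
  have h3 : zp (pA M F q) a m ∈ (th M F Γ).range := by
    refine zp_mem fun z hz => ?_
    have hz' := hm.1 z hz
    cases haz : a z
    · rw [pA_false q hz']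
      exact inv_mem ⟨_, rfl⟩
    · rw [pA_true q hz']
      exact ⟨_, rfl⟩
  obtain ⟨y, hy⟩ := h3
  exact ⟨y, hy.symm⟩

/-- the retraction is the identity on the letters outside `F` -/
private theorem sb_ret_th (hM : Mix M F) {r : AG M F Γ →* BG M}
    (hr : ∀ s, s ∉ F → r (th M F Γ (bgen M s)) = bgen M s) {X : Irr M} (hX : X ∉ lF M F) :
    r (th M F Γ (xg M X)) = xg M X := by
  have h1 := xg_mem_gp M X
  have h2 := disj hM hX
  refine Subgroup.closure_induction (p := fun x _ => r (th M F Γ x) = x) ?_ ?_ ?_ ?_ h1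
  · rintro x ⟨s, hs, rfl⟩
    exact hr s fun h => (disjoint_left.1 h2) hs h
  · rw [map_one, map_one]
  · intro x y _ _ hx hy
    rw [map_mul, map_mul, hx, hy]
  · intro x _ hx
    rw [map_inv, map_inv, hx]

/-- the retraction of the products of powers -/
private theorem sb_ret_zp (hM : Mix M F) {r : AG M F Γ →* BG M}
    (hr : ∀ s, s ∉ F → r (th M F Γ (bgen M s)) = bgen M s) {m : Irr M → ℕ}
    (hm : Pos (nG M) (lF M F) m) (a : Irr M → Bool) : r (zp (pA M F q) a m) =
      zp (fun x : Irr M × Bool => if x.2 then xg M x.1 else (xg M x.1)⁻¹) a m := by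
  rw [zp_map]
  refine zp_congr' fun X hX => ?_
  have hX' : X ∉ lF M F := hm.1 X hX
  show r (pA M F q (X, a X)) = if a X then xg M X else (xg M X)⁻¹
  cases h2 : a X
  · rw [pA_false q hX', map_inv, sb_ret_th hM hr hX', if_neg Bool.false_ne_true]
  · rw [pA_true q hX', sb_ret_th hM hr hX', if_pos rfl]

/-- (b) the letter `sing v'` does not occur -/
private theorem sb_step (hM : Mix M F) (hM' : RA (nG M) M') (hg : Apts cs pr (pA M F q) g)
    (θ : ∀ v, Γ v → Bool) {X : Irr M} (hX : X ∉ lF M F) {v' : S} (hv' : v' ∈ F)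
    (hadj : ¬ (nG M).Adj (sing M v') X) (x : AG M F Γ) :
    ∃ N : ℕ, ∀ (w w' : W) (m m' : Irr M → ℕ) (a b : Irr M → Bool),
      w ∈ wf cs (lF M F) → w' ∈ wf cs (lF M F) → Pos (nG M) (lF M F) m →
      Pos (nG M) (lF M F) m' → (∀ Z, m Z ≠ 0 → X.1 ⊆ Z.1 → a Z = true) →
      g b w' * zp (pA M F q) b m' = g a w * zp (pA M F q) a m * x → N < m X →
      ∀ R R' : W →* W,
        (∀ v ∈ F, R (cs.simple (sing M v)) =
          if θ v (q v (a (sing M v))) = θ v 1 then 1 else cs.simple (sing M v)) →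
        (∀ v ∈ F, R' (cs.simple (sing M v)) =
          if θ v (q v (b (sing M v))) = θ v 1 then 1 else cs.simple (sing M v)) →
        (R w)⁻¹ * R' w' ∈ wf cs ((lF M F).erase (sing M v')) := by
  classical
  obtain ⟨r, hr1, hr2⟩ := exists_ret hM Γ
  obtain ⟨Y, hY⟩ : ∃ Y : Finset S, ∀ s, s ∈ Y ↔ s ∉ F ∧ M s v' = 2 :=
    ⟨univ.filter fun s => s ∉ F ∧ M s v' = 2, fun s => by rw [mem_filter, and_iff_right (mem_univ s)]⟩
  have hXY : ¬ X.1 ⊆ Y := by
    intro h
    refine hadj ((adj_sing hM hX hv').2 fun s hs => ?_)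
    rw [M.symmetric]
    exact ((hY s).1 (h hs)).2
  obtain ⟨Q, hQ⟩ : ∃ Q : Irr M → Prop, ∀ Z, Q Z ↔ ∃ u ∈ F, Z = sing M u ∧
      ∃ s, s ∉ F ∧ M s u = 2 ∧ M s v' ≠ 2 := ⟨_, fun Z => Iff.rfl⟩
  obtain ⟨M1, hM1⟩ := Pool.Agent.H65.BU.exists_ra (exG (nG M) Q)
  have hF1 := Pool.Agent.H65.BU.facts_of_ra hM1 M1.toCoxeterSystem
  obtain ⟨cs1, hcs1⟩ : ∃ cs1, cs1 = M1.toCoxeterSystem := ⟨_, rfl⟩
  rw [← hcs1] at hF1
  obtain ⟨i, hi, hiC⟩ := lemC hM' (cs := cs) hM1 cs1
  obtain ⟨e, he⟩ : ∃ e : S → M1.Group, ∀ u, e u = cs1.simple (some (sing M u)) :=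
    ⟨_, fun u => rfl⟩
  obtain ⟨τ, hτ⟩ : ∃ τ, τ = cs1.simple none := ⟨_, rfl⟩
  have hee : ∀ v, e v * e v = 1 := fun v => by
    rw [he]
    exact cs1.simple_mul_simple_self _
  have hec : ∀ u ∈ F, ∀ v ∈ F, M u v = 2 → e u * e v = e v * e u := by
    intro u hu v _ huv
    rw [he, he]
    exact hF1.comm (some (sing M u)) (some (sing M v)) ((adj_sing_sing hM hu).2 huv)
  have hττ : τ * τ = 1 := by
    rw [hτ]
    exact cs1.simple_mul_simple_self _
  have hK : ∀ s, s ∉ F → ∀ u ∈ F, M s u = 2 → bgen M s ∈ gp M Y ∨ e u * τ = τ * e u := by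
    intro s hs u hu hsu
    by_cases h3 : M s v' = 2
    · exact Or.inl (Subgroup.subset_closure ⟨s, (hY s).2 ⟨hs, h3⟩, rfl⟩)
    · right
      rw [he, hτ]
      exact hF1.comm (some (sing M u)) none ((hQ _).2 ⟨u, hu, rfl, s, hs, hsu, h3⟩)
  obtain ⟨κ, hκ⟩ := exists_kapC hM hr1 hr2 (fun v _ => hee v) hec hττ hK θ
  obtain ⟨κ0, hκ0⟩ := exists_kapC hM hr1 hr2 (fun v _ => hee v) hec hττ (K := ⊤)
    (fun s _ u _ _ => Or.inl (Subgroup.mem_top _)) θ
  obtain ⟨P, hP1, hPx, hP⟩ := kapC_incr hr2 hκ hκ0 x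
  choose N hN using wn_bound X hXY
  refine ⟨P.sup N, fun w w' m m' a b hw hw' hm hm' hsg hx hlt R R' hR hR' => ?_⟩
  have hh : r (g a w * zp (pA M F q) a m) =
      zp (fun x : Irr M × Bool => if x.2 then xg M x.1 else (xg M x.1)⁻¹) a m := by
    rw [map_mul, r_apt hr2 hg a hw, one_mul, sb_ret_zp hM hr1 hm]
  have hout : ∀ ρ ∈ P, r (g a w * zp (pA M F q) a m) * ρ ∉ gp M Y := by
    intro ρ hρ h3
    rw [hh] at h3
    have h4 := hN ρ m a hsg h3
    have h5 : N ρ ≤ P.sup N := Finset.le_sup hρ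
    omega
  have hin := hP _ hout
  rw [← hx] at hin
  have o1 : r (g a w * zp (pA M F q) a m) ∉ gp M Y := by
    have h3 := hout 1 hP1
    rwa [mul_one] at h3
  have o2 : r (g b w' * zp (pA M F q) b m') ∉ gp M Y := by
    rw [hx, map_mul]
    exact hout _ hPx
  obtain ⟨y, hy⟩ := sb_zp_th (q := q) (Γ := Γ) hm a
  obtain ⟨y', hy'⟩ := sb_zp_th (q := q) (Γ := Γ) hm' b
  have e1 : κ (g a w * zp (pA M F q) a m) = κ (g a w) * τ := by
    rw [hy] at o1 ⊢
    rw [hκ.th, if_neg]
    rw [r_apt hr2 hg a hw]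
    exact fun h3 => o1 (h3.1 (one_mem _))
  have e2 : κ (g b w' * zp (pA M F q) b m') = κ (g b w') * τ := by
    rw [hy'] at o2 ⊢
    rw [hκ.th, if_neg]
    rw [r_apt hr2 hg b hw']
    exact fun h3 => o2 (h3.1 (one_mem _))
  have e3 : κ0 (g a w * zp (pA M F q) a m) = κ0 (g a w) := by
    rw [hy, hκ0.th, if_pos ⟨fun _ => Subgroup.mem_top _, fun _ => Subgroup.mem_top _⟩, mul_one]
  have e4 : κ0 (g b w' * zp (pA M F q) b m') = κ0 (g b w') := by
    rw [hy', hκ0.th, if_pos ⟨fun _ => Subgroup.mem_top _, fun _ => Subgroup.mem_top _⟩, mul_one]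
  have hcomp : ∀ (R : W →* W) (a : Irr M → Bool), (∀ v ∈ F, R (cs.simple (sing M v)) =
      if θ v (q v (a (sing M v))) = θ v 1 then 1 else cs.simple (sing M v)) →
      ∀ v ∈ F, (i.comp R) (cs.simple (sing M v)) =
        if θ v (q v (a (sing M v))) = θ v 1 then 1 else e v := by
    intro R a hR v hv
    show i (R (cs.simple (sing M v))) = _
    rw [hR v hv]
    split_ifs
    · exact map_one i
    · rw [hi, he]
  have f1 : κ (g a w) = i (R w) := kapC_apt hκ hg a (fun v _ => hee v) (i.comp R) (hcomp R a hR) hw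
  have f2 : κ (g b w') = i (R' w') :=
    kapC_apt hκ hg b (fun v _ => hee v) (i.comp R') (hcomp R' b hR') hw'
  have f3 : κ0 (g a w) = i (R w) :=
    kapC_apt hκ0 hg a (fun v _ => hee v) (i.comp R) (hcomp R a hR) hw
  have f4 : κ0 (g b w') = i (R' w') :=
    kapC_apt hκ0 hg b (fun v _ => hee v) (i.comp R') (hcomp R' b hR') hw'
  rw [e1, e2, e3, e4, f1, f2, f3, f4] at hin
  have hcom : cs1.simple none * i ((R w)⁻¹ * R' w') = i ((R w)⁻¹ * R' w') * cs1.simple none := by
    rw [← hτ, map_mul, map_inv]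
    have h3 : (i (R w) * τ)⁻¹ * (i (R' w') * τ) = τ * ((i (R w))⁻¹ * i (R' w')) * τ := by
      have h4 : τ⁻¹ = τ := inv_eq_of_mul_eq_one_left hττ
      rw [mul_inv_rev, h4]
      group
    rw [h3] at hin
    have h4 : τ * ((i (R w))⁻¹ * i (R' w')) * τ * τ = (i (R w))⁻¹ * i (R' w') * τ := by
      rw [hin]
    rwa [mul_assoc (τ * _) τ τ, hττ, mul_one] at h4
  have hmem : ∀ (R : W →* W) (a : Irr M → Bool), (∀ v ∈ F, R (cs.simple (sing M v)) =
      if θ v (q v (a (sing M v))) = θ v 1 then 1 else cs.simple (sing M v)) →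
      ∀ w ∈ wf cs (lF M F), R w ∈ wf cs (lF M F) := by
    intro R a hR w hw
    refine wf_ind (cs := cs) (FF := lF M F) (C := fun w => R w ∈ wf cs (lF M F)) ?_ ?_ hw
    · show R 1 ∈ _
      rw [map_one]
      exact one_mem _
    · intro w z _ hz h
      obtain ⟨v, hv, rfl⟩ := mem_lF.1 hz
      show R (w * cs.simple (sing M v)) ∈ _
      rw [map_mul, hR v hv]
      split_ifs
      · rw [mul_one]
        exact h
      · exact mul_mem h (simple_wf hz)
  refine hiC (lF M F) _ (mul_mem (inv_mem (hmem R a hR w hw)) (hmem R' b hR' w' hw')) hcom _ ?_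
  rw [hQ]
  rintro ⟨u, -, hu, s, -, h3, h4⟩
  rw [← sing_inj hu] at h3
  exact h4 h3

/-- (c) an element in which only the letters adjacent to `X` occur -/
private theorem sb_comm (hM' : RA (nG M) M') {X : Irr M} {y : W} (hy : y ∈ wf cs (lF M F))
    (h : ∀ v ∈ F, ¬ (nG M).Adj (sing M v) X → y ∈ wf cs ((lF M F).erase (sing M v))) :
    cs.simple X * y = y * cs.simple X := by
  classical
  have hF := Pool.Agent.H65.BU.facts_of_ra hM' cs
  have key : ∀ T : Finset S, (∀ v ∈ T, v ∈ F ∧ ¬ (nG M).Adj (sing M v) X) →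
      y ∈ wf cs ((lF M F) \ T.image (sing M)) := by
    intro T
    induction T using Finset.induction_on with
    | empty =>
      intro _
      rw [image_empty, sdiff_empty]
      exact hy
    | insert v T _ ih =>
      intro hT
      have h3 := ih fun u hu => hT u (mem_insert_of_mem hu)
      have h4 := hT v (mem_insert_self v T)
      have h5 := wf_inter hM' h3 (h v h4.1 h4.2)
      have h6 : (lF M F \ T.image (sing M)) ∩ (lF M F).erase (sing M v) =
          lF M F \ (insert v T).image (sing M) := by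
        ext z
        rw [mem_inter, mem_sdiff, mem_erase, mem_sdiff, image_insert, mem_insert, not_or]
        tauto
      rwa [h6] at h5
  refine comm_of_wf hF (A := (lF M F) \ (F.filter fun v => ¬ (nG M).Adj (sing M v) X).image
    (sing M)) (fun z hz => ?_) (key _ fun v hv => mem_filter.1 hv)
  rw [mem_sdiff] at hz
  obtain ⟨v, hv, rfl⟩ := mem_lF.1 hz.1
  by_contra h3
  exact hz.2 (mem_image_of_mem _ (mem_filter.2 ⟨hv, h3⟩))

/-- the blocked exponents are bounded -/
theorem sep_blocked (hM : Mix M F) (hM' : RA (nG M) M') (h1 : ∀ v ∈ F, ∀ b, q v b ≠ 1)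
    (h2 : ∀ v ∈ F, q v true ≠ q v false) (hg : Apts cs pr (pA M F q) g) (E : Finset (AG M F Γ))
    (X : Irr M) : ∃ N : ℕ, ∀ (w w' : W) (m m' : Irr M → ℕ) (a b : Irr M → Bool),
      w ∈ wf cs (lF M F) → w' ∈ wf cs (lF M F) → Pos (nG M) (lF M F) m →
      Pos (nG M) (lF M F) m' → Opp cs w w' m m' a b →
      (g a w * zp (pA M F q) a m)⁻¹ * (g b w' * zp (pA M F q) b m') ∈ E →
      ¬ (cs.simple X * w = w * cs.simple X) → m X ≤ N := by
  classical
  by_cases hX : X ∈ lF M F
  · refine ⟨0, fun w w' m m' a b _ _ hm _ _ _ _ => ?_⟩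
    by_contra h3
    exact hm.1 X (by omega) hX
  have hst : ∀ (v' : S) (o : Option S) (x : AG M F Γ), ∃ N : ℕ, v' ∈ F →
      ¬ (nG M).Adj (sing M v') X → ∀ (w w' : W) (m m' : Irr M → ℕ) (a b : Irr M → Bool),
      w ∈ wf cs (lF M F) → w' ∈ wf cs (lF M F) → Pos (nG M) (lF M F) m →
      Pos (nG M) (lF M F) m' → (∀ Z, m Z ≠ 0 → X.1 ⊆ Z.1 → a Z = true) →
      g b w' * zp (pA M F q) b m' = g a w * zp (pA M F q) a m * x → N < m X →
      ∀ R R' : W →* W,
        (∀ v ∈ F, R (cs.simple (sing M v)) =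
          if sbTh q o v (q v (a (sing M v))) = sbTh q o v 1 then 1 else cs.simple (sing M v)) →
        (∀ v ∈ F, R' (cs.simple (sing M v)) =
          if sbTh q o v (q v (b (sing M v))) = sbTh q o v 1 then 1 else cs.simple (sing M v)) →
        (R w)⁻¹ * R' w' ∈ wf cs ((lF M F).erase (sing M v')) := by
    intro v' o x
    by_cases hv' : v' ∈ F
    · by_cases hadj : (nG M).Adj (sing M v') X
      · exact ⟨0, fun _ h => absurd hadj h⟩
      · obtain ⟨N, hN⟩ := sb_step hM hM' hg (sbTh q o) hX hv' hadj x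
        exact ⟨N, fun _ _ => hN⟩
    · exact ⟨0, fun h => absurd h hv'⟩
  choose N hN using hst
  refine ⟨E.sup fun x => univ.sup fun o : Option S => univ.sup fun v' : S => N v' o x,
    fun w w' m m' a b hw hw' hm hm' hab hx hn => ?_⟩
  by_contra hlt
  rw [not_le] at hlt
  obtain ⟨x, hxE, hgx⟩ : ∃ x ∈ E, g b w' * zp (pA M F q) b m' =
      g a w * zp (pA M F q) a m * x := ⟨_, hx, (mul_inv_cancel_left _ _).symm⟩
  have hNlt : ∀ v' o, N v' o x < m X := by
    intro v' o
    refine lt_of_le_of_lt ?_ hlt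
    refine le_trans ?_ (Finset.le_sup
      (f := fun x => univ.sup fun o : Option S => univ.sup fun v' : S => N v' o x) hxE)
    refine le_trans ?_ (Finset.le_sup
      (f := fun o : Option S => univ.sup fun v' : S => N v' o x) (mem_univ o))
    exact Finset.le_sup (f := fun v' : S => N v' o x) (mem_univ v')
  -- (a) the signs
  have hsg : ∀ Z, m Z ≠ 0 → X.1 ⊆ Z.1 → a Z = true := by
    intro Z hZ hXZ
    have hZ' := hm.1 Z hZ
    refine hab.left Z hZ fun h3 => hn ?_
    refine comm_of_comm hM' hZ' hX (fun v hv hadj => ?_) hw h3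
    obtain ⟨u, hu, rfl⟩ := mem_lF.1 hv
    exact (adj_sing hM hX hu).2 fun s hs => (adj_sing hM hZ' hu).1 hadj s (hXZ hs)
  -- (c) the commutation
  have hcom : ∀ (o : Option S) (R R' : W →* W),
      (∀ v ∈ F, R (cs.simple (sing M v)) =
        if sbTh q o v (q v (a (sing M v))) = sbTh q o v 1 then 1 else cs.simple (sing M v)) →
      (∀ v ∈ F, R' (cs.simple (sing M v)) =
        if sbTh q o v (q v (b (sing M v))) = sbTh q o v 1 then 1 else cs.simple (sing M v)) →
      (R w)⁻¹ * R' w' ∈ wf cs (lF M F) →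
      cs.simple X * ((R w)⁻¹ * R' w') = (R w)⁻¹ * R' w' * cs.simple X := by
    intro o R R' hR hR' hmem
    refine sb_comm hM' hmem fun v' hv' hadj => ?_
    exact hN v' o x hv' hadj w w' m m' a b hw hw' hm hm' hsg hgx (hNlt v' o) R R' hR hR'
  have hid : ∀ (o : Option S) (c : Irr M → Bool), (∀ v ∈ F, o = some v → c (sing M v) = true) →
      ∀ v ∈ F, (MonoidHom.id W) (cs.simple (sing M v)) =
        if sbTh q o v (q v (c (sing M v))) = sbTh q o v 1 then 1 else cs.simple (sing M v) := by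
    intro o c ho v hv
    rw [if_neg]
    · rfl
    · rw [sbTh_val h1 h2 o hv]
      rintro ⟨h3, h4⟩
      rw [ho v hv h3] at h4
      exact absurd h4 (by decide)
  have hkr : ∀ (u : S) (c : Irr M → Bool), c (sing M u) = false → ∀ r : W →* W,
      (∀ z, r (cs.simple z) = if z = sing M u then 1 else cs.simple z) →
      ∀ v ∈ F, r (cs.simple (sing M v)) =
        if sbTh q (some u) v (q v (c (sing M v))) = sbTh q (some u) v 1 then 1
        else cs.simple (sing M v) := by
    intro u c hc r hr v hv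
    rw [hr]
    refine if_congr ?_ rfl rfl
    rw [sbTh_val h1 h2 (some u) hv]
    constructor
    · intro h3
      have h4 : v = u := sing_inj h3
      subst h4
      exact ⟨rfl, hc⟩
    · rintro ⟨h3, _⟩
      rw [Option.some.inj h3]
  have hcw : cs.simple X * (w⁻¹ * w') = w⁻¹ * w' * cs.simple X :=
    hcom none (MonoidHom.id W) (MonoidHom.id W)
      (hid none a fun v _ h => absurd h (by simp)) (hid none b fun v _ h => absurd h (by simp))
      (mul_mem (inv_mem hw) hw')
  obtain ⟨v, hv, hv', hvr⟩ := lemB hM' hX hw hw' hcw hn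
  have hne := hab.fst v hv hv'
  obtain ⟨u, hu, rfl⟩ := mem_lF.1 (fst_wf hM' hw hv)
  obtain ⟨r, hr, _⟩ := Pool.Agent.H65.BU.exists_kill hM' cs (sing M u)
  obtain ⟨n1, n2⟩ := hvr r hr
  have hrw : ∀ w ∈ wf cs (lF M F), r w ∈ wf cs (lF M F) := by
    intro w hw
    refine wf_ind (cs := cs) (FF := lF M F) (C := fun w => r w ∈ wf cs (lF M F)) ?_ ?_ hw
    · show r 1 ∈ _
      rw [map_one]
      exact one_mem _
    · intro w z _ hz h
      show r (w * cs.simple z) ∈ _
      rw [map_mul, hr z]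
      split_ifs
      · rw [mul_one]
        exact h
      · exact mul_mem h (simple_wf hz)
  cases ha : a (sing M u)
  · have hb : b (sing M u) = true := by
      cases hb : b (sing M u)
      · rw [ha, hb] at hne
        exact absurd rfl hne
      · rfl
    have h3 := hcom (some u) r (MonoidHom.id W) (hkr u a ha r hr)
      (hid (some u) b fun v _ h => Option.some.inj h ▸ hb) (mul_mem (inv_mem (hrw w hw)) hw')
    refine n1 ?_
    have h4 : Commute (cs.simple X) (w⁻¹ * w') := hcw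
    have h5 : Commute (cs.simple X) ((r w)⁻¹ * w') := h3
    have h6 := h4.mul_right h5.inv_right
    have e : w⁻¹ * w' * ((r w)⁻¹ * w')⁻¹ = w⁻¹ * r w := by group
    rw [e] at h6
    exact h6
  · have hb : b (sing M u) = false := by
      cases hb : b (sing M u)
      · rfl
      · rw [ha, hb] at hne
        exact absurd rfl hne
    have h3 := hcom (some u) (MonoidHom.id W) r
      (hid (some u) a fun v _ h => Option.some.inj h ▸ ha) (hkr u b hb r hr)
      (mul_mem (inv_mem hw) (hrw w' hw'))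
    refine n2 ?_
    have h4 : Commute (cs.simple X) (w⁻¹ * w') := hcw
    have h5 : Commute (cs.simple X) (w⁻¹ * r w') := h3
    have h6 := h4.inv_right.mul_right h5
    have e : (w⁻¹ * w')⁻¹ * (w⁻¹ * r w') = w'⁻¹ * r w' := by group
    rw [e] at h6
    exact h6

end Pool.Agent.H65.AB
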