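import Pool.Agent.H65.AB.KapX
import Pool.Agent.H65.AB.LemK
import Pool.Agent.H65.AB.Zp
import Pool.Agent.H65.BU.Sep

/-!
# Project AB: separation, finitely many pairs `(w, w')`

PROOF (as BU/Sep): `κ^o` for `L = 0` (`C = ∅`), `θ^o v x = decide (x ≠ 1)` for `o = none`, and for
`o = some u`, `u ∈ F`: `θ^o u x = decide (x = q u true)`, `θ^o v x = decide (x ≠ 1)` for `v ≠ u`. `κ^o (h) = κ^o (g a w) = w` or
`r w` (`kap_apt`, `r` kills the letter `sing u`, if `a (sing u) = false`). Then the proof of `sep_of_kappa`: `persist`,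
`exists_kill`, `ball_finite`; the letters `v ∈ fst w` are in `lF M F` (`fst_wf`).
-/

set_option autoImplicit false
set_option linter.unusedSectionVars false

open Finset

namespace Pool.Agent.H65.AB

open H42.NU Pool.Agent.H4.FC Pool.Agent.H78.RC Pool.Agent.H93.AA Pool.Agent.H65.RA
open Pool.Agent.H65.BU (RA Apts)

variable {S : Type} [Fintype S] [DecidableEq S] {M : CoxeterMatrix S} {F : Finset S}
  {Γ : S → Type} [∀ v, Group (Γ v)] {W : Type} [Group W] [Fintype (Irr M)]
  {M' : CoxeterMatrix (Irr M)} {cs : CoxeterSystem M' W}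
  {q : ∀ v, Bool → Γ v} {pr : W → Irr M → ZMod 2} {g : (Irr M → Bool) → W → AG M F Γ}

/-- the products of powers are in the image of the Artin group -/
private theorem sw_zp_range (q : ∀ v, Bool → Γ v) {m : Irr M → ℕ} (hm : Pos (nG M) (lF M F) m)
    (a : Irr M → Bool) : ∃ y, zp (pA M F q) a m = th M F Γ y := by
  have h1 : zp (pA M F q) a m ∈ (th M F Γ).range := by
    refine zp_mem fun z hz => ?_
    have hz' := hm.1 z hz
    cases a z
    · rw [pA_false q hz']
      exact ⟨(xg M z)⁻¹, map_inv _ _⟩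
    · rw [pA_true q hz']
      exact ⟨xg M z, rfl⟩
  obtain ⟨y, hy⟩ := h1
  exact ⟨y, hy.symm⟩

/-- (1) finitely many pairs `(w, w')` -/
theorem sep_w (hM : Mix M F) (hM' : RA (nG M) M') (h1 : ∀ v ∈ F, ∀ b, q v b ≠ 1)
    (h2 : ∀ v ∈ F, q v true ≠ q v false) (hg : Apts cs pr (pA M F q) g) (E : Finset (AG M F Γ)) :
    {k : W × W | k.1 ∈ wf cs (lF M F) ∧ k.2 ∈ wf cs (lF M F) ∧ ∃ (m m' : Irr M → ℕ)
      (a b : Irr M → Bool), Pos (nG M) (lF M F) m ∧ Pos (nG M) (lF M F) m' ∧
      Opp cs k.1 k.2 m m' a b ∧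
      (g a k.1 * zp (pA M F q) a m)⁻¹ * (g b k.2 * zp (pA M F q) b m') ∈ E}.Finite := by
  classical
  by_cases hne : Nonempty (Irr M)
  swap
  · refine (Set.finite_singleton ((1, 1) : W × W)).subset ?_
    rintro ⟨w, w'⟩ ⟨hw, hw', -⟩
    have h3 : ∀ x ∈ wf cs (lF M F), x = 1 := by
      intro x hx
      refine wf_ind (C := fun x : W => x = 1) rfl (fun _ v _ _ _ => ?_) hx
      exact absurd ⟨v⟩ hne
    show (w, w') = (1, 1)
    rw [h3 w hw, h3 w' hw']
  obtain ⟨X⟩ := hne
  have hF := Pool.Agent.H65.BU.facts_of_ra hM' cs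
  let θ : Option S → ∀ v, Γ v → Bool := fun o v x =>
    if o = some v then decide (x = q v true) else decide (x ≠ 1)
  have hex : ∀ o, ∃ κ : AG M F Γ → W, IsKap cs X (fun _ => 0) (θ o) κ := fun o =>
    exists_kap hM hM' cs (C := ∅) (fun s hs => absurd hs (notMem_empty s))
      (fun s hs => absurd hs (notMem_empty s)) X (fun s hs => absurd hs (notMem_empty s))
      IsLam.zero (θ o)
  choose κ hκ using hex
  have hlip : ∀ o x, ∃ N : ℕ, ∀ y, cs.length ((κ o y)⁻¹ * κ o (y * x)) ≤ N :=
    fun o x => kap_lip (hκ o) x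
  choose N hN using hlip
  -- the values on the products
  have hz : ∀ o x (m : Irr M → ℕ) (a : Irr M → Bool), Pos (nG M) (lF M F) m →
      κ o (x * zp (pA M F q) a m) = κ o x := by
    intro o x m a hm
    obtain ⟨y, hy⟩ := sw_zp_range q hm a
    rw [hy, (hκ o).th, if_pos Iff.rfl, mul_one]
  have hne1 : ∀ o, ∀ v ∈ F, ∀ b, o ≠ some v → θ o v (q v b) ≠ θ o v 1 := by
    intro o v hv b ho
    show (if o = some v then decide (q v b = q v true) else decide (q v b ≠ 1)) ≠
      (if o = some v then decide ((1 : Γ v) = q v true) else decide ((1 : Γ v) ≠ 1))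
    rw [if_neg ho, if_neg ho, decide_eq_true (h1 v hv b), decide_eq_false (fun h => h rfl)]
    exact Bool.noConfusion
  have hid : ∀ u, MonoidHom.id W (cs.simple u) = cs.simple u := fun u => rfl
  have k0 : ∀ a, ∀ w ∈ wf cs (lF M F), κ none (g a w) = w := by
    intro a w hw
    refine kap_apt (hκ none) hg a (MonoidHom.id W) (fun v hv => ?_) hw
    rw [hid, if_neg (hne1 none v hv _ (by simp))]
  have k1 : ∀ u ∈ F, ∀ a, ∀ w ∈ wf cs (lF M F), a (sing M u) = true →
      κ (some u) (g a w) = w := by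
    intro u hu a w hw hau
    refine kap_apt (hκ (some u)) hg a (MonoidHom.id W) (fun v hv => ?_) hw
    rw [hid]
    by_cases huv : u = v
    · subst huv
      have h3 : θ (some u) u (q u (a (sing M u))) ≠ θ (some u) u 1 := by
        show (if some u = some u then decide (q u (a (sing M u)) = q u true)
            else decide (q u (a (sing M u)) ≠ 1)) ≠
          (if some u = some u then decide ((1 : Γ u) = q u true) else decide ((1 : Γ u) ≠ 1))
        rw [if_pos rfl, if_pos rfl, hau, decide_eq_true rfl,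
          decide_eq_false (Ne.symm (h1 u hu true))]
        exact Bool.noConfusion
      rw [if_neg h3]
    · rw [if_neg (hne1 (some u) v hv _ (fun h => huv (Option.some.inj h)))]
  have k2 : ∀ u ∈ F, ∀ r : W →* W,
      (∀ z, r (cs.simple z) = if z = sing M u then 1 else cs.simple z) →
      ∀ a, ∀ w ∈ wf cs (lF M F), a (sing M u) = false → κ (some u) (g a w) = r w := by
    intro u hu r hr a w hw hau
    refine kap_apt (hκ (some u)) hg a r (fun v hv => ?_) hw
    rw [hr]
    by_cases huv : u = v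
    · subst huv
      have h3 : θ (some u) u (q u (a (sing M u))) = θ (some u) u 1 := by
        show (if some u = some u then decide (q u (a (sing M u)) = q u true)
            else decide (q u (a (sing M u)) ≠ 1)) =
          (if some u = some u then decide ((1 : Γ u) = q u true) else decide ((1 : Γ u) ≠ 1))
        rw [if_pos rfl, if_pos rfl, hau, decide_eq_false (Ne.symm (h2 u hu)),
          decide_eq_false (Ne.symm (h1 u hu true))]
      rw [if_pos rfl, if_pos h3]
    · rw [if_neg (fun h => huv (sing_inj h).symm),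
        if_neg (hne1 (some u) v hv _ (fun h => huv (Option.some.inj h)))]
  obtain ⟨N0, hN0⟩ : ∃ N0, ∀ x ∈ E, ∀ o : Option S, N o x ≤ N0 :=
    ⟨E.sup fun x => univ.sup fun o => N o x, fun x hx o =>
      (Finset.le_sup (f := fun o => N o x) (mem_univ o)).trans
        (Finset.le_sup (f := fun x => univ.sup fun o => N o x) hx)⟩
  have hX := Pool.Agent.H65.BU.persist hF (2 * N0)
  have hB := Pool.Agent.H65.BU.ball_finite cs N0
  refine ((hX.prod hB).image fun q : W × W => (q.1, q.1 * q.2)).subset ?_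
  rintro ⟨w, w'⟩ ⟨hw, hw', m, m', a, b, hm, hm', hab, hx⟩
  simp only at hab hx hw hw'
  obtain ⟨x, hxE, hgx⟩ : ∃ x ∈ E, g b w' * zp (pA M F q) b m' = g a w * zp (pA M F q) a m * x :=
    ⟨_, hx, (mul_inv_cancel_left _ _).symm⟩
  have hk : ∀ o, cs.length ((κ o (g a w))⁻¹ * κ o (g b w')) ≤ N0 := by
    intro o
    have h3 := (hN o x (g a w * zp (pA M F q) a m)).trans (hN0 x hxE o)
    rw [← hgx, hz o _ m a hm, hz o _ m' b hm'] at h3
    exact h3
  have hd : cs.length (w⁻¹ * w') ≤ N0 := by
    have h := hk none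
    rwa [k0 a w hw, k0 b w' hw'] at h
  refine ⟨(w, w⁻¹ * w'), ⟨?_, hd⟩, ?_⟩
  · rintro ⟨v, hv, hp⟩
    have hv' : v ∈ Pool.Agent.H65.BU.fst cs w' := by
      have h := hp (w⁻¹ * w') (by omega)
      rwa [mul_inv_cancel_left] at h
    have hne := hab.fst v hv hv'
    obtain ⟨u, hu, rfl⟩ := mem_lF.1 (fst_wf hM' hw hv)
    obtain ⟨r, hr, hrv⟩ := Pool.Agent.H65.BU.exists_kill hM' cs (sing M u)
    have hk' := hk (some u)
    cases ha : a (sing M u)
    · have hb : b (sing M u) = true := by
        cases hb : b (sing M u)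
        · rw [ha, hb] at hne
          exact absurd rfl hne
        · rfl
      rw [k2 u hu r hr a w hw ha, k1 u hu b w' hw' hb] at hk'
      refine hrv w ?_
      have h := hp (w⁻¹ * r w) ?_
      · rwa [mul_inv_cancel_left] at h
      · have e : w⁻¹ * r w = (w⁻¹ * w') * ((r w)⁻¹ * w')⁻¹ := by group
        rw [e]
        refine (cs.length_mul_le _ _).trans ?_
        rw [cs.length_inv]
        omega
    · have hb : b (sing M u) = false := by
        cases hb : b (sing M u)
        · rfl
        · rw [ha, hb] at hne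
          exact absurd rfl hne
      rw [k1 u hu a w hw ha, k2 u hu r hr b w' hw' hb] at hk'
      refine hrv w' ?_
      have h := hp (w⁻¹ * r w') (by omega)
      rwa [mul_inv_cancel_left] at h
  · simp only [mul_inv_cancel_left]

end Pool.Agent.H65.AB
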